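import Pool.Agent.Lib.MP_6756f0_al.Defs

/-! Basic facts on Koszul complexes and the two criteria for Massey operations. -/

namespace Pool.Agent.Lib.MP_6756f0_al

open Defs ExteriorAlgebra

/-- The underlying graded algebra of the Koszul complex on `n` elements of `R`. -/
abbrev Kos (R : Type) [CommRing R] (n : ℕ) : Type := ExteriorAlgebra R (Fin n → R)

variable {R : Type} [CommRing R] {n : ℕ}

/-- The Koszul differential as a linear map. -/
noncomputable def kosD (x : Fin n → R) : Kos R n →ₗ[R] Kos R n :=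
  CliffordAlgebra.contractLeft (Fintype.linearCombination R x)

/-- Cycles of degree `i`. -/
noncomputable def cycles (x : Fin n → R) (i : ℕ) : Submodule R (Kos R n) :=
  ExteriorAlgebra.exteriorPower R i (Fin n → R) ⊓ LinearMap.ker (kosD x)

/-- Boundaries of degree `i`. -/
noncomputable def boundaries (x : Fin n → R) (i : ℕ) : Submodule R (Kos R n) :=
  (ExteriorAlgebra.exteriorPower R (i + 1) (Fin n → R)).map (kosD x)

lemma isCycle_iff (x : Fin n → R) (i : ℕ) (w : Kos R n) :
    IsCycle (kosForm x) i w ↔ w ∈ cycles x i := Iff.rfl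

lemma isBoundary_iff (x : Fin n → R) (i : ℕ) (w : Kos R n) :
    IsBoundary (kosForm x) i w ↔ w ∈ boundaries x i := Iff.rfl

/-- The degree `i` part. -/
abbrev KD (R : Type) [CommRing R] (n i : ℕ) : Submodule R (Kos R n) :=
  ExteriorAlgebra.exteriorPower R i (Fin n → R)

/-- The generators. -/
noncomputable def ee (R : Type) [CommRing R] {n : ℕ} (i : Fin n) : Kos R n :=
  ι R (Pi.single i (1 : R))

lemma kosD_ι_mul (x : Fin n → R) (m : Fin n → R) (w : Kos R n) :
    kosD x (ι R m * w) = Fintype.linearCombination R x m • w - ι R m * kosD x w :=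
  CliffordAlgebra.contractLeft_ι_mul _ m w

lemma kosD_ee_mul (x : Fin n → R) (i : Fin n) (w : Kos R n) :
    kosD x (ee R i * w) = x i • w - ee R i * kosD x w := by
  rw [ee, kosD_ι_mul]; simp

lemma kosD_algebraMap (x : Fin n → R) (r : R) : kosD x (algebraMap R (Kos R n) r) = 0 :=
  CliffordAlgebra.contractLeft_algebraMap _ _ r

lemma kosD_one (x : Fin n → R) : kosD x (1 : Kos R n) = 0 := by
  simpa using kosD_algebraMap x 1

lemma kosD_kosD (x : Fin n → R) (w : Kos R n) : kosD x (kosD x w) = 0 :=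
  CliffordAlgebra.contractLeft_contractLeft _ w

lemma ee_mul_self (i : Fin n) : ee R i * ee R i = 0 := ι_sq_zero _

lemma ee_mem (i : Fin n) : ee R i ∈ KD R n 1 := by
  simp only [KD, ExteriorAlgebra.exteriorPower, pow_one]
  exact LinearMap.mem_range_self _ _

lemma KD_mul {i j : ℕ} {u v : Kos R n} (hu : u ∈ KD R n i) (hv : v ∈ KD R n j) :
    u * v ∈ KD R n (i + j) :=
  SetLike.mul_mem_graded (A := fun i => KD R n i) hu hv

lemma kosD_mem_aux (x : Fin n → R) {i : ℕ} {w : Kos R n} (hw : w ∈ KD R n i) :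
    kosD x w ∈ KD R n (i - 1) ∧ (i = 0 → kosD x w = 0) := by
  induction hw using Submodule.pow_induction_on_left' with
  | algebraMap r => rw [kosD_algebraMap]; exact ⟨zero_mem _, fun _ => rfl⟩
  | add u v i hu hv ihu ihv =>
    rw [map_add]
    exact ⟨add_mem ihu.1 ihv.1, fun h => by rw [ihu.2 h, ihv.2 h, add_zero]⟩
  | mem_mul m hm i w hw ih =>
    refine ⟨?_, fun h => by omega⟩
    obtain ⟨m, rfl⟩ := hm
    rw [kosD_ι_mul]
    refine sub_mem (Submodule.smul_mem _ _ hw) ?_
    rcases Nat.eq_zero_or_pos i with h | h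
    · rw [ih.2 h, mul_zero]; exact zero_mem _
    · have h1 : ι R m ∈ KD R n 1 := by
        simp only [KD, ExteriorAlgebra.exteriorPower, pow_one]
        exact LinearMap.mem_range_self _ _
      have := KD_mul h1 ih.1
      rwa [show 1 + (i - 1) = i.succ - 1 by omega] at this

lemma kosD_mem (x : Fin n → R) {i : ℕ} {w : Kos R n} (hw : w ∈ KD R n (i + 1)) :
    kosD x w ∈ KD R n i := (kosD_mem_aux x hw).1

lemma kosD_mul (x : Fin n → R) {i : ℕ} {u : Kos R n} (hu : u ∈ KD R n i) (v : Kos R n) :
    kosD x (u * v) = kosD x u * v + (-1 : R) ^ i • (u * kosD x v) := by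
  induction hu using Submodule.pow_induction_on_left' with
  | algebraMap r => simp [kosD_algebraMap, ← Algebra.smul_def]
  | add u w i hu hw ihu ihw => simp only [add_mul, map_add, ihu, ihw, smul_add]; abel
  | mem_mul m hm i w hw ih =>
    obtain ⟨m, rfl⟩ := hm
    rw [mul_assoc, kosD_ι_mul, kosD_ι_mul, ih]
    simp only [mul_add, sub_mul, smul_mul_assoc, mul_assoc, Nat.succ_eq_add_one, pow_succ,
      mul_smul_comm, mul_neg, mul_one, neg_smul]
    abel

/-- The projection to degree `i`. -/
noncomputable def prj (R : Type) [CommRing R] (n i : ℕ) : Kos R n →ₗ[R] Kos R n :=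
  GradedAlgebra.proj (fun i => KD R n i) i

lemma prj_same {i : ℕ} {w : Kos R n} (hw : w ∈ KD R n i) : prj R n i w = w :=
  DirectSum.decompose_of_mem_same (fun i => KD R n i) hw

lemma prj_ne {i j : ℕ} {w : Kos R n} (hw : w ∈ KD R n i) (h : i ≠ j) : prj R n j w = 0 :=
  DirectSum.decompose_of_mem_ne (fun i => KD R n i) hw h

lemma prj_mem (i : ℕ) (w : Kos R n) : prj R n i w ∈ KD R n i :=
  (DirectSum.decompose (fun i => KD R n i) w i).2

lemma prj_kosD (x : Fin n → R) (i : ℕ) (w : Kos R n) :
    prj R n i (kosD x w) = kosD x (prj R n (i + 1) w) := by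
  induction w using DirectSum.Decomposition.inductionOn (fun i => KD R n i) with
  | zero => simp
  | add u v hu hv => simp only [map_add, hu, hv]
  | @homogeneous j w =>
    by_cases h : j = i + 1
    · subst h
      rw [prj_same w.2, prj_same (kosD_mem x w.2)]
    · rw [prj_ne w.2 h, map_zero]
      rcases j with _ | j
      · rw [(kosD_mem_aux x w.2).2 rfl, map_zero]
      · exact prj_ne (kosD_mem x w.2) (by omega)

lemma KD_eq_zero {i : ℕ} (hi : n < i) {w : Kos R n} (hw : w ∈ KD R n i) : w = 0 := by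
  have : IsEmpty (Set.powersetCard (Fin n) i) := by
    refine ⟨fun s => ?_⟩
    have h1 : s.1.card = i := s.2
    have h2 := Finset.card_le_univ s.1
    rw [Fintype.card_fin] at h2
    omega
  have b := (Pi.basisFun R (Fin n)).exteriorPower i
  have h : (⟨w, hw⟩ : KD R n i) = 0 := b.repr.injective (Subsingleton.elim _ _)
  exact congrArg Subtype.val h

section
variable (k : Type) [Field k] [Algebra k R]

/-- Koszul homology in degree `i`. -/
abbrev KosH (x : Fin n → R) (i : ℕ) : Type :=
  cycles x i ⧸ (boundaries x i).submoduleOf (cycles x i)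

lemma comb_eq {ι : Type} (z : ι → Kos R n) (c : ι →₀ k) :
    comb k z c = Finsupp.linearCombination k z c := by
  simp only [comb, Finsupp.linearCombination_apply, algebraMap_smul]

lemma isHomologyBasis_of_basis (x : Fin n → R) (i : ℕ) {ι : Type} (b : Module.Basis ι k (KosH x i))
    (z : ι → Kos R n) (hz : ∀ p, z p ∈ cycles x i)
    (hb : ∀ p, Submodule.Quotient.mk ⟨z p, hz p⟩ = b p) : IsHomologyBasis k (kosForm x) i z := by
  let q : cycles x i →ₗ[k] KosH x i := (Submodule.mkQ _).restrictScalars k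
  let z' : ι → cycles x i := fun p => ⟨z p, hz p⟩
  have e1 : ∀ c : ι →₀ k, comb k z c = (Finsupp.linearCombination k z' c : cycles x i) := by
    intro c
    rw [comb_eq]
    exact (Finsupp.apply_linearCombination k ((cycles x i).subtype.restrictScalars k) z' c).symm
  have e2 : ∀ c : ι →₀ k, q (Finsupp.linearCombination k z' c) = Finsupp.linearCombination k b c := by
    intro c
    rw [Finsupp.apply_linearCombination]
    congr 2
    funext p
    exact hb p
  refine ⟨hz, fun c hc => ?_, fun w hw => ⟨b.repr (q ⟨w, hw⟩), ?_⟩⟩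
  · rw [isBoundary_iff, e1] at hc
    have : q (Finsupp.linearCombination k z' c) = 0 := (Submodule.Quotient.mk_eq_zero _).2 hc
    rw [e2] at this
    exact linearIndependent_iff.1 b.linearIndependent c this
  · rw [isBoundary_iff, e1]
    have : q ⟨w, hw⟩ = q (Finsupp.linearCombination k z' (b.repr (q ⟨w, hw⟩))) := by
      rw [e2, b.linearCombination_repr]
    exact (Submodule.Quotient.eq ((boundaries x i).submoduleOf (cycles x i))).1 this

theorem massey_of_square_zero (x : Fin n → R) (a : Ideal R) (ha : a * a = ⊥)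
    (h : ∀ z : Kos R n, kosD x z = 0 → ∃ (y w : Kos R n) (r : R),
      w ∈ a • (⊤ : Submodule R (Kos R n)) ∧ z = kosD x y + w + algebraMap R _ r) :
    HasTrivialMassey k (kosForm x) := by
  classical
  have rep : ∀ (i : ℕ) (c : KosH x (i + 1)), ∃ w, w ∈ a • (⊤ : Submodule R (Kos R n)) ∧
      ∃ hw : w ∈ cycles x (i + 1), Submodule.Quotient.mk ⟨w, hw⟩ = c := by
    intro i c
    obtain ⟨⟨z, hz1, hz2⟩, rfl⟩ := Submodule.Quotient.mk_surjective _ c
    obtain ⟨y, w, r, hw, e⟩ := h z hz2
    have e2 : z = kosD x (prj R n (i + 2) y) + prj R n (i + 1) w := by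
      have h0 : algebraMap R (Kos R n) r ∈ KD R n 0 :=
        SetLike.algebraMap_mem_graded (fun i => KD R n i) r
      rw [← prj_same hz1, e, map_add, map_add, prj_kosD, prj_ne h0 (by omega), add_zero]
    refine ⟨prj R n (i + 1) w, ?_, ⟨prj_mem _ _, ?_⟩, ?_⟩
    · have := Submodule.mem_map_of_mem (f := prj R n (i + 1)) hw
      rw [Submodule.map_smul''] at this
      exact Submodule.smul_mono le_rfl le_top this
    · have h3 : kosD x z = 0 := hz2
      rw [e2, map_add, kosD_kosD, zero_add] at h3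
      exact h3
    · rw [eq_comm, Submodule.Quotient.eq]
      refine ⟨prj R n (i + 2) y, prj_mem _ _, ?_⟩
      simp only [Submodule.subtype_apply, AddSubgroupClass.coe_sub]
      rw [eq_sub_iff_add_eq, ← e2]
  choose w hw1 hw2 hw3 using rep
  let ι' : ℕ → Type := fun i => Module.Basis.ofVectorSpaceIndex k (KosH x (i + 1))
  let b : ∀ i, Module.Basis (ι' i) k (KosH x (i + 1)) := fun i =>
    Module.Basis.ofVectorSpace k (KosH x (i + 1))
  let μ : List (Σ i, ι' i) → Kos R n := fun l => match l with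
    | [h] => w h.1 (b h.1 h.2)
    | _ => 0
  have hμ : ∀ l, μ l ∈ a • (⊤ : Submodule R (Kos R n)) := by
    intro l
    rcases l with _ | ⟨h, _ | ⟨h', l⟩⟩
    · exact zero_mem _
    · exact hw1 _ _
    · exact zero_mem _
  have hmul : ∀ u ∈ a • (⊤ : Submodule R (Kos R n)), ∀ v ∈ a • (⊤ : Submodule R (Kos R n)),
      u * v = 0 := by
    intro u hu v hv
    induction hu using Submodule.smul_induction_on' with
    | add _ _ _ _ h1 h2 => rw [add_mul, h1, h2, add_zero]
    | smul r hr u _ =>
      induction hv using Submodule.smul_induction_on' with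
      | add _ _ _ _ h1 h2 => rw [mul_add, h1, h2, add_zero]
      | smul s hs v _ =>
        have : r * s = 0 := by
          have := Ideal.mul_mem_mul hr hs
          rwa [ha, Ideal.mem_bot] at this
        rw [smul_mul_smul_comm, this, zero_smul]
  refine ⟨ι', μ, fun i => isHomologyBasis_of_basis k x (i + 1) (b i) _ (fun _ => hw2 _ _)
    (fun _ => hw3 _ _), ?_, ?_⟩
  · intro l hl
    rcases l with _ | ⟨h, _ | ⟨h', l⟩⟩
    · exact (hl rfl).elim
    · exact (hw2 h.1 (b h.1 h.2)).1
    · exact (KD R n _).zero_mem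
  · intro l hl
    rcases l with _ | ⟨h, _ | ⟨h', l⟩⟩
    · simp at hl
    · simp at hl
    · change kosD x 0 = _
      rw [map_zero, eq_comm, masseySum]
      apply Finset.sum_eq_zero
      intro j _
      rw [hmul _ (hμ _) _ (hμ _), smul_zero]

theorem not_massey_of_product (x : Fin 4 → R) {u v : Kos R 4} (hu : u ∈ cycles x 2)
    (hv : v ∈ cycles x 2) (huv : u * v ≠ 0) : ¬ HasTrivialMassey k (kosForm x) := by
  rintro ⟨ι', μ, h1, h2, h3⟩
  obtain ⟨hz, -, hb⟩ := h1 1
  have prod : ∀ p q : ι' 1, μ [⟨1, p⟩] * μ [⟨1, q⟩] = 0 := by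
    intro p q
    have e : kosD x _ = _ := h3 [⟨1, p⟩, ⟨1, q⟩] le_rfl
    have z := KD_eq_zero (i := 5) (by norm_num) (h2 [⟨1, p⟩, ⟨1, q⟩] (by simp))
    rw [z, map_zero] at e
    simpa [masseySum, listDeg, show ((-1 : R) ^ 3) = -1 by ring] using e.symm
  have bl : ∀ y ∈ boundaries x 2, ∀ z ∈ cycles x 2, y * z = 0 := by
    rintro _ ⟨y, hy, rfl⟩ z hz
    have e := kosD_mul x hy z
    have hz2 : kosD x z = 0 := hz.2
    rw [KD_eq_zero (i := 5) (by norm_num) (KD_mul hy hz.1), hz2, map_zero, mul_zero, smul_zero,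
      add_zero] at e
    exact e.symm
  have br : ∀ y ∈ boundaries x 2, ∀ z ∈ cycles x 2, z * y = 0 := by
    rintro _ ⟨y, hy, rfl⟩ z hz
    have e := kosD_mul x hz.1 y
    have hz2 : kosD x z = 0 := hz.2
    rw [KD_eq_zero (i := 5) (by norm_num) (KD_mul hz.1 hy), hz2, map_zero, zero_mul, zero_add] at e
    simpa using e.symm
  have gen : ∀ P : Kos R 4 → Prop, P 0 → (∀ s t, P s → P t → P (s + t)) →
      (∀ (c : k) s, P s → P (c • s)) → (∀ y ∈ boundaries x 2, P y) → (∀ p, P (μ [⟨1, p⟩])) →
      ∀ z ∈ cycles x 2, P z := by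
    intro P p0 padd psmul pb pμ z hzc
    obtain ⟨c, hc⟩ := hb z hzc
    have h4 : P (comb k (fun p => μ [⟨1, p⟩]) c) := by
      rw [comb_eq, Finsupp.linearCombination_apply, Finsupp.sum]
      exact Finset.sum_induction _ P padd p0 fun p _ => psmul _ _ (pμ p)
    simpa using padd _ _ (pb _ hc) h4
  have left : ∀ q, ∀ z ∈ cycles x 2, z * μ [⟨1, q⟩] = 0 := by
    intro q
    refine gen (fun z => z * μ [⟨1, q⟩] = 0) (zero_mul _) ?_ ?_ ?_ fun p => prod p q
    · intro s t hs ht; rw [add_mul, hs, ht, add_zero]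
    · intro c s hs; rw [smul_mul_assoc, hs, smul_zero]
    · intro y hy; exact bl y hy _ (hz q)
  refine huv (gen (fun z => u * z = 0) (mul_zero _) ?_ ?_ ?_ (fun q => left q u hu) v hv)
  · intro s t hs ht; rw [mul_add, hs, ht, add_zero]
  · intro c s hs; rw [mul_smul_comm, hs, smul_zero]
  · intro y hy; exact br y hy u hu

end

/-- The product of the generators indexed by a list. -/
noncomputable def eList (R : Type) [CommRing R] {n : ℕ} (l : List (Fin n)) : Kos R n :=
  (l.map (ee R)).prod

/-- The standard basis of the exterior algebra. -/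
noncomputable def eBasis (R : Type) [CommRing R] (n : ℕ) :
    Module.Basis (Finset (Fin n)) R (Kos R n) := (Pi.basisFun R (Fin n)).ExteriorAlgebra

lemma eBasis_apply (F : Finset (Fin n)) : eBasis R n F = eList R F.sort := by
  rw [eBasis, basis_apply_ofCard _ rfl, ιMulti_family, ιMulti_apply, eList,
    ← Finset.listMap_orderEmbOfFin_finRange F rfl, List.map_map, List.ofFn_eq_map]
  congr 1
  apply List.map_congr_left
  intro i _
  simp [ee, Set.powersetCard.ofFinEmbEquiv_symm_apply]

end Pool.Agent.Lib.MP_6756f0_al
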