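import Mathlib

namespace Pool.Agent.Lib.MP_6756f0_al.Defs

variable {R M : Type} [CommRing R] [AddCommGroup M] [Module R M]

/-- The value of a bilinear map. -/
def app2 {A B C : Type} [AddCommMonoid A] [AddCommMonoid B] [AddCommMonoid C] [Module R A]
    [Module R B] [Module R C] (f : A →ₗ[R] B →ₗ[R] C) (a : A) (b : B) : C := f a b

/-- The Koszul differential of a linear form `φ`: the antiderivation of the exterior algebra that
extends `φ`. -/
noncomputable def kosDiff (φ : Module.Dual R M) (w : ExteriorAlgebra R M) : ExteriorAlgebra R M :=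
  app2 CliffordAlgebra.contractLeft φ w

/-- `w` is homogeneous of degree `i`. -/
def InDeg (i : ℕ) (w : ExteriorAlgebra R M) : Prop := w ∈ ExteriorAlgebra.exteriorPower R i M

/-- `w` is a cycle of degree `i`. -/
def IsCycle (φ : Module.Dual R M) (i : ℕ) (w : ExteriorAlgebra R M) : Prop :=
  InDeg i w ∧ kosDiff φ w = 0

/-- `w` is a boundary of degree `i`. -/
def IsBoundary (φ : Module.Dual R M) (i : ℕ) (w : ExteriorAlgebra R M) : Prop :=
  ∃ y, InDeg (i + 1) y ∧ kosDiff φ y = w

/-- A finite `k`-linear combination of a family. -/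
noncomputable def comb (k : Type) [Field k] [Algebra k R] {ι : Type} (z : ι → ExteriorAlgebra R M)
    (c : ι →₀ k) : ExteriorAlgebra R M :=
  c.sum fun p a => algebraMap k R a • z p

/-- The family `z` consists of cycles of degree `i` whose classes form a `k`-basis of the Koszul
homology in degree `i`. -/
def IsHomologyBasis (k : Type) [Field k] [Algebra k R] (φ : Module.Dual R M) (i : ℕ) {ι : Type}
    (z : ι → ExteriorAlgebra R M) : Prop :=
  (∀ p, IsCycle φ i (z p)) ∧ (∀ c, IsBoundary φ i (comb k z c) → c = 0) ∧
    ∀ w, IsCycle φ i w → ∃ c, IsBoundary φ i (w - comb k z c)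

/-- The degree of the Massey operation on a list of basis classes; the class `h` has degree
`h.1 + 1`. -/
def listDeg {ι : ℕ → Type} (l : List (Σ i, ι i)) : ℕ := (l.map fun h => h.1 + 2).sum - 1

/-- The right-hand side of the defining equation of a Massey operation. -/
noncomputable def masseySum {ι : ℕ → Type} (μ : List (Σ i, ι i) → ExteriorAlgebra R M)
    (l : List (Σ i, ι i)) : ExteriorAlgebra R M :=
  ∑ j ∈ Finset.Ico 1 l.length,
    (-1 : R) ^ (listDeg (l.take j) + 1) • (μ (l.take j) * μ (l.drop j))

/-- The Koszul complex admits a trivial Massey operation; `ι i` indexes a basis of the homology in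
degree `i + 1`. -/
def HasTrivialMassey (k : Type) [Field k] [Algebra k R] (φ : Module.Dual R M) : Prop :=
  ∃ (ι : ℕ → Type) (μ : List (Σ i, ι i) → ExteriorAlgebra R M),
    (∀ i, IsHomologyBasis k φ (i + 1) fun p : ι i => μ [⟨i, p⟩]) ∧
    (∀ l, l ≠ [] → InDeg (listDeg l) (μ l)) ∧
    ∀ l : List (Σ i, ι i), 2 ≤ l.length → kosDiff φ (μ l) = masseySum μ l

/-- The linear form on `Rⁿ` sending `eᵢ` to `xᵢ`. -/
noncomputable def kosForm {n : ℕ} (x : Fin n → R) : Module.Dual R (Fin n → R) :=
  Fintype.linearCombination R x

/-- An ideal (inside the square of the irrelevant ideal) is Golod if the Koszul complex of the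
quotient ring on the images of the variables admits a trivial Massey operation. -/
def IsGolod {k : Type} [Field k] {n : ℕ} (I : Ideal (MvPolynomial (Fin n) k)) : Prop :=
  HasTrivialMassey k (kosForm fun i => Ideal.Quotient.mk I (MvPolynomial.X i))

/-- The irrelevant ideal, generated by the variables. -/
noncomputable def irr (k : Type) [Field k] (n : ℕ) : Ideal (MvPolynomial (Fin n) k) :=
  Ideal.span (Set.range MvPolynomial.X)

/-- The ideal generated by the fourth powers of the variables. -/
noncomputable def fourth (k : Type) [Field k] (n : ℕ) : Ideal (MvPolynomial (Fin n) k) :=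
  Ideal.span (Set.range fun i => MvPolynomial.X i ^ 4)

/-- A proper ideal that is homogeneous for the standard grading and lies in the square of the
irrelevant ideal. -/
def IsAdmissible {k : Type} [Field k] {n : ℕ} (I : Ideal (MvPolynomial (Fin n) k)) : Prop :=
  I ≠ ⊤ ∧ (∀ f ∈ I, ∀ d, MvPolynomial.homogeneousComponent d f ∈ I) ∧ I ≤ irr k n ^ 2

end Pool.Agent.Lib.MP_6756f0_al.Defs
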