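import Pool.Agent.Lib.MP_6756f0_al.Homotopy

/-! Two Golod monomial ideals in four variables whose product is not Golod. -/

namespace Pool.Agent.Lib.MP_6756f0_al

open Defs ExteriorAlgebra MvPolynomial

variable (k : Type) [Field k]

/-- The irrelevant ideal. -/
noncomputable abbrev mm : Ideal (SS k 4) := Ideal.span (Set.range X)

/-- The ideal of fourth powers of the variables. -/
noncomputable abbrev CC : Ideal (SS k 4) := Ideal.span (Set.range fun i => X i ^ 4)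

variable {k}

lemma deg4 (γ : Fin 4 →₀ ℕ) : Finsupp.degree γ = γ 0 + γ 1 + γ 2 + γ 3 := by
  rw [Finsupp.degree_eq_sum, Fin.sum_univ_four]

lemma CC_eq : CC k = Ideal.span ((fun s => monomial s (1 : k)) ''
    Set.range fun i : Fin 4 => Finsupp.single i 4) := by
  rw [← Set.range_comp]
  have : (fun i : Fin 4 => (X i ^ 4 : SS k 4)) =
      (fun s => monomial s (1 : k)) ∘ fun i : Fin 4 => Finsupp.single i 4 := by
    funext i
    simp [X_pow_eq_monomial]
  rw [CC, this]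

lemma mem_CC (f : SS k 4) : f ∈ CC k ↔ ∀ γ ∈ f.support, ∃ i, 4 ≤ γ i := by
  rw [CC_eq, mem_ideal_span_monomial_image]
  simp [Finsupp.single_le_iff]

lemma mem_mm_pow (d : ℕ) (f : SS k 4) :
    f ∈ mm k ^ d ↔ ∀ γ ∈ f.support, d ≤ γ 0 + γ 1 + γ 2 + γ 3 := by
  rw [mem_pow_idealOfVars_iff]; simp only [deg4]

lemma supp_mul {A B : Ideal (SS k 4)} {P Q T : (Fin 4 →₀ ℕ) → Prop}
    (hA : ∀ f ∈ A, ∀ γ ∈ f.support, P γ) (hB : ∀ f ∈ B, ∀ γ ∈ f.support, Q γ)
    (h : ∀ γ δ, P γ → Q δ → T (γ + δ)) : ∀ f ∈ A * B, ∀ γ ∈ f.support, T γ := by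
  classical
  intro f hf
  refine Submodule.mul_induction_on hf ?_ ?_
  · intro u hu v hv γ hγ
    obtain ⟨a, ha, b, hb, rfl⟩ := Finset.mem_add.1 (support_mul u v hγ)
    exact h a b (hA u hu a ha) (hB v hv b hb)
  · intro u v hu hv γ hγ
    rcases Finset.mem_union.1 (support_add hγ) with h' | h'
    · exact hu γ h'
    · exact hv γ h'

lemma supp_I1 : ∀ f ∈ mm k * CC k ⊔ mm k ^ 12, ∀ γ ∈ f.support,
    ((∃ i, 4 ≤ γ i) ∧ 5 ≤ γ 0 + γ 1 + γ 2 + γ 3) ∨ 12 ≤ γ 0 + γ 1 + γ 2 + γ 3 := by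
  classical
  intro f hf γ hγ
  obtain ⟨u, hu, v, hv, rfl⟩ := Submodule.mem_sup.1 hf
  rcases Finset.mem_union.1 (support_add hγ) with h' | h'
  · left
    refine supp_mul (P := fun γ => 1 ≤ γ 0 + γ 1 + γ 2 + γ 3) (Q := fun γ => ∃ i, 4 ≤ γ i)
      (T := fun γ => (∃ i, 4 ≤ γ i) ∧ 5 ≤ γ 0 + γ 1 + γ 2 + γ 3)
      (fun f hf => (mem_mm_pow 1 f).1 (by rwa [pow_one])) (fun f hf => (mem_CC f).1 hf) ?_ u hu γ h'
    rintro γ δ h1 ⟨i, hi⟩
    refine ⟨⟨i, by rw [Finsupp.add_apply]; omega⟩, ?_⟩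
    simp only [Finsupp.add_apply]
    fin_cases i <;> simp only [Fin.reduceFinMk, Fin.zero_eta, Fin.mk_one, Fin.isValue] at hi <;> omega
  · exact Or.inr ((mem_mm_pow 12 v).1 hv γ h')

lemma X_mem (i : Fin 4) : (X i : SS k 4) ∈ mm k := Ideal.subset_span ⟨i, rfl⟩

lemma CC_le : CC k ≤ mm k ^ 4 := by
  rw [Ideal.span_le]
  rintro _ ⟨i, rfl⟩
  exact Ideal.pow_mem_pow (X_mem i) 4

lemma CC_le' : CC k ≤ mm k := CC_le.trans (Ideal.pow_le_self (by norm_num))

open Classical in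
/-- The choice of a variable in each multidegree. -/
noncomputable def jj (α : Fin 4 →₀ ℕ) : Fin 4 :=
  if h : ∃ i, 0 < α i ∧ α i ≠ 4 then h.choose else if h' : ∃ i, 0 < α i then h'.choose else 0

lemma jj_pos (α : Fin 4 →₀ ℕ) (h0 : α ≠ 0) : 0 < α (jj α) := by
  unfold jj
  split_ifs with h h'
  · exact h.choose_spec.1
  · exact h'.choose_spec
  · exfalso
    apply h0
    ext i
    by_contra hc
    exact h' ⟨i, Nat.pos_of_ne_zero hc⟩

lemma jj_four (α : Fin 4 →₀ ℕ) (h4 : α (jj α) = 4) (i : Fin 4) : α i = 0 ∨ α i = 4 := by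
  by_cases h : ∃ i, 0 < α i ∧ α i ≠ 4
  · exfalso
    have := h.choose_spec.2
    rw [jj, dif_pos h] at h4
    exact this h4
  · by_contra hc
    exact h ⟨i, by omega, by omega⟩

lemma supp_monomial {v γ : Fin 4 →₀ ℕ} (h : γ ∈ (monomial v (1 : k) : SS k 4).support) : γ = v :=
  Finset.mem_singleton.1 (support_monomial_subset h)

theorem golod_I1 : IsGolod (mm k * CC k ⊔ mm k ^ 12) := by
  refine golod_of_choice jj jj_pos _ (CC k ⊔ mm k ^ 6) ?_ ?_
  · rw [Ideal.mul_sup, Ideal.sup_mul, Ideal.sup_mul, ← pow_add]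
    refine sup_le (sup_le ?_ ?_) (sup_le ?_ le_sup_right)
    · exact le_sup_of_le_left (Ideal.mul_mono_left CC_le')
    · exact le_sup_of_le_left (Ideal.mul_mono_left (Ideal.pow_le_self (by norm_num)))
    · rw [mul_comm]
      exact le_sup_of_le_left (Ideal.mul_mono_left (Ideal.pow_le_self (by norm_num)))
  · intro f hf γ hγ F hF
    have key : (∃ i, 4 ≤ (γ - Finsupp.single (jj (mdeg (γ, F))) 1 : Fin 4 →₀ ℕ) i) ∨
        6 ≤ Finsupp.degree (γ - Finsupp.single (jj (mdeg (γ, F))) 1 : Fin 4 →₀ ℕ) := by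
      have h4 := jj_four (mdeg (γ, F))
      have hj := mdeg_apply (γ, F) (jj (mdeg (γ, F)))
      rw [if_neg hF] at hj
      have hm : ∀ i, γ i ≤ mdeg (γ, F) i ∧ mdeg (γ, F) i ≤ γ i + 1 := by
        intro i; rw [mdeg_apply]; split_ifs <;> simp
      have hs := supp_I1 f hf γ hγ
      generalize jj (mdeg (γ, F)) = j at h4 hj
      generalize mdeg (γ, F) = α at h4 hj hm
      have m0 := hm 0
      have m1 := hm 1
      have m2 := hm 2
      have m3 := hm 3
      simp only [deg4, Finsupp.tsub_apply, Finsupp.single_apply, Fin.exists_fin_succ,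
        IsEmpty.exists_iff, or_false, Fin.forall_fin_succ, IsEmpty.forall_iff, and_true,
        Fin.succ_zero_eq_one, Fin.succ_one_eq_two, Fin.reduceSucc] at h4 hs hj ⊢
      fin_cases j <;> simp at h4 hj ⊢ <;> omega
    rcases key with ⟨i, hi⟩ | h
    · refine Ideal.mem_sup_left ((mem_CC _).2 fun δ hδ => ?_)
      rw [supp_monomial hδ]; exact ⟨i, hi⟩
    · exact Ideal.mem_sup_right ((monomial_mem_pow_idealOfVars_iff 6 _ one_ne_zero).2 h)

theorem golod_I2 : IsGolod (mm k ^ 2) := by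
  refine golod_of_choice jj jj_pos _ (mm k) (by rw [pow_two]) ?_
  intro f hf γ hγ F _
  have h := (mem_mm_pow 2 f).1 hf γ hγ
  rw [← pow_one (mm k), mem_mm_pow]
  intro δ hδ
  rw [supp_monomial hδ]
  generalize jj (mdeg (γ, F)) = j
  simp only [Finsupp.tsub_apply, Finsupp.single_apply]
  fin_cases j <;> simp <;> omega

lemma mem_J (i j : Fin 4) : (X i ^ 4 * X j ^ 3 : SS k 4) ∈ (mm k * CC k ⊔ mm k ^ 12) * mm k ^ 2 := by
  rw [show (X i ^ 4 * X j ^ 3 : SS k 4) = (X j * X i ^ 4) * X j ^ 2 by ring]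
  exact Ideal.mul_mem_mul
    (Ideal.mem_sup_left (Ideal.mul_mem_mul (X_mem j) (Ideal.subset_span ⟨i, rfl⟩)))
    (Ideal.pow_mem_pow (X_mem j) 2)

lemma cycle_mem {R : Type} [CommRing R] (x : Fin 4 → R) (i j : Fin 4) {f : R} (hi : f * x i = 0)
    (hj : f * x j = 0) : f • (ee R i * ee R j) ∈ cycles x 2 := by
  refine ⟨Submodule.smul_mem _ _ (KD_mul (ee_mem i) (ee_mem j)), ?_⟩
  rw [SetLike.mem_coe, LinearMap.mem_ker, map_smul, kosD_ee_mul, ← mul_one (ee _ j), kosD_ee_mul,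
    kosD_one, mul_zero, sub_zero, mul_smul_comm, smul_sub, smul_smul, smul_smul, hi, hj,
    zero_smul, zero_smul, sub_zero]

lemma not_massey_of_colon {R : Type} [CommRing R] [Algebra k R] (x : Fin 4 → R) {f g : R}
    (h0 : f * x 0 = 0) (h1 : f * x 1 = 0) (h2 : g * x 2 = 0) (h3 : g * x 3 = 0) (h : f * g ≠ 0) :
    ¬ HasTrivialMassey k (kosForm x) := by
  refine not_massey_of_product k _ (cycle_mem x 0 1 h0 h1) (cycle_mem x 2 3 h2 h3) ?_
  have e : ee R (0 : Fin 4) * ee R 1 * (ee R 2 * ee R 3) = eBasis R 4 Finset.univ := by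
    rw [eBasis_apply, Fin.sort_univ]
    simp [eList, List.finRange, mul_assoc]
  rw [smul_mul_smul_comm, e]
  intro h'
  have h4 := congrArg (fun w => (eBasis R 4).repr w Finset.univ) h'
  simp only [map_smul, Module.Basis.repr_self, Finsupp.smul_apply, Finsupp.single_eq_same,
    smul_eq_mul, mul_one, map_zero, Finsupp.coe_zero, Pi.zero_apply] at h4
  exact h h4

lemma kill (i j : Fin 4) :
    Ideal.Quotient.mk ((mm k * CC k ⊔ mm k ^ 12) * mm k ^ 2) (X i ^ 3 * X j ^ 3) *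
      Ideal.Quotient.mk ((mm k * CC k ⊔ mm k ^ 12) * mm k ^ 2) (X i) = 0 := by
  rw [← map_mul, show (X i ^ 3 * X j ^ 3 * X i : SS k 4) = X i ^ 4 * X j ^ 3 by ring]
  exact Ideal.Quotient.eq_zero_iff_mem.2 (mem_J i j)

theorem not_golod_J : ¬ IsGolod ((mm k * CC k ⊔ mm k ^ 12) * mm k ^ 2) := by
  refine not_massey_of_colon _ (f := Ideal.Quotient.mk _ (X 0 ^ 3 * X 1 ^ 3))
    (g := Ideal.Quotient.mk _ (X 2 ^ 3 * X 3 ^ 3)) (kill 0 1) (by rw [mul_comm (X 0 ^ 3)]; exact kill 1 0)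
    (kill 2 3) (by rw [mul_comm (X 2 ^ 3)]; exact kill 3 2) ?_
  intro h1
  rw [← map_mul, Ideal.Quotient.eq_zero_iff_mem] at h1
  have h2 := supp_mul (T := fun γ => (∃ i, 4 ≤ γ i) ∨ 14 ≤ γ 0 + γ 1 + γ 2 + γ 3)
    (supp_I1 (k := k)) (fun f hf => (mem_mm_pow 2 f).1 hf) (by
      rintro γ δ (⟨⟨i, hi⟩, -⟩ | h) h'
      · exact Or.inl ⟨i, by rw [Finsupp.add_apply]; omega⟩
      · right; simp only [Finsupp.add_apply]; omega) _ h1
    (Finsupp.single 0 3 + Finsupp.single 1 3 + (Finsupp.single 2 3 + Finsupp.single 3 3)) (by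
      simp only [X_pow_eq_monomial, monomial_mul, mul_one]
      rw [mem_support_iff, coeff_monomial, if_pos rfl]
      exact one_ne_zero)
  rcases h2 with ⟨i, hi⟩ | h2
  · fin_cases i <;> simp at hi
  · simp at h2

attribute [local instance] MvPolynomial.gradedAlgebra in
lemma homog_mm : (mm k).IsHomogeneous (homogeneousSubmodule (Fin 4) k) :=
  Ideal.homogeneous_span _ _ (by
    rintro _ ⟨i, rfl⟩
    exact ⟨1, isHomogeneous_X k i⟩)

attribute [local instance] MvPolynomial.gradedAlgebra in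
lemma homog_CC : (CC k).IsHomogeneous (homogeneousSubmodule (Fin 4) k) :=
  Ideal.homogeneous_span _ _ (by
    rintro _ ⟨i, rfl⟩
    exact ⟨4, isHomogeneous_X_pow i 4⟩)

attribute [local instance] MvPolynomial.gradedAlgebra in
lemma homog_mm_pow (d : ℕ) : (mm k ^ d).IsHomogeneous (homogeneousSubmodule (Fin 4) k) := by
  induction d with
  | zero => rw [pow_zero, Ideal.one_eq_top]; exact Ideal.IsHomogeneous.top _
  | succ d ih => rw [pow_succ]; exact ih.mul homog_mm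

end Pool.Agent.Lib.MP_6756f0_al
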