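import Pool.Agent.Lib.MP_6756f0_al.Basic

/-! A multigraded contracting homotopy of the Koszul complex of a polynomial ring and a Golod
criterion for monomial ideals. -/

namespace Pool.Agent.Lib.MP_6756f0_al

open Defs ExteriorAlgebra MvPolynomial

section lists
variable {R : Type} [CommRing R] {n : ℕ}

lemma eList_cons (i : Fin n) (l : List (Fin n)) : eList R (i :: l) = ee R i * eList R l := by
  simp [eList]

lemma ee_comm (i j : Fin n) : ee R i * ee R j = -(ee R j * ee R i) :=
  eq_neg_of_add_eq_zero_left (ι_add_mul_swap _ _)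

lemma ee_mul_eList {j : Fin n} {l : List (Fin n)} (h : j ∈ l) : ee R j * eList R l = 0 := by
  induction l with
  | nil => simp at h
  | cons a l ih =>
    rw [eList_cons, ← mul_assoc]
    rcases List.mem_cons.1 h with rfl | h
    · rw [ee_mul_self, zero_mul]
    · rw [ee_comm, neg_mul, mul_assoc, ih h, mul_zero, neg_zero]

lemma kosD_eList (x : Fin n → R) (l : List (Fin n)) (hl : l.Nodup) :
    kosD x (eList R l) ∈
      AddSubgroup.closure {w : Kos R n | ∃ i ∈ l, w = x i • eList R (l.erase i)} := by
  induction l with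
  | nil => simp [eList, kosD_one]
  | cons a l ih =>
    rw [eList_cons, kosD_ee_mul]
    refine sub_mem (AddSubgroup.subset_closure ⟨a, List.mem_cons_self, by simp⟩) ?_
    have h1 := ih (List.nodup_cons.1 hl).2
    generalize kosD x (eList R l) = w at h1
    induction h1 using AddSubgroup.closure_induction with
    | mem w hw =>
      obtain ⟨i, hi, rfl⟩ := hw
      have hne : a ≠ i := by
        rintro rfl; exact (List.nodup_cons.1 hl).1 hi
      refine AddSubgroup.subset_closure ⟨i, List.mem_cons_of_mem _ hi, ?_⟩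
      rw [List.erase_cons_tail (by simpa using hne), eList_cons, mul_smul_comm]
    | zero => rw [mul_zero]; exact zero_mem _
    | add u v _ _ hu hv => rw [mul_add]; exact add_mem hu hv
    | neg u _ hu => rw [mul_neg]; exact neg_mem hu

lemma sort_erase (F : Finset (Fin n)) (i : Fin n) : (F.erase i).sort = F.sort.erase i := by
  apply List.Perm.eq_of_pairwise' (r := (· ≤ ·)) (Finset.pairwise_sort _ _)
    ((Finset.pairwise_sort F _).sublist List.erase_sublist)
  rw [List.perm_ext_iff_of_nodup (Finset.sort_nodup _ _) ((Finset.sort_nodup _ _).erase _)]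
  intro a
  rw [(Finset.sort_nodup F _).mem_erase_iff]
  simp

end lists

variable {k : Type} [Field k] {n : ℕ}

/-- The polynomial ring. -/
abbrev SS (k : Type) [Field k] (n : ℕ) : Type := MvPolynomial (Fin n) k

/-- The monomial basis of the Koszul complex over the field. -/
noncomputable def mBasis (k : Type) [Field k] (n : ℕ) :
    Module.Basis ((Fin n →₀ ℕ) × Finset (Fin n)) k (Kos (SS k n) n) :=
  (basisMonomials (Fin n) k).smulTower (eBasis (SS k n) n)

lemma mBasis_apply (p : (Fin n →₀ ℕ) × Finset (Fin n)) :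
    mBasis k n p = (monomial p.1 (1 : k) : SS k n) • eBasis (SS k n) n p.2 := by
  simp [mBasis]

/-- The multidegree of a basis element. -/
noncomputable def mdeg (p : (Fin n →₀ ℕ) × Finset (Fin n)) : Fin n →₀ ℕ :=
  p.1 + ∑ i ∈ p.2, Finsupp.single i 1

lemma mdeg_apply (p : (Fin n →₀ ℕ) × Finset (Fin n)) (j : Fin n) :
    mdeg p j = p.1 j + if j ∈ p.2 then 1 else 0 := by
  simp [mdeg, Finsupp.finset_sum_apply, Finsupp.single_apply]

/-- The multihomogeneous part. -/
noncomputable def TT (k : Type) [Field k] {n : ℕ} (α : Fin n →₀ ℕ) : Submodule k (Kos (SS k n) n) :=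
  Submodule.span k (mBasis k n '' {p | mdeg p = α})

lemma kosD_mBasis (p : (Fin n →₀ ℕ) × Finset (Fin n)) :
    kosD X (mBasis k n p) ∈ TT k (mdeg p) := by
  rw [mBasis_apply, map_smul, eBasis_apply]
  have h1 := kosD_eList (X : Fin n → SS k n) p.2.sort (Finset.sort_nodup _ _)
  generalize kosD X (eList (SS k n) p.2.sort) = w at h1
  induction h1 using AddSubgroup.closure_induction with
  | mem w hw =>
    obtain ⟨i, hi, rfl⟩ := hw
    rw [Finset.mem_sort] at hi
    refine Submodule.subset_span ⟨(p.1 + Finsupp.single i 1, p.2.erase i), ?_, ?_⟩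
    · ext j
      simp only [mdeg_apply, Finsupp.add_apply, Finsupp.single_apply, Finset.mem_erase]
      by_cases h : i = j
      · subst h; simp [hi]
      · simp [h, Ne.symm h]
    · rw [mBasis_apply, eBasis_apply, sort_erase, smul_smul, monomial_add_single, pow_one]
  | zero => rw [smul_zero]; exact zero_mem _
  | add u v _ _ hu hv => rw [smul_add]; exact add_mem hu hv
  | neg u _ hu => rw [smul_neg]; exact neg_mem hu

/-- The homotopy attached to a choice of a variable in each multidegree. -/
noncomputable def hty (k : Type) [Field k] {n : ℕ} (j : (Fin n →₀ ℕ) → Fin n) :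
    Kos (SS k n) n →ₗ[k] Kos (SS k n) n :=
  (mBasis k n).constr k fun p => if j (mdeg p) ∈ p.2 then 0 else
    (monomial (p.1 - Finsupp.single (j (mdeg p)) 1) (1 : k) : SS k n) •
      (ee (SS k n) (j (mdeg p)) * eBasis (SS k n) n p.2)

lemma X_smul_hty (j : (Fin n →₀ ℕ) → Fin n) {α : Fin n →₀ ℕ} (hα : 0 < α (j α))
    {w : Kos (SS k n) n} (hw : w ∈ TT k α) :
    (X (j α) : SS k n) • hty k j w = ee (SS k n) (j α) * w := by
  induction hw using Submodule.span_induction with
  | mem w hw =>
    obtain ⟨p, hp, rfl⟩ := hw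
    have hp' : mdeg p = α := hp
    rw [hty, Module.Basis.constr_basis, hp', mBasis_apply, mul_smul_comm]
    split_ifs with h
    · rw [eBasis_apply, ee_mul_eList (by simpa using h), smul_zero, smul_zero]
    · rw [smul_smul]
      congr 1
      have h1 : 0 < p.1 (j α) := by
        have := mdeg_apply p (j α)
        rw [hp', if_neg h] at this
        omega
      rw [mul_comm, ← pow_one (X (j α)), ← monomial_add_single, tsub_add_cancel_of_le]
      rw [Finsupp.single_le_iff]
      exact h1
  | zero => simp
  | add u v _ _ hu hv => rw [map_add, smul_add, hu, hv, mul_add]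
  | smul c u _ hu => rw [map_smul, smul_comm, hu, mul_smul_comm]

lemma X_smul_inj (i : Fin n) {u v : Kos (SS k n) n} (h : (X i : SS k n) • u = (X i : SS k n) • v) :
    u = v := by
  apply (eBasis (SS k n) n).repr.injective
  ext F : 1
  have := congrArg (fun w => (eBasis (SS k n) n).repr w F) h
  simp only [map_smul, Finsupp.smul_apply, smul_eq_mul] at this
  exact mul_left_cancel₀ (X_ne_zero i) this

lemma kosD_smul_k (c : k) (w : Kos (SS k n) n) :
    kosD (X : Fin n → SS k n) (c • w) = c • kosD X w :=
  LinearMap.map_smul_of_tower _ c w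

lemma hty_identity (j : (Fin n →₀ ℕ) → Fin n) (hj : ∀ α : Fin n →₀ ℕ, α ≠ 0 → 0 < α (j α))
    (w : Kos (SS k n) n) : ∃ (y : Kos (SS k n) n) (r : SS k n),
      w = kosD X y + hty k j (kosD X w) + algebraMap _ _ r := by
  have hw : w ∈ Submodule.span k (Set.range (mBasis k n)) := by
    rw [(mBasis k n).span_eq]; trivial
  induction hw using Submodule.span_induction with
  | mem w hw =>
    obtain ⟨p, rfl⟩ := hw
    by_cases h : mdeg p = 0
    · have h2 : p.2 = ∅ := by
        ext i
        have := mdeg_apply p i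
        rw [h] at this
        simp only [Finsupp.coe_zero, Pi.zero_apply] at this
        simp only [Finset.notMem_empty, iff_false]
        intro hi
        rw [if_pos hi] at this
        omega
      refine ⟨0, monomial p.1 1, ?_⟩
      have e : mBasis k n p = algebraMap _ _ (monomial p.1 (1 : k) : SS k n) := by
        rw [mBasis_apply, h2, eBasis_apply]
        simp [eList, Algebra.algebraMap_eq_smul_one]
      rw [e, kosD_algebraMap]
      simp
    · refine ⟨hty k j (mBasis k n p), 0, ?_⟩
      rw [map_zero, add_zero]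
      apply X_smul_inj (j (mdeg p))
      have h1 : mBasis k n p ∈ TT k (mdeg p) := Submodule.subset_span ⟨p, rfl, rfl⟩
      rw [smul_add, ← map_smul (kosD X), X_smul_hty j (hj _ h) h1, X_smul_hty j (hj _ h) (kosD_mBasis p),
        kosD_ee_mul, sub_add_cancel]
  | zero => exact ⟨0, 0, by simp⟩
  | add u v _ _ hu hv =>
    obtain ⟨y, r, e⟩ := hu
    obtain ⟨y', r', e'⟩ := hv
    refine ⟨y + y', r + r', ?_⟩
    simp only [map_add]
    conv_lhs => rw [e, e']
    abel
  | smul c u _ hu =>
    obtain ⟨y, r, e⟩ := hu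
    refine ⟨c • y, c • r, ?_⟩
    rw [kosD_smul_k, kosD_smul_k, map_smul]
    conv_lhs => rw [e]
    simp only [smul_add, Algebra.algebraMap_eq_smul_one, smul_assoc]

lemma hty_mem (j : (Fin n →₀ ℕ) → Fin n) (I a : Ideal (SS k n))
    (h : ∀ f ∈ I, ∀ γ ∈ f.support, ∀ F : Finset (Fin n), j (mdeg (γ, F)) ∉ F →
      (monomial (γ - Finsupp.single (j (mdeg (γ, F))) 1) (1 : k) : SS k n) ∈ a)
    {w : Kos (SS k n) n} (hw : w ∈ I • (⊤ : Submodule (SS k n) (Kos (SS k n) n))) :
    hty k j w ∈ a • (⊤ : Submodule (SS k n) (Kos (SS k n) n)) := by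
  have key : ∀ f ∈ I, ∀ F, hty k j (f • eBasis (SS k n) n F) ∈
      a • (⊤ : Submodule (SS k n) (Kos (SS k n) n)) := by
    intro f hf F
    rw [f.as_sum, Finset.sum_smul, map_sum]
    refine Submodule.sum_mem _ fun γ hγ => ?_
    have e : (monomial γ (coeff γ f) : SS k n) • eBasis (SS k n) n F =
        coeff γ f • mBasis k n (γ, F) := by
      rw [mBasis_apply, ← smul_assoc, smul_monomial, smul_eq_mul, mul_one]
    rw [e, map_smul, hty, Module.Basis.constr_basis]
    apply Submodule.smul_of_tower_mem
    split_ifs with h'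
    · exact zero_mem _
    · exact Submodule.smul_mem_smul (h f hf γ hγ F h') trivial
  induction hw using Submodule.smul_induction_on' with
  | add _ _ _ _ h1 h2 => rw [map_add]; exact add_mem h1 h2
  | smul f hf w _ =>
    rw [← (eBasis (SS k n) n).sum_repr w, Finset.smul_sum, map_sum]
    refine Submodule.sum_mem _ fun F _ => ?_
    rw [smul_smul]
    exact key _ (I.mul_mem_right _ hf) F

/-- The reduction of the Koszul complex modulo an ideal. -/
noncomputable def red (I : Ideal (SS k n)) : Kos (SS k n) n →ₐ[SS k n] Kos (SS k n ⧸ I) n :=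
  ExteriorAlgebra.lift (SS k n)
    ⟨((ι (SS k n ⧸ I) : (Fin n → SS k n ⧸ I) →ₗ[SS k n ⧸ I] _).restrictScalars (SS k n)).comp
      ((Ideal.Quotient.mkₐ (SS k n) I).toLinearMap.compLeft (Fin n)), fun _ => ι_sq_zero _⟩

lemma red_ι (I : Ideal (SS k n)) (m : Fin n → SS k n) :
    red I (ι _ m) = ι _ fun i => Ideal.Quotient.mk I (m i) := by
  rw [red, lift_ι_apply]; rfl

lemma red_smul (I : Ideal (SS k n)) (s : SS k n) (w : Kos (SS k n) n) :
    red I (s • w) = Ideal.Quotient.mk I s • red I w := by
  rw [map_smul]; rfl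

lemma red_ee (I : Ideal (SS k n)) (i : Fin n) : red I (ee _ i) = ee _ i := by
  rw [ee, red_ι, ee]
  congr 1
  ext j
  by_cases h : j = i
  · subst h; simp
  · simp [h]

lemma red_eBasis (I : Ideal (SS k n)) (F : Finset (Fin n)) :
    red I (eBasis _ n F) = eBasis _ n F := by
  rw [eBasis_apply, eBasis_apply, eList, eList, map_list_prod, List.map_map]
  congr 1
  exact List.map_congr_left fun i _ => red_ee I i

lemma red_kosD (I : Ideal (SS k n)) (w : Kos (SS k n) n) :
    red I (kosD X w) = kosD (fun i => Ideal.Quotient.mk I (X i)) (red I w) := by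
  induction w using CliffordAlgebra.left_induction with
  | algebraMap r =>
    rw [kosD_algebraMap, map_zero, Algebra.algebraMap_eq_smul_one, red_smul, map_one, map_smul,
      kosD_one, smul_zero]
  | add u v hu hv => simp only [map_add, hu, hv]
  | ι_mul w m hw =>
    change red I (kosD X (ι _ m * w)) = kosD _ (red I (ι _ m * w))
    rw [kosD_ι_mul, map_sub, map_mul, map_mul, red_ι, kosD_ι_mul, hw, red_smul]
    congr 2
    simp [Fintype.linearCombination_apply]

lemma red_surjective (I : Ideal (SS k n)) : Function.Surjective (red I) := by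
  intro w
  choose c hc using fun F => Ideal.Quotient.mk_surjective ((eBasis (SS k n ⧸ I) n).repr w F)
  refine ⟨∑ F, c F • eBasis _ n F, ?_⟩
  simp only [map_sum, red_smul, red_eBasis, hc, Module.Basis.sum_repr]

lemma red_ker (I : Ideal (SS k n)) {w : Kos (SS k n) n} (h : red I w = 0) :
    w ∈ I • (⊤ : Submodule (SS k n) (Kos (SS k n) n)) := by
  rw [← (eBasis (SS k n) n).sum_repr w] at h ⊢
  simp only [map_sum, red_smul, red_eBasis] at h
  refine Submodule.sum_mem _ fun F _ => Submodule.smul_mem_smul ?_ trivial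
  rw [← Ideal.Quotient.eq_zero_iff_mem]
  exact Fintype.linearIndependent_iff.1 (eBasis (SS k n ⧸ I) n).linearIndependent _ h F

theorem golod_of_choice (j : (Fin n →₀ ℕ) → Fin n) (hj : ∀ α : Fin n →₀ ℕ, α ≠ 0 → 0 < α (j α))
    (I a : Ideal (SS k n)) (ha : a * a ≤ I)
    (h : ∀ f ∈ I, ∀ γ ∈ f.support, ∀ F : Finset (Fin n), j (mdeg (γ, F)) ∉ F →
      (monomial (γ - Finsupp.single (j (mdeg (γ, F))) 1) (1 : k) : SS k n) ∈ a) :
    IsGolod I := by
  apply massey_of_square_zero k _ (a.map (Ideal.Quotient.mk I))
  · rw [← Ideal.map_mul, eq_bot_iff, Ideal.map_le_iff_le_comap]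
    intro f hf
    rw [Ideal.mem_comap, Ideal.mem_bot, Ideal.Quotient.eq_zero_iff_mem]
    exact ha hf
  · intro z hz
    obtain ⟨z, rfl⟩ := red_surjective I z
    rw [← red_kosD] at hz
    obtain ⟨y, r, e⟩ := hty_identity j hj z
    refine ⟨red I y, red I (hty k j (kosD X z)), Ideal.Quotient.mk I r, ?_, ?_⟩
    · have := hty_mem j I a h (red_ker I hz)
      generalize hty k j (kosD X z) = w at this
      induction this using Submodule.smul_induction_on' with
      | add _ _ _ _ h1 h2 => rw [map_add]; exact add_mem h1 h2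
      | smul f hf w _ =>
        rw [red_smul]
        exact Submodule.smul_mem_smul (Ideal.mem_map_of_mem _ hf) trivial
    · conv_lhs => rw [e]
      rw [map_add, map_add, red_kosD, Algebra.algebraMap_eq_smul_one, red_smul, map_one,
        Algebra.algebraMap_eq_smul_one]

end Pool.Agent.Lib.MP_6756f0_al
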