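import Mathlib

namespace Pool.Agent.Lib.MP_6756f0_al.PDefs

open CategoryTheory

variable {R M : Type} [CommRing R] [AddCommGroup M] [Module R M]

/-- The value of a linear map with values in linear maps. -/
def app {A B C : Type} [AddCommMonoid A] [AddCommMonoid B] [AddCommMonoid C] [Module R A]
    [Module R B] [Module R C] (f : A →ₗ[R] B →ₗ[R] C) (a : A) : B →ₗ[R] C := f a

/-- The Koszul differential of a linear form `φ`: the antiderivation of the exterior algebra that
extends `φ`. -/
noncomputable def kosD (φ : Module.Dual R M) : ExteriorAlgebra R M →ₗ[R] ExteriorAlgebra R M :=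
  app CliffordAlgebra.contractLeft φ

/-- Koszul cycles of degree `i`. -/
noncomputable def cycles (φ : Module.Dual R M) (i : ℕ) : Submodule R (ExteriorAlgebra R M) :=
  ExteriorAlgebra.exteriorPower R i M ⊓ LinearMap.ker (kosD φ)

/-- Koszul boundaries of degree `i`. -/
noncomputable def boundaries (φ : Module.Dual R M) (i : ℕ) : Submodule R (ExteriorAlgebra R M) :=
  (ExteriorAlgebra.exteriorPower R (i + 1) M).map (kosD φ)

/-- The dimension over `k` of the quotient of `Z` by `B ∩ Z`. -/
noncomputable def quotDim (k : Type) [Field k] [Algebra k R] [Module k M] [IsScalarTower k R M]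
    (Z B : Submodule R M) : ℕ :=
  Module.finrank k (Z ⧸ B.submoduleOf Z)

/-- The dimension over `k` of the Koszul homology in degree `i`. -/
noncomputable def koszulDim (k : Type) [Field k] [Algebra k R] [Module k M] [IsScalarTower k R M]
    (φ : Module.Dual R M) (i : ℕ) : ℕ :=
  quotDim k (cycles φ i) (boundaries φ i)

/-- The linear form on `Rⁿ` sending `eᵢ` to `xᵢ`. -/
noncomputable def kosForm {n : ℕ} (x : Fin n → R) : Module.Dual R (Fin n → R) :=
  Fintype.linearCombination R x

/-- The dimension over `k` of the module `Tor` of `R/m` and `R/m` over `R` in degree `i`. -/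
noncomputable def torDim (k : Type) [Field k] [Algebra k R] (m : Ideal R) (i : ℕ) : ℕ :=
  Module.finrank k ((ModuleCat.restrictScalars (algebraMap k R)).obj
    (((Tor (ModuleCat.{0} R) i).obj (ModuleCat.of R (R ⧸ m))).obj (ModuleCat.of R (R ⧸ m))))

/-- Serre's inequality is an equality for a ring whose maximal ideal is minimally generated by the
elements `x`. -/
def SerreEquality (k : Type) [Field k] [Algebra k R] {n : ℕ} (x : Fin n → R) : Prop :=
  (PowerSeries.mk fun i => (torDim k (Ideal.span (Set.range x)) i : ℚ)) =
    (1 + PowerSeries.X) ^ n *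
      (1 - PowerSeries.X ^ 2 * PowerSeries.mk fun i => (koszulDim k (kosForm x) (i + 1) : ℚ))⁻¹

/-- An ideal (inside the square of the irrelevant ideal) is Golod if Serre's inequality is an
equality for the quotient ring and the images of the variables. -/
def IsGolod {k : Type} [Field k] {n : ℕ} (I : Ideal (MvPolynomial (Fin n) k)) : Prop :=
  SerreEquality k fun i => Ideal.Quotient.mk I (MvPolynomial.X i)

/-- The irrelevant ideal, generated by the variables. -/
noncomputable def irr (k : Type) [Field k] (n : ℕ) : Ideal (MvPolynomial (Fin n) k) :=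
  Ideal.span (Set.range MvPolynomial.X)

/-- The ideal generated by the fourth powers of the variables. -/
noncomputable def fourth (k : Type) [Field k] (n : ℕ) : Ideal (MvPolynomial (Fin n) k) :=
  Ideal.span (Set.range fun i => MvPolynomial.X i ^ 4)

/-- A proper ideal that is homogeneous for the standard grading and lies in the square of the
irrelevant ideal. -/
def IsAdmissible {k : Type} [Field k] {n : ℕ} (I : Ideal (MvPolynomial (Fin n) k)) : Prop :=
  I ≠ ⊤ ∧ (∀ f ∈ I, ∀ d, MvPolynomial.homogeneousComponent d f ∈ I) ∧ I ≤ irr k n ^ 2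

end Pool.Agent.Lib.MP_6756f0_al.PDefs
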