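import Mathlib

/-! Dimension counts in a short exact sequence of complexes of vector spaces. -/

namespace Pool.Agent.Lib.MP_6756f0_al

open Module Submodule

variable {k : Type} [Field k] {A B C : Type} [AddCommGroup A] [Module k A] [AddCommGroup B]
  [Module k B] [AddCommGroup C] [Module k C]

lemma finrank_map_add_inf_ker [Module.Finite k A] (φ : A →ₗ[k] B) (P : Submodule k A) :
    finrank k (P.map φ) + finrank k (P ⊓ LinearMap.ker φ : Submodule k A) = finrank k P := by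
  have h := LinearMap.finrank_range_add_finrank_ker (φ.domRestrict P)
  rw [LinearMap.range_domRestrict, LinearMap.ker_domRestrict] at h
  rw [← h, ← Submodule.finrank_map_subtype_eq P, Submodule.map_comap_subtype]

lemma finrank_map_inj (φ : A →ₗ[k] B) (h : Function.Injective φ) (P : Submodule k A) :
    finrank k (P.map φ) = finrank k P :=
  (Submodule.equivMapOfInjective φ h P).finrank_eq.symm

lemma dim_iso [Module.Finite k B] (g : B →ₗ[k] C) {P Q : Submodule k B} (hQP : Q ≤ P)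
    (h : P ⊓ LinearMap.ker g ≤ Q) :
    finrank k P + finrank k (Q.map g) = finrank k Q + finrank k (P.map g) := by
  have h1 := finrank_map_add_inf_ker g P
  have h2 := finrank_map_add_inf_ker g Q
  have h3 : P ⊓ LinearMap.ker g = Q ⊓ LinearMap.ker g :=
    le_antisymm (le_inf h inf_le_right) (inf_le_inf_right _ hQP)
  rw [h3] at h1
  omega

/-- The dimension count along `H_{i+1}(B) → H_{i+1}(C) → H_i(A) → H_i(B)`. -/
lemma dim_les [Module.Finite k A] [Module.Finite k B] [Module.Finite k C]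
    (f : A →ₗ[k] B) (g : B →ₗ[k] C) (dA : A →ₗ[k] A) (dB : B →ₗ[k] B) (dC : C →ₗ[k] C)
    (hf : Function.Injective f) (hfg : Function.Exact f g)
    (hdf : ∀ a, dB (f a) = f (dA a)) (hdg : ∀ b, dC (g b) = g (dB b)) (hdd : ∀ b, dB (dB b) = 0)
    (A0 A1 : Submodule k A) (B0 B1 T : Submodule k B) (C1 : Submodule k C)
    (h0 : ∀ a, f a ∈ B0 → a ∈ A0) (h1 : ∀ a, f a ∈ B1 ↔ a ∈ A1) (hg : B1.map g = C1)
    (hd : B1.map dB ≤ B0) (hT1 : B1.map dB ≤ T) (hT2 : (A0 ⊓ LinearMap.ker dA).map f ≤ T) :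
    finrank k (A0 ⊓ LinearMap.ker dA : Submodule k A) + finrank k (B1.map dB) +
        finrank k ((B1 ⊓ LinearMap.ker dB).map g) ≤
      finrank k (A1.map dA) + finrank k T + finrank k (C1 ⊓ LinearMap.ker dC : Submodule k C) := by
  let U : Submodule k B := B1 ⊓ (LinearMap.range f).comap dB
  have s1 := Submodule.finrank_sup_add_finrank_inf_eq ((A0 ⊓ LinearMap.ker dA).map f) (B1.map dB)
  have s2 : finrank k ((A0 ⊓ LinearMap.ker dA).map f ⊔ B1.map dB : Submodule k B) ≤ finrank k T :=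
    Submodule.finrank_mono (sup_le hT2 hT1)
  have s3 := finrank_map_inj f hf (A0 ⊓ LinearMap.ker dA)
  have e1 : U.map dB = (A0 ⊓ LinearMap.ker dA).map f ⊓ B1.map dB := by
    apply le_antisymm
    · rintro _ ⟨b, ⟨hb, a, ha⟩, rfl⟩
      refine ⟨⟨a, ⟨h0 a (by rw [ha]; exact hd ⟨b, hb, rfl⟩), ?_⟩, ha⟩, b, hb, rfl⟩
      apply hf
      rw [← hdf, ha, hdd, map_zero]
    · rintro _ ⟨⟨a, -, ha⟩, b, hb, rfl⟩
      exact ⟨b, ⟨hb, a, ha⟩, rfl⟩
  have e2 : U ⊓ LinearMap.ker dB = B1 ⊓ LinearMap.ker dB := by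
    apply le_antisymm (inf_le_inf_right _ inf_le_left)
    rintro b ⟨hb, hb0⟩
    exact ⟨⟨hb, 0, by rw [map_zero]; exact (LinearMap.mem_ker.1 hb0).symm⟩, hb0⟩
  have e3 : U.map g ≤ C1 ⊓ LinearMap.ker dC := by
    rintro _ ⟨b, ⟨hb, a, ha⟩, rfl⟩
    refine ⟨hg ▸ ⟨b, hb, rfl⟩, ?_⟩
    change dC (g b) = 0
    rw [hdg, ← ha, hfg.apply_apply_eq_zero]
  have e4 : U ⊓ LinearMap.ker g = A1.map f := by
    apply le_antisymm
    · rintro b ⟨⟨hb, -⟩, hb0⟩
      obtain ⟨a, rfl⟩ := (hfg b).1 hb0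
      exact ⟨a, (h1 a).1 hb, rfl⟩
    · rintro _ ⟨a, ha, rfl⟩
      exact ⟨⟨(h1 a).2 ha, dA a, (hdf a).symm⟩, hfg.apply_apply_eq_zero a⟩
  have e5 : B1 ⊓ LinearMap.ker dB ⊓ LinearMap.ker g = (A1 ⊓ LinearMap.ker dA).map f := by
    apply le_antisymm
    · rintro b ⟨⟨hb, hb1⟩, hb0⟩
      obtain ⟨a, rfl⟩ := (hfg b).1 hb0
      refine ⟨a, ⟨(h1 a).1 hb, ?_⟩, rfl⟩
      apply hf
      rw [← hdf, map_zero]
      exact hb1
    · rintro _ ⟨a, ⟨ha, ha0⟩, rfl⟩
      refine ⟨⟨(h1 a).2 ha, ?_⟩, hfg.apply_apply_eq_zero a⟩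
      change dB (f a) = 0
      rw [hdf, show dA a = 0 from ha0, map_zero]
  have t1 := finrank_map_add_inf_ker dB U
  have t2 := finrank_map_add_inf_ker g U
  have t3 := finrank_map_add_inf_ker dA A1
  have t4 := finrank_map_add_inf_ker g (B1 ⊓ LinearMap.ker dB)
  have t5 := Submodule.finrank_mono e3
  rw [e1, e2] at t1
  rw [e4, finrank_map_inj f hf] at t2
  rw [e5, finrank_map_inj f hf] at t4
  omega

end Pool.Agent.Lib.MP_6756f0_al
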