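import Pool.Agent.Lib.MP_6756f0_al.PProd
import Pool.Agent.Lib.MP_6756f0_al.Example

/-! The example in terms of Poincare series. -/

namespace Pool.Agent.Lib.MP_6756f0_al

open ExteriorAlgebra MvPolynomial

variable {k : Type} [Field k] {n : ℕ}

lemma quot_finite (I : Ideal (SS k n)) (N : ℕ) (hN : ∀ i, (X i : SS k n) ^ N ∈ I) :
    Module.Finite k (SS k n ⧸ I) := by
  have : Algebra.IsIntegral k (SS k n ⧸ I) := ⟨fun r => by
    obtain ⟨f, rfl⟩ := Ideal.Quotient.mk_surjective r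
    induction f using MvPolynomial.induction_on with
    | C a => exact isIntegral_algebraMap (x := a)
    | add p q hp hq => rw [map_add]; exact hp.add hq
    | mul_X p i hp =>
      rw [map_mul]
      refine hp.mul (IsIntegral.of_pow (n := N + 1) (by omega) ?_)
      rw [← map_pow, Ideal.Quotient.eq_zero_iff_mem.2 (by
        rw [pow_succ]; exact I.mul_mem_right _ (hN i))]
      exact isIntegral_zero⟩
  exact Algebra.IsIntegral.finite

lemma quot_res (I : Ideal (SS k n)) (r : SS k n ⧸ I) : ∃ c : k, r - algebraMap k _ c ∈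
    Ideal.span (Set.range fun i => Ideal.Quotient.mk I (X i)) := by
  obtain ⟨f, rfl⟩ := Ideal.Quotient.mk_surjective r
  induction f using MvPolynomial.induction_on with
  | C a => exact ⟨a, by
      rw [show algebraMap k (SS k n ⧸ I) a = Ideal.Quotient.mk I (C a) from rfl, sub_self]
      exact zero_mem _⟩
  | add p q hp hq =>
    obtain ⟨a, ha⟩ := hp
    obtain ⟨b, hb⟩ := hq
    exact ⟨a + b, by
      rw [map_add, map_add, add_sub_add_comm]
      exact add_mem ha hb⟩
  | mul_X p i _ =>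
    exact ⟨0, by
      rw [map_zero, sub_zero, map_mul]
      exact Ideal.mul_mem_left _ _ (Ideal.subset_span ⟨i, rfl⟩)⟩

lemma quot_jac (I : Ideal (SS k n)) (N : ℕ) (hN : ∀ i, (X i : SS k n) ^ N ∈ I) :
    Ideal.span (Set.range fun i => Ideal.Quotient.mk I (X i)) ≤ Ideal.jacobson ⊥ := by
  refine le_trans (Ideal.span_le.2 ?_) Ideal.radical_le_jacobson
  rintro _ ⟨i, rfl⟩
  exact ⟨N, by rw [← map_pow, Ideal.mem_bot]; exact Ideal.Quotient.eq_zero_iff_mem.2 (hN i)⟩

lemma quot_ne_top (I : Ideal (SS k n)) (hI : I ≠ ⊤) (N : ℕ) (hN : ∀ i, (X i : SS k n) ^ N ∈ I) :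
    Ideal.span (Set.range fun i => Ideal.Quotient.mk I (X i)) ≠ ⊤ := by
  have : Nontrivial (SS k n ⧸ I) := Ideal.Quotient.nontrivial_iff.2 hI
  intro h
  have h1 := quot_jac I N hN
  rw [h, top_le_iff, Ideal.jacobson_eq_top_iff] at h1
  exact bot_ne_top h1

theorem serre_of_choice (j : (Fin n →₀ ℕ) → Fin n) (hj : ∀ α : Fin n →₀ ℕ, α ≠ 0 → 0 < α (j α))
    (I a : Ideal (SS k n)) (N : ℕ) (hI : I ≠ ⊤) (hN : ∀ i, (X i : SS k n) ^ N ∈ I)
    (ham : a ≤ Ideal.span (Set.range X)) (ha : a * a ≤ I)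
    (h : ∀ f ∈ I, ∀ γ ∈ f.support, ∀ F : Finset (Fin n), j (mdeg (γ, F)) ∉ F →
      (monomial (γ - Finsupp.single (j (mdeg (γ, F))) 1) (1 : k) : SS k n) ∈ a) :
    PDefs.IsGolod I := by
  have := quot_finite I N hN
  refine serre_of_square_zero k _ (quot_ne_top I hI N hN) (quot_res I)
    (a.map (Ideal.Quotient.mk I)) ?_ ?_ ?_
  · rw [← Ideal.map_mul, eq_bot_iff, Ideal.map_le_iff_le_comap]
    intro f hf
    rw [Ideal.mem_comap, Ideal.mem_bot, Ideal.Quotient.eq_zero_iff_mem]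
    exact ha hf
  · refine (Ideal.map_mono ham).trans ?_
    rw [Ideal.map_span, ← Set.range_comp]
    exact le_rfl
  · intro z hz
    obtain ⟨z, rfl⟩ := red_surjective I z
    rw [← red_kosD] at hz
    obtain ⟨y, r, e⟩ := hty_identity j hj z
    refine ⟨red I y, red I (hty k j (kosD X z)), Ideal.Quotient.mk I r, ?_, ?_⟩
    · have := hty_mem j I a h (red_ker I hz)
      generalize hty k j (kosD X z) = w at this
      induction this using Submodule.smul_induction_on' with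
      | add _ _ _ _ h1 h2 => rw [map_add]; exact add_mem h1 h2
      | smul f hf w _ =>
        rw [red_smul]
        exact Submodule.smul_mem_smul (Ideal.mem_map_of_mem _ hf) trivial
    · conv_lhs => rw [e]
      rw [map_add, map_add, red_kosD, Algebra.algebraMap_eq_smul_one, red_smul, map_one,
        Algebra.algebraMap_eq_smul_one]

lemma mm_sq_ne_top : mm k ^ 2 ≠ ⊤ := by
  rw [Ideal.ne_top_iff_one, ← C_1, C_mem_pow_idealOfVars_iff]
  simp

lemma I1_le : mm k * CC k ⊔ mm k ^ 12 ≤ mm k ^ 2 :=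
  sup_le (by rw [pow_two]; exact Ideal.mul_mono_right CC_le')
    (Ideal.pow_le_pow_right (by norm_num))

lemma I1_ne_top : mm k * CC k ⊔ mm k ^ 12 ≠ ⊤ := ne_top_of_le_ne_top mm_sq_ne_top I1_le

theorem serre_I1 : PDefs.IsGolod (mm k * CC k ⊔ mm k ^ 12) := by
  refine serre_of_choice jj jj_pos _ (CC k ⊔ mm k ^ 6) 12 I1_ne_top
    (fun i => Ideal.mem_sup_right (Ideal.pow_mem_pow (X_mem i) 12))
    (sup_le CC_le' (Ideal.pow_le_self (by norm_num))) ?_ ?_
  · rw [Ideal.mul_sup, Ideal.sup_mul, Ideal.sup_mul, ← pow_add]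
    refine sup_le (sup_le ?_ ?_) (sup_le ?_ le_sup_right)
    · exact le_sup_of_le_left (Ideal.mul_mono_left CC_le')
    · exact le_sup_of_le_left (Ideal.mul_mono_left (Ideal.pow_le_self (by norm_num)))
    · rw [mul_comm]
      exact le_sup_of_le_left (Ideal.mul_mono_left (Ideal.pow_le_self (by norm_num)))
  · intro f hf γ hγ F hF
    have key : (∃ i, 4 ≤ (γ - Finsupp.single (jj (mdeg (γ, F))) 1 : Fin 4 →₀ ℕ) i) ∨
        6 ≤ Finsupp.degree (γ - Finsupp.single (jj (mdeg (γ, F))) 1 : Fin 4 →₀ ℕ) := by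
      have h4 := jj_four (mdeg (γ, F))
      have hj := mdeg_apply (γ, F) (jj (mdeg (γ, F)))
      rw [if_neg hF] at hj
      have hm : ∀ i, γ i ≤ mdeg (γ, F) i ∧ mdeg (γ, F) i ≤ γ i + 1 := by
        intro i; rw [mdeg_apply]; split_ifs <;> simp
      have hs := supp_I1 f hf γ hγ
      generalize jj (mdeg (γ, F)) = j at h4 hj
      generalize mdeg (γ, F) = α at h4 hj hm
      have m0 := hm 0
      have m1 := hm 1
      have m2 := hm 2
      have m3 := hm 3
      simp only [deg4, Finsupp.tsub_apply, Finsupp.single_apply, Fin.exists_fin_succ,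
        IsEmpty.exists_iff, or_false, Fin.forall_fin_succ, IsEmpty.forall_iff, and_true,
        Fin.succ_zero_eq_one, Fin.succ_one_eq_two, Fin.reduceSucc] at h4 hs hj ⊢
      fin_cases j <;> simp at h4 hj ⊢ <;> omega
    rcases key with ⟨i, hi⟩ | h
    · refine Ideal.mem_sup_left ((mem_CC _).2 fun δ hδ => ?_)
      rw [supp_monomial hδ]; exact ⟨i, hi⟩
    · exact Ideal.mem_sup_right ((monomial_mem_pow_idealOfVars_iff 6 _ one_ne_zero).2 h)

theorem serre_I2 : PDefs.IsGolod (mm k ^ 2) := by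
  refine serre_of_choice jj jj_pos _ (mm k) 2 mm_sq_ne_top
    (fun i => Ideal.pow_mem_pow (X_mem i) 2) le_rfl (by rw [pow_two]) ?_
  intro f hf γ hγ F _
  have h := (mem_mm_pow 2 f).1 hf γ hγ
  rw [← pow_one (mm k), mem_mm_pow]
  intro δ hδ
  rw [supp_monomial hδ]
  generalize jj (mdeg (γ, F)) = j
  simp only [Finsupp.tsub_apply, Finsupp.single_apply]
  fin_cases j <;> simp <;> omega

lemma not_serre_of_colon {R : Type} [CommRing R] [Algebra k R] [Module.Finite k R] (x : Fin 4 → R)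
    (hm : Ideal.span (Set.range x) ≠ ⊤) (hJ : Ideal.span (Set.range x) ≤ Ideal.jacobson ⊥)
    (hk : ∀ r : R, ∃ c : k, r - algebraMap k R c ∈ Ideal.span (Set.range x)) {f g : R}
    (hg : g ∈ Ideal.span (Set.range x))
    (h0 : f * x 0 = 0) (h1 : f * x 1 = 0) (h2 : g * x 2 = 0) (h3 : g * x 3 = 0) (h : f * g ≠ 0) :
    ¬ PDefs.SerreEquality k x := by
  refine not_serre_of_product k _ hm hJ hk (cycle_mem x 0 1 h0 h1) (cycle_mem x 2 3 h2 h3)
    (Submodule.smul_mem_smul hg trivial) ?_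
  have e : ee R (0 : Fin 4) * ee R 1 * (ee R 2 * ee R 3) = eBasis R 4 Finset.univ := by
    rw [eBasis_apply, Fin.sort_univ]
    simp [eList, List.finRange, mul_assoc]
  rw [smul_mul_smul_comm, e]
  intro h'
  have h4 := congrArg (fun w => (eBasis R 4).repr w Finset.univ) h'
  simp only [map_smul, Module.Basis.repr_self, Finsupp.smul_apply, Finsupp.single_eq_same,
    smul_eq_mul, mul_one, map_zero, Finsupp.coe_zero, Pi.zero_apply] at h4
  exact h h4

theorem not_serre_J : ¬ PDefs.IsGolod ((mm k * CC k ⊔ mm k ^ 12) * mm k ^ 2) := by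
  have hN : ∀ i, (X i : SS k 4) ^ 7 ∈ (mm k * CC k ⊔ mm k ^ 12) * mm k ^ 2 := fun i => by
    have := mem_J (k := k) i i
    rwa [← pow_add] at this
  have := quot_finite _ 7 hN
  refine not_serre_of_colon _
    (quot_ne_top _ (ne_top_of_le_ne_top mm_sq_ne_top Ideal.mul_le_right) 7 hN) (quot_jac _ 7 hN)
    (quot_res _) (f := Ideal.Quotient.mk _ (X 0 ^ 3 * X 1 ^ 3))
    (g := Ideal.Quotient.mk _ (X 2 ^ 3 * X 3 ^ 3)) (by
      rw [map_mul, map_pow]
      refine Ideal.mul_mem_right _ _ (Ideal.pow_mem_of_mem _ ?_ 3 (by norm_num))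
      exact Ideal.subset_span ⟨2, rfl⟩) (kill 0 1) (by rw [mul_comm (X 0 ^ 3)]; exact kill 1 0)
    (kill 2 3) (by rw [mul_comm (X 2 ^ 3)]; exact kill 3 2) ?_
  intro h1
  rw [← map_mul, Ideal.Quotient.eq_zero_iff_mem] at h1
  have h2 := supp_mul (T := fun γ => (∃ i, 4 ≤ γ i) ∨ 14 ≤ γ 0 + γ 1 + γ 2 + γ 3)
    (supp_I1 (k := k)) (fun f hf => (mem_mm_pow 2 f).1 hf) (by
      rintro γ δ (⟨⟨i, hi⟩, -⟩ | h) h'
      · exact Or.inl ⟨i, by rw [Finsupp.add_apply]; omega⟩
      · right; simp only [Finsupp.add_apply]; omega) _ h1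
    (Finsupp.single 0 3 + Finsupp.single 1 3 + (Finsupp.single 2 3 + Finsupp.single 3 3)) (by
      simp only [X_pow_eq_monomial, monomial_mul, mul_one]
      rw [mem_support_iff, coeff_monomial, if_pos rfl]
      exact one_ne_zero)
  rcases h2 with ⟨i, hi⟩ | h2
  · fin_cases i <;> simp at hi
  · simp at h2

end Pool.Agent.Lib.MP_6756f0_al
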