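import Mathlib

/-! Serre's equality as a recursion for the Betti numbers. -/

namespace Pool.Agent.Lib.MP_6756f0_al

open PowerSeries

lemma serre_iff (P C : ℚ⟦X⟧) (n : ℕ) :
    P = (1 + X) ^ n * (1 - X ^ 2 * C)⁻¹ ↔ P = (1 + X) ^ n + X ^ 2 * C * P := by
  rw [PowerSeries.eq_mul_inv_iff_mul_eq (by simp)]
  constructor
  · intro h
    rw [← h]; ring
  · intro h
    linear_combination h

lemma coeff_one_add_X_pow' (n m : ℕ) : coeff m ((1 + X : ℚ⟦X⟧) ^ n) = n.choose m := by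
  have : ((1 + X : ℚ⟦X⟧) ^ n) = (((1 + Polynomial.X : Polynomial ℚ) ^ n : Polynomial ℚ) : ℚ⟦X⟧) := by
    simp
  rw [this, Polynomial.coeff_coe, Polynomial.coeff_one_add_X_pow]

lemma serre_of_rec {B : Type} [Fintype B] (dg : B → ℕ) (β c : ℕ → ℕ) (n : ℕ)
    (hc : ∀ i, c i = (Finset.univ.filter fun h => dg h = i).card)
    (hβ : ∀ m, β m = n.choose m + ∑ h, if dg h + 2 ≤ m then β (m - (dg h + 2)) else 0) :
    (PowerSeries.mk fun i => (β i : ℚ)) =
      (1 + X) ^ n * (1 - X ^ 2 * PowerSeries.mk fun i => (c i : ℚ))⁻¹ := by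
  rw [serre_iff]
  have hC : (PowerSeries.mk fun i => (c i : ℚ)) = ∑ h, X ^ dg h := by
    ext i
    simp only [coeff_mk, map_sum, coeff_X_pow, hc, Finset.card_filter]
    push_cast
    exact Finset.sum_congr rfl fun h _ => by simp [eq_comm]
  rw [hC, Finset.mul_sum, Finset.sum_mul]
  ext m
  rw [map_add, coeff_one_add_X_pow', map_sum, coeff_mk, hβ m]
  push_cast
  congr 1
  refine Finset.sum_congr rfl fun h _ => ?_
  rw [← pow_add, coeff_X_pow_mul', add_comm 2]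
  simp

lemma five_of_serre (β c : ℕ → ℕ) (n : ℕ)
    (h : (PowerSeries.mk fun i => (β i : ℚ)) =
      (1 + X) ^ n * (1 - X ^ 2 * PowerSeries.mk fun i => (c i : ℚ))⁻¹) :
    β 5 = n.choose 5 + (c 0 * β 3 + c 1 * β 2 + c 2 * β 1 + c 3 * β 0) := by
  rw [serre_iff] at h
  have h5 := congrArg (coeff 5) h
  rw [map_add, coeff_one_add_X_pow', mul_assoc, coeff_X_pow_mul', coeff_mul] at h5
  simp [Finset.Nat.antidiagonal_succ] at h5
  have : (β 5 : ℚ) = ((n.choose 5 + (c 0 * β 3 + c 1 * β 2 + c 2 * β 1 + c 3 * β 0) : ℕ) : ℚ) := by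
    push_cast
    linarith
  exact_mod_cast this

end Pool.Agent.Lib.MP_6756f0_al
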