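import Pool.Agent.Lib.MP_6756f0_al.PDefs

/-! Explicit projective resolutions, and `Tor` computed from a minimal one. -/

namespace Pool.Agent.Lib.MP_6756f0_al

open CategoryTheory TensorProduct

/-- An explicit projective resolution of a module. -/
structure Res (R : Type) [CommRing R] (M : Type) [AddCommGroup M] [Module R M] where
  X : ℕ → ModuleCat.{0} R
  d : ∀ n, X (n + 1) →ₗ[R] X n
  ε : X 0 →ₗ[R] M
  proj : ∀ n, Module.Projective R (X n)
  surj : Function.Surjective ε
  exact0 : Function.Exact (d 0) ε
  exact : ∀ n, Function.Exact (d (n + 1)) (d n)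

variable {R : Type} [CommRing R] {M : Type} [AddCommGroup M] [Module R M]

namespace Res

/-- The chain complex of a resolution. -/
noncomputable def cplx (F : Res R M) : ChainComplex (ModuleCat.{0} R) ℕ :=
  ChainComplex.of F.X (fun n => ModuleCat.ofHom (F.d n)) (fun n => by
    ext x
    exact (F.exact n).apply_apply_eq_zero x)

lemma cplx_d (F : Res R M) (n : ℕ) : F.cplx.d (n + 1) n = ModuleCat.ofHom (F.d n) :=
  ChainComplex.of_d F.X (fun n => ModuleCat.ofHom (F.d n)) n

/-- The augmentation. -/
noncomputable def aug (F : Res R M) :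
    F.cplx ⟶ (ChainComplex.single₀ (ModuleCat.{0} R)).obj (ModuleCat.of R M) :=
  (ChainComplex.toSingle₀Equiv _ _).symm ⟨ModuleCat.ofHom F.ε, by
    rw [show F.cplx.d 1 0 = ModuleCat.ofHom (F.d 0) from F.cplx_d 0]
    ext x
    exact F.exact0.apply_apply_eq_zero x⟩

set_option backward.isDefEq.respectTransparency false in
lemma aug_quasiIso (F : Res R M) : QuasiIso F.aug where
  quasiIsoAt m := by
    induction m with
    | zero =>
      rw [ChainComplex.quasiIsoAt₀_iff, ShortComplex.quasiIso_iff_of_zeros' _ rfl rfl rfl]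
      have h0 : F.aug.f 0 = ModuleCat.ofHom F.ε := ChainComplex.toSingle₀Equiv_symm_apply_f_zero _ _
      constructor
      · rw [ShortComplex.moduleCat_exact_iff]
        intro x hx
        have hx' : F.ε x = 0 := by
          have : (F.aug.f 0) x = 0 := hx
          rw [h0] at this
          exact this
        obtain ⟨y, hy⟩ := (F.exact0 x).1 hx'
        refine ⟨y, ?_⟩
        change (F.cplx.d 1 0) y = x
        rw [show F.cplx.d 1 0 = ModuleCat.ofHom (F.d 0) from F.cplx_d 0]
        exact hy
      · change Epi (F.aug.f 0)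
        rw [h0, ModuleCat.epi_iff_surjective]
        exact F.surj
    | succ m _ =>
      rw [quasiIsoAt_iff_exactAt' (hL := ChainComplex.exactAt_succ_single_obj ..),
          HomologicalComplex.exactAt_iff' _ (m + 2) (m + 1) m (by simp) (by simp),
          ShortComplex.moduleCat_exact_iff]
      intro x hx
      have hx' : F.d m x = 0 := by
        have : (F.cplx.d (m + 1) m) x = 0 := hx
        rw [F.cplx_d m] at this
        exact this
      obtain ⟨y, hy⟩ := (F.exact m x).1 hx'
      refine ⟨y, ?_⟩
      change (F.cplx.d (m + 1 + 1) (m + 1)) y = x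
      rw [F.cplx_d (m + 1)]
      exact hy

/-- The Mathlib projective resolution attached to a resolution. -/
noncomputable def toPR (F : Res R M) : ProjectiveResolution (ModuleCat.of R M) where
  complex := F.cplx
  projective n := by
    have := F.proj n
    exact inferInstanceAs (Projective (F.X n))
  π := F.aug
  quasiIso := F.aug_quasiIso

set_option backward.isDefEq.respectTransparency false in
/-- If all differentials vanish after tensoring with `N`, then `Tor_n(N, M) = N ⊗ F_n`. -/
theorem tor_equiv (F : Res R M) (N : Type) [AddCommGroup N] [Module R N]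
    (h : ∀ n, (F.d n).lTensor N = 0) (n : ℕ) :
    Nonempty ((((Tor (ModuleCat.{0} R) n).obj (ModuleCat.of R N)).obj (ModuleCat.of R M)) ≃ₗ[R]
      (N ⊗[R] F.X n)) := by
  let T := (MonoidalCategory.tensoringLeft (ModuleCat.{0} R)).obj (ModuleCat.of R N)
  let K := (T.mapHomologicalComplex (ComplexShape.down ℕ)).obj F.cplx
  have hd : ∀ i j, K.d i j = 0 := by
    intro i j
    by_cases hij : (ComplexShape.down ℕ).Rel i j
    · have : i = j + 1 := hij.symm
      subst this
      apply ModuleCat.hom_ext
      change (T.map (F.cplx.d (j + 1) j)).hom = 0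
      rw [F.cplx_d j]
      exact h j
    · exact K.shape i j hij
  let S := K.sc n
  let e : ((Tor (ModuleCat.{0} R) n).obj (ModuleCat.of R N)).obj (ModuleCat.of R M) ≅ S.X₂ :=
    F.toPR.isoLeftDerivedObj T n ≪≫
      (ShortComplex.LeftHomologyData.ofZeros S (hd _ _) (hd _ _)).homologyIso
  exact ⟨e.toLinearEquiv⟩

end Res

lemma lTensor_eq_zero_of_le (m : Ideal R) {A B : Type} [AddCommGroup A] [Module R A]
    [AddCommGroup B] [Module R B] (f : A →ₗ[R] B)
    (h : LinearMap.range f ≤ m • (⊤ : Submodule R B)) : f.lTensor (R ⧸ m) = 0 := by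
  apply TensorProduct.ext'
  intro a y
  have key : ∀ b ∈ m • (⊤ : Submodule R B), a ⊗ₜ[R] b = (0 : (R ⧸ m) ⊗[R] B) := by
    intro b hb
    refine Submodule.smul_induction_on hb ?_ ?_
    · intro r hr c _
      rw [← TensorProduct.smul_tmul]
      have : r • a = 0 := by
        obtain ⟨s, rfl⟩ := Ideal.Quotient.mk_surjective a
        rw [Algebra.smul_def, Ideal.Quotient.algebraMap_eq, ← map_mul,
          Ideal.Quotient.eq_zero_iff_mem]
        exact m.mul_mem_right _ hr
      rw [this, TensorProduct.zero_tmul]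
    · intro u v hu hv
      rw [TensorProduct.tmul_add, hu, hv, add_zero]
  simpa using key _ (h (LinearMap.mem_range_self f y))

variable (k : Type) [Field k] [Algebra k R]

lemma finrank_residue (m : Ideal R) (hm : m ≠ ⊤) (hk : ∀ r : R, ∃ c : k, r - algebraMap k R c ∈ m) :
    Module.finrank k (R ⧸ m) = 1 := by
  have : Nontrivial (R ⧸ m) := Ideal.Quotient.nontrivial_iff.2 hm
  have hb : Function.Bijective (algebraMap k (R ⧸ m)) := by
    refine ⟨(algebraMap k (R ⧸ m)).injective, fun y => ?_⟩
    obtain ⟨r, rfl⟩ := Ideal.Quotient.mk_surjective y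
    obtain ⟨c, hc⟩ := hk r
    exact ⟨c, (Ideal.Quotient.eq.2 hc).symm⟩
  have e : k ≃ₗ[k] (R ⧸ m) := LinearEquiv.ofBijective (Algebra.linearMap k (R ⧸ m)) hb
  rw [← e.finrank_eq, Module.finrank_self]

set_option backward.isDefEq.respectTransparency false in
/-- The Betti numbers of the residue field are the ranks in a minimal free resolution. -/
theorem torDim_eq (m : Ideal R) (hm : m ≠ ⊤) (hk : ∀ r : R, ∃ c : k, r - algebraMap k R c ∈ m)
    (F : Res R (R ⧸ m)) (hmin : ∀ n, LinearMap.range (F.d n) ≤ m • ⊤) (n r : ℕ)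
    (e : F.X n ≃ₗ[R] (Fin r → R)) : PDefs.torDim k m n = r := by
  obtain ⟨e1⟩ := F.tor_equiv (R ⧸ m) (fun n => lTensor_eq_zero_of_le m _ (hmin n)) n
  let e2 : ((R ⧸ m) ⊗[R] F.X n) ≃ₗ[R] (Fin r → R ⧸ m) :=
    (LinearEquiv.lTensor (R ⧸ m) e).trans (TensorProduct.piScalarRight R R (R ⧸ m) (Fin r))
  let e3 := e1.trans e2
  let e4 : ((ModuleCat.restrictScalars (algebraMap k R)).obj
      (((Tor (ModuleCat.{0} R) n).obj (ModuleCat.of R (R ⧸ m))).obj (ModuleCat.of R (R ⧸ m))))
      ≃ₗ[k] (Fin r → R ⧸ m) :=
    { toFun := fun y => e3 y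
      invFun := fun y => e3.symm y
      map_add' := fun a b => e3.map_add a b
      map_smul' := fun c a => by
        have := e3.map_smul (algebraMap k R c) a
        exact this.trans (algebraMap_smul R c (e3 a))
      left_inv := fun y => e3.symm_apply_apply y
      right_inv := fun y => e3.apply_symm_apply y }
  have : Module.Finite k (R ⧸ m) :=
    Module.finite_of_finrank_pos (by rw [finrank_residue k m hm hk]; exact one_pos)
  rw [PDefs.torDim, e4.finrank_eq, Module.finrank_pi_fintype]
  simp [finrank_residue k m hm hk]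

end Pool.Agent.Lib.MP_6756f0_al
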