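import Pool.Agent.Lib.MP_6756f0_al.PKos
import Pool.Agent.Lib.MP_6756f0_al.PTor
import Pool.Agent.Lib.MP_6756f0_al.PSeries

/-! Golod's resolution `K ⊗ T(V)` when the homology has representatives with zero products. -/

namespace Pool.Agent.Lib.MP_6756f0_al

open ExteriorAlgebra

variable {R : Type} [CommRing R] {n : ℕ} {B : Type}

/-- The degree of a word. -/
def wdeg (dg : B → ℕ) (w : List B) : ℤ := (w.map fun h => (dg h + 2 : ℤ)).sum

/-- The degree `t` term of the resolution. -/
noncomputable def FF (R : Type) [CommRing R] (n : ℕ) (dg : B → ℕ) (t : ℤ) :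
    Submodule R (List B → Kos R n) :=
  Submodule.pi Set.univ fun w => KZ R n (t - wdeg dg w)

lemma mem_FF {dg : B → ℕ} {t : ℤ} {f : List B → Kos R n} :
    f ∈ FF R n dg t ↔ ∀ w, f w ∈ KZ R n (t - wdeg dg w) :=
  ⟨fun h w => h w trivial, fun h w _ => h w⟩

/-- A function on words from its value at the empty word and its shifts. -/
def bld (u : Kos R n) (G : B → List B → Kos R n) : List B → Kos R n
  | [] => u
  | h :: w => G h w

lemma bld_eta (f : List B → Kos R n) : bld (f []) (fun h w => f (h :: w)) = f := by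
  funext w; cases w <;> rfl

lemma bld_ext {u u' : Kos R n} {G G' : B → List B → Kos R n} (h1 : u = u') (h2 : ∀ h, G h = G' h) :
    bld u G = bld u' G' := by
  rw [h1, funext h2]

lemma bld_add (u u' : Kos R n) (G G' : B → List B → Kos R n) :
    bld u G + bld u' G' = bld (u + u') fun h => G h + G' h := by
  funext w; cases w <;> rfl

lemma bld_mem (dg : B → ℕ) {t : ℤ} {u : Kos R n} {G : B → List B → Kos R n} :
    bld u G ∈ FF R n dg t ↔ u ∈ KZ R n t ∧ ∀ h, G h ∈ FF R n dg (t - (dg h + 2)) := by
  simp only [mem_FF]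
  constructor
  · intro H
    refine ⟨by simpa [wdeg, bld] using H [], fun h w => ?_⟩
    have := H (h :: w)
    simp only [wdeg, List.map_cons, List.sum_cons, bld] at this ⊢
    rwa [sub_sub]
  · rintro ⟨H1, H2⟩ w
    cases w with
    | nil => simpa [wdeg, bld] using H1
    | cons h w =>
      have := H2 h w
      simp only [wdeg, List.map_cons, List.sum_cons, bld] at this ⊢
      rwa [sub_sub] at this

lemma wdeg_nonneg (dg : B → ℕ) (w : List B) : 0 ≤ wdeg dg w := by
  induction w with
  | nil => simp [wdeg]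
  | cons h w ih =>
    simp only [wdeg, List.map_cons, List.sum_cons] at ih ⊢
    omega

lemma wdeg_snoc (dg : B → ℕ) (w : List B) (g : B) :
    wdeg dg (w ++ [g]) = wdeg dg w + (dg g + 2) := by
  simp [wdeg]

lemma FF_neg (dg : B → ℕ) {t : ℤ} (ht : t < 0) {f : List B → Kos R n} (hf : f ∈ FF R n dg t) :
    f = 0 := by
  funext w
  have := mem_FF.1 hf w
  have h0 := wdeg_nonneg dg w
  rw [KZ_neg (by omega)] at this
  exact this

lemma shift_mem (dg : B → ℕ) {t : ℤ} {f : List B → Kos R n} (hf : f ∈ FF R n dg t) :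
    f [] ∈ KZ R n t ∧ ∀ h, (fun w => f (h :: w)) ∈ FF R n dg (t - (dg h + 2)) :=
  (bld_mem dg).1 (by rw [bld_eta]; exact hf)

/-- The splitting of a term into its empty-word part and its shifts. -/
noncomputable def FFequiv (dg : B → ℕ) (t : ℤ) :
    FF R n dg t ≃ₗ[R] KZ R n t × ∀ h : B, FF R n dg (t - (dg h + 2)) where
  toFun f := (⟨f.1 [], (shift_mem dg f.2).1⟩,
    fun h => ⟨fun w => f.1 (h :: w), (shift_mem dg f.2).2 h⟩)
  invFun p := ⟨bld p.1.1 fun h => (p.2 h).1, (bld_mem dg).2 ⟨p.1.2, fun h => (p.2 h).2⟩⟩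
  map_add' _ _ := rfl
  map_smul' _ _ := rfl
  left_inv f := Subtype.ext (bld_eta f.1)
  right_inv _ := rfl

variable [Fintype B]

lemma FF_free (dg : B → ℕ) (t : ℤ) :
    Module.Free R (FF R n dg t) ∧ Module.Finite R (FF R n dg t) := by
  have key : ∀ (N : ℕ) (t : ℤ), t < N →
      Module.Free R (FF R n dg t) ∧ Module.Finite R (FF R n dg t) := by
    intro N
    induction N with
    | zero =>
      intro t ht
      have : FF R n dg t = ⊥ := (Submodule.eq_bot_iff _).2 fun f hf => FF_neg dg (by omega) hf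
      rw [this]; exact ⟨inferInstance, inferInstance⟩
    | succ N ih =>
      intro t ht
      have h1 := fun h : B => (ih (t - (dg h + 2)) (by omega)).1
      have h2 := fun h : B => (ih (t - (dg h + 2)) (by omega)).2
      have h3 := (KZ_free (R := R) (n := n) t).1
      have h4 := (KZ_free (R := R) (n := n) t).2
      exact ⟨Module.Free.of_equiv (FFequiv dg t).symm, Module.Finite.equiv (FFequiv dg t).symm⟩
  exact key (t.toNat + 1) t (by omega)

lemma finrank_FF [Nontrivial R] (dg : B → ℕ) (m : ℕ) :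
    Module.finrank R (FF R n dg m) = n.choose m +
      ∑ h, if dg h + 2 ≤ m then Module.finrank R (FF R n dg (m - (dg h + 2) : ℕ)) else 0 := by
  have h1 := fun h : B => (FF_free (R := R) (n := n) dg (m - (dg h + 2))).1
  have h2 := fun h : B => (FF_free (R := R) (n := n) dg (m - (dg h + 2))).2
  have h3 := (KZ_free (R := R) (n := n) m).1
  have h4 := (KZ_free (R := R) (n := n) m).2
  rw [(FFequiv dg (m : ℤ)).finrank_eq, Module.finrank_prod, Module.finrank_pi_fintype, KZ_nat,
    finrank_KD]
  congr 1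
  refine Finset.sum_congr rfl fun h _ => ?_
  split_ifs with hh
  · rw [show ((m - (dg h + 2) : ℕ) : ℤ) = m - (dg h + 2) by omega]
  · have : FF R n dg (m - (dg h + 2)) = ⊥ :=
      (Submodule.eq_bot_iff _).2 fun f hf => FF_neg dg (by omega) hf
    rw [this, finrank_bot]

/-- The differential. -/
noncomputable def DD (x : Fin n → R) (z : B → Kos R n) :
    (List B → Kos R n) →ₗ[R] (List B → Kos R n) where
  toFun f w := kosD x (f w) + ∑ g, sg R n (f (w ++ [g])) * z g
  map_add' f f' := by
    funext w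
    simp only [Pi.add_apply, map_add, add_mul, Finset.sum_add_distrib]
    abel
  map_smul' r f := by
    funext w
    simp only [Pi.smul_apply, map_smul, smul_mul_assoc, RingHom.id_apply, smul_add,
      Finset.smul_sum]

lemma DD_apply (x : Fin n → R) (z : B → Kos R n) (f : List B → Kos R n) (w : List B) :
    DD x z f w = kosD x (f w) + ∑ g, sg R n (f (w ++ [g])) * z g := rfl

lemma DD_bld (x : Fin n → R) (z : B → Kos R n) (u : Kos R n) (G : B → List B → Kos R n) :
    DD x z (bld u G) = bld (kosD x u + ∑ g, sg R n (G g []) * z g) fun h => DD x z (G h) := by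
  funext w; cases w <;> rfl

lemma DD_DD (x : Fin n → R) (z : B → Kos R n) (hz : ∀ g, kosD x (z g) = 0)
    (hzz : ∀ g g', sg R n (z g) * z g' = 0) (f : List B → Kos R n) : DD x z (DD x z f) = 0 := by
  funext w
  simp only [DD_apply, map_add, map_sum, kosD_kosD, kosD_sg_mul x (hz _), add_mul, sg_mul,
    Finset.sum_mul, mul_assoc, hzz, Finset.sum_add_distrib]
  simp

lemma DD_mem (x : Fin n → R) (dg : B → ℕ) (z : B → Kos R n) (hz : ∀ g, z g ∈ KD R n (dg g + 1))
    {t : ℤ} {f : List B → Kos R n} (hf : f ∈ FF R n dg (t + 1)) : DD x z f ∈ FF R n dg t := by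
  intro w _
  rw [DD_apply]
  refine add_mem (kosD_KZ x ?_) (Submodule.sum_mem _ fun g _ => ?_)
  · have := mem_FF.1 hf w
    rwa [show t + 1 - wdeg dg w = t - wdeg dg w + 1 by ring] at this
  · refine KZ_mul (sg_KZ (mem_FF.1 hf (w ++ [g]))) (hz g) ?_
    rw [wdeg_snoc]; push_cast; ring

lemma DD_mem_smul (x : Fin n → R) (dg : B → ℕ) (z : B → Kos R n)
    (hz : ∀ g, z g ∈ KD R n (dg g + 1))
    (hm : ∀ g, z g ∈ Ideal.span (Set.range x) • (⊤ : Submodule R (Kos R n)))
    {t : ℤ} {f : List B → Kos R n} (hf : f ∈ FF R n dg (t + 1)) :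
    DD x z f ∈ Ideal.span (Set.range x) • FF R n dg t := by
  have h1 : ∀ w, ∃ y : Fin n → Kos R n, (∀ l, y l ∈ KZ R n (t - wdeg dg w)) ∧
      DD x z f w = ∑ l, x l • y l := fun w =>
    KZ_smul_repr x (mem_FF.1 (DD_mem x dg z hz hf) w) (by
      rw [DD_apply]
      exact add_mem (kosD_mem_smul x _)
        (Submodule.sum_mem _ fun g _ => mul_mem_smul_top _ _ (hm g)))
  choose y hy1 hy2 using h1
  have : DD x z f = ∑ l, x l • fun w => y w l := by
    funext w
    rw [hy2 w, Finset.sum_apply]
    rfl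
  rw [this]
  exact Submodule.sum_mem _ fun l _ =>
    Submodule.smul_mem_smul (Ideal.subset_span ⟨l, rfl⟩) fun w _ => hy1 w l

variable (k : Type) [Field k] [Algebra k R]

/-- Data for the resolution: cycles with zero products that represent a basis of the homology in
positive degrees. -/
structure GolodData (x : Fin n → R) (dg : B → ℕ) (z : B → Kos R n) : Prop where
  deg : ∀ g, z g ∈ KD R n (dg g + 1)
  cyc : ∀ g, kosD x (z g) = 0
  sq : ∀ g g', sg R n (z g) * z g' = 0
  mem : ∀ g, z g ∈ Ideal.span (Set.range x) • (⊤ : Submodule R (Kos R n))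
  ind : ∀ (i : ℕ) (c : B → k), (∀ g, dg g ≠ i → c g = 0) →
    ∑ g, algebraMap k R (c g) • z g ∈ boundaries x (i + 1) → c = 0
  spn : ∀ (i : ℕ), ∀ u ∈ cycles x (i + 1), ∃ c : B → k, (∀ g, dg g ≠ i → c g = 0) ∧
    u - ∑ g, algebraMap k R (c g) • z g ∈ boundaries x (i + 1)
  res : ∀ r : R, ∃ c : k, r - algebraMap k R c ∈ Ideal.span (Set.range x)

/-- A scalar placed at the empty word. -/
noncomputable def cst (r : R) : List B → Kos R n := bld (algebraMap R _ r) fun _ => 0

omit [Fintype B] in
lemma cst_zero : (cst 0 : List B → Kos R n) = 0 := by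
  funext w; cases w <;> simp [cst, bld]

omit [Fintype B] in
lemma cst_mem (dg : B → ℕ) (r : R) : (cst r : List B → Kos R n) ∈ FF R n dg 0 :=
  (bld_mem dg).2 ⟨by rw [show (0 : ℤ) = (0 : ℕ) from rfl, KZ_nat]; exact algebraMap_mem_zero r,
    fun _ => zero_mem _⟩

lemma DD_cst (x : Fin n → R) (z : B → Kos R n) (r : R) : DD x z (cst r) = 0 := by
  rw [cst, DD_bld]
  funext w; cases w <;> simp [bld, kosD_algebraMap]

variable {k}

theorem GolodData.exact {x : Fin n → R} {dg : B → ℕ} {z : B → Kos R n} (D : GolodData k x dg z)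
    (t : ℤ) : ∀ f ∈ FF R n dg t, DD x z f = 0 → ∃ g ∈ FF R n dg (t + 1), ∃ c : k,
      (t ≠ 0 → c = 0) ∧ f = DD x z g + cst (algebraMap k R c) := by
  have key : ∀ (N : ℕ) (t : ℤ), t < N → ∀ f ∈ FF R n dg t, DD x z f = 0 →
      ∃ g ∈ FF R n dg (t + 1), ∃ c : k, (t ≠ 0 → c = 0) ∧
        f = DD x z g + cst (algebraMap k R c) := by
    intro N
    induction N with
    | zero =>
      intro t ht f hf _
      exact ⟨0, zero_mem _, 0, fun _ => rfl, by
        rw [FF_neg dg (by omega) hf, map_zero, map_zero, cst_zero, add_zero]⟩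
    | succ N ih =>
      intro t ht f hf hd
      rw [← bld_eta f] at hf hd
      obtain ⟨hu, hG⟩ := (bld_mem dg).1 hf
      rw [DD_bld] at hd
      have hd1 := congrFun hd []
      have hd2 : ∀ h, DD x z (fun w => f (h :: w)) = 0 := fun h =>
        funext fun w => congrFun hd (h :: w)
      choose G hG1 c hc hG2 using fun h => ih _ (by omega) _ (hG h) (hd2 h)
      have hGm : bld 0 G ∈ FF R n dg (t + 1) := (bld_mem dg).2 ⟨zero_mem _, fun h => by
        have := hG1 h
        rwa [show t - (dg h + 2) + 1 = t + 1 - (dg h + 2) by ring] at this⟩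
      obtain ⟨u, hue⟩ : ∃ u, u = f [] - DD x z (bld 0 G) [] := ⟨_, rfl⟩
      have hum : u ∈ KZ R n t := by
        rw [hue]
        refine sub_mem hu ?_
        have := mem_FF.1 (DD_mem x dg z D.deg hGm) []
        simpa [wdeg] using this
      have hf1 : f = DD x z (bld 0 G) + bld u fun h => cst (algebraMap k R (c h)) := by
        funext w
        cases w with
        | nil => rw [hue]; simp [bld]
        | cons h w => exact congrFun (hG2 h) w
      have hd3 : kosD x u + ∑ g, algebraMap k R (c g) • z g = 0 := by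
        have h1 : DD x z f = 0 := by rw [← bld_eta f, DD_bld]; exact hd
        rw [hf1, map_add, DD_DD x z D.cyc D.sq, zero_add, DD_bld] at h1
        have h2 := congrFun h1 []
        simp only [bld, cst, sg_algebraMap, ← Algebra.smul_def] at h2
        exact h2
      have hc0 : c = 0 := by
        rcases lt_or_ge t 2 with h | h
        · funext g; exact hc g (by omega)
        · obtain ⟨i, rfl⟩ : ∃ i : ℕ, t = (i + 2 : ℕ) := ⟨(t - 2).toNat, by omega⟩
          refine D.ind i c (fun g hg => hc g (by omega)) ⟨-u, neg_mem (by rwa [KZ_nat] at hum), ?_⟩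
          rw [map_neg, neg_eq_iff_add_eq_zero, hd3]
      subst hc0
      simp only [Pi.zero_apply, map_zero, zero_smul, Finset.sum_const_zero, add_zero,
        cst_zero] at hd3 hf1
      rcases lt_trichotomy t 0 with h | h | h
      · refine ⟨bld 0 G, hGm, 0, fun _ => rfl, ?_⟩
        rw [KZ_neg h, Submodule.mem_bot] at hum
        rw [hf1, hum, map_zero, cst, map_zero]
      · subst h
        obtain ⟨r, rfl⟩ := exists_of_mem_zero (show u ∈ KD R n 0 by rw [← KZ_nat]; exact hum)
        obtain ⟨c, hc⟩ := D.res r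
        obtain ⟨y, hy1, hy2⟩ := exists_kosD_eq x hc
        refine ⟨bld 0 G + bld y fun _ => 0, add_mem hGm ((bld_mem dg).2
          ⟨by rw [← KZ_nat] at hy1; exact hy1, fun _ => zero_mem _⟩), c, fun h => (h rfl).elim, ?_⟩
        rw [hf1, map_add, add_assoc, DD_bld x z y, cst, bld_add, hy2]
        congr 1
        exact bld_ext (by simp) (by simp)
      · obtain ⟨i, rfl⟩ : ∃ i : ℕ, t = (i + 1 : ℕ) := ⟨(t - 1).toNat, by omega⟩
        rw [KZ_nat] at hum
        obtain ⟨c, hc, y, hy1, hy2⟩ := D.spn i u ⟨hum, hd3⟩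
        refine ⟨bld 0 G + bld y fun h => cst (algebraMap k R (c h)), add_mem hGm ((bld_mem dg).2
          ⟨by rw [show ((i + 1 : ℕ) : ℤ) + 1 = (i + 1 + 1 : ℕ) by omega, KZ_nat]; exact hy1,
            fun h => ?_⟩), 0, fun _ => rfl, ?_⟩
        · by_cases hh : dg h = i
          · rw [show ((i + 1 : ℕ) : ℤ) + 1 - (dg h + 2) = 0 by omega]
            exact cst_mem dg _
          · rw [hc h hh, map_zero, cst_zero]; exact zero_mem _
        · rw [hf1, map_add, map_zero, cst_zero, add_zero, DD_bld x z y, hy2]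
          congr 1
          refine bld_ext ?_ fun h => (DD_cst x z _).symm
          simp only [bld, cst, sg_algebraMap, ← Algebra.smul_def, sub_add_cancel]
  exact key (t.toNat + 1) t (by omega)

/-- Golod's resolution of the residue field. -/
noncomputable def GolodData.toRes {x : Fin n → R} {dg : B → ℕ} {z : B → Kos R n}
    (D : GolodData k x dg z) (hm : Ideal.span (Set.range x) ≠ ⊤) :
    Res R (R ⧸ Ideal.span (Set.range x)) where
  X m := ModuleCat.of R (FF R n dg m)
  d m := (DD x z).restrict (p := FF R n dg (m + 1 : ℕ)) (q := FF R n dg m)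
    fun _ hf => DD_mem x dg z D.deg hf
  ε := (Ideal.span (Set.range x)).mkQ ∘ₗ (algebraMapInv (R := R) (M := Fin n → R)).toLinearMap ∘ₗ
    LinearMap.proj ([] : List B) ∘ₗ (FF R n dg (0 : ℕ)).subtype
  proj m := by
    have := (FF_free (R := R) (n := n) dg m).1
    exact Module.Projective.of_free
  surj := by
    intro y
    obtain ⟨r, rfl⟩ := Ideal.Quotient.mk_surjective y
    exact ⟨⟨cst r, cst_mem dg r⟩, congrArg (Ideal.Quotient.mk _) (algebraMap_leftInverse _ r)⟩
  exact0 := by
    have h1 : ∀ g ∈ FF R n dg (0 + 1), algebraMapInv (DD x z g []) ∈ Ideal.span (Set.range x) := by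
      intro g hg
      have := Submodule.mem_map_of_mem (f := (algebraMapInv (R := R) (M := Fin n → R)).toLinearMap
        ∘ₗ LinearMap.proj ([] : List B)) (DD_mem_smul x dg z D.deg D.mem hg)
      rw [Submodule.map_smul''] at this
      have h2 := Submodule.smul_mono le_rfl le_top this
      rwa [smul_eq_mul, Ideal.mul_top] at h2
    intro f
    constructor
    · intro hf
      have hf' : algebraMapInv (f.1 []) ∈ Ideal.span (Set.range x) :=
        Ideal.Quotient.eq_zero_iff_mem.1 hf
      have hf0 : f.1 ∈ FF R n dg 0 := f.2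
      have hf1 : f.1 ∈ FF R n dg (-1 + 1) := by rwa [show (-1 + 1 : ℤ) = 0 by omega]
      obtain ⟨g, hg, c, -, e⟩ := D.exact 0 f.1 hf0
        (FF_neg dg (t := -1) (by omega) (DD_mem x dg z D.deg hf1))
      have hc : c = 0 := by
        by_contra hc
        rw [e, Pi.add_apply, map_add] at hf'
        have h3 := (Ideal.add_mem_iff_right _ (h1 g hg)).1 hf'
        rw [show algebraMapInv ((cst (algebraMap k R c) : List B → Kos R n) []) =
          algebraMap k R c from algebraMap_leftInverse _ _] at h3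
        exact hm (Ideal.eq_top_of_isUnit_mem _ h3 ((Ne.isUnit hc).map _))
      rw [hc, map_zero, cst_zero, add_zero] at e
      exact ⟨⟨g, hg⟩, Subtype.ext e.symm⟩
    · rintro ⟨g, rfl⟩
      exact Ideal.Quotient.eq_zero_iff_mem.2 (h1 g.1 g.2)
  exact m := by
    intro f
    constructor
    · intro hf
      obtain ⟨g, hg, c, hc, e⟩ := D.exact _ f.1 f.2 (congrArg Subtype.val hf)
      rw [hc (by omega), map_zero, cst_zero, add_zero] at e
      exact ⟨⟨g, hg⟩, Subtype.ext e.symm⟩
    · rintro ⟨g, rfl⟩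
      exact Subtype.ext (DD_DD x z D.cyc D.sq g.1)

theorem GolodData.torDim {x : Fin n → R} {dg : B → ℕ} {z : B → Kos R n}
    (D : GolodData k x dg z) (hm : Ideal.span (Set.range x) ≠ ⊤) (m : ℕ) :
    PDefs.torDim k (Ideal.span (Set.range x)) m = Module.finrank R (FF R n dg m) := by
  have : Nontrivial R := by
    by_contra h
    rw [not_nontrivial_iff_subsingleton] at h
    exact hm (Subsingleton.elim _ _)
  have h1 := (FF_free (R := R) (n := n) dg m).1
  have h2 := (FF_free (R := R) (n := n) dg m).2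
  refine torDim_eq k _ hm D.res (D.toRes hm) ?_ m _ (Module.finBasis R (FF R n dg m)).equivFun
  rintro j _ ⟨g, rfl⟩
  exact (Submodule.mem_smul_top_iff _ _ _).2 (DD_mem_smul x dg z D.deg D.mem g.2)

end Pool.Agent.Lib.MP_6756f0_al
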