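import Pool.Agent.Lib.MP_6756f0_al.Basic

/-! More on the Koszul complex: the grade involution and an integer grading. -/

namespace Pool.Agent.Lib.MP_6756f0_al

open ExteriorAlgebra

variable {R : Type} [CommRing R] {n : ℕ}

/-- The grade involution. -/
noncomputable def sg (R : Type) [CommRing R] (n : ℕ) : Kos R n →ₗ[R] Kos R n :=
  (CliffordAlgebra.involute (Q := (0 : QuadraticForm R (Fin n → R)))).toLinearMap

lemma sg_algebraMap (r : R) : sg R n (algebraMap R _ r) = algebraMap R _ r :=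
  AlgHom.commutes _ r

lemma sg_one : sg R n 1 = 1 := by simpa using sg_algebraMap (n := n) (1 : R)

lemma sg_mul (a b : Kos R n) : sg R n (a * b) = sg R n a * sg R n b :=
  map_mul (CliffordAlgebra.involute (Q := (0 : QuadraticForm R (Fin n → R)))) a b

lemma sg_ι (m : Fin n → R) : sg R n (ι R m) = -ι R m := CliffordAlgebra.involute_ι m

lemma sg_sg (a : Kos R n) : sg R n (sg R n a) = a := CliffordAlgebra.involute_involute a

lemma sg_of_mem {i : ℕ} {a : Kos R n} (ha : a ∈ KD R n i) : sg R n a = (-1 : R) ^ i • a := by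
  induction ha using Submodule.pow_induction_on_left' with
  | algebraMap r => simp [sg_algebraMap]
  | add u w i hu hw ihu ihw => simp only [map_add, ihu, ihw, smul_add]
  | mem_mul m hm i w hw ih =>
    obtain ⟨m, rfl⟩ := hm
    rw [sg_mul, sg_ι, ih]
    simp [pow_succ]

lemma kosD_sg_mul (x : Fin n → R) {z : Kos R n} (hz : kosD x z = 0) (a : Kos R n) :
    kosD x (sg R n a * z) = -(sg R n (kosD x a) * z) := by
  induction a using CliffordAlgebra.left_induction with
  | algebraMap r =>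
    rw [sg_algebraMap, kosD_algebraMap, ← Algebra.smul_def, map_smul, hz]
    simp
  | add u v hu hv => simp only [map_add, add_mul, hu, hv, neg_add]
  | ι_mul b m hb =>
    change kosD x (sg R n (ι R m * b) * z) = -(sg R n (kosD x (ι R m * b)) * z)
    rw [sg_mul, sg_ι, neg_mul, neg_mul, map_neg, mul_assoc, kosD_ι_mul, hb, kosD_ι_mul, map_sub,
      map_smul, sg_mul, sg_ι]
    simp only [mul_neg, neg_mul, sub_mul, smul_mul_assoc, mul_assoc]

lemma mem_span_smul_top {M : Type} [AddCommGroup M] [Module R M] (x : Fin n → R) {u : M}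
    (hu : u ∈ Ideal.span (Set.range x) • (⊤ : Submodule R M)) :
    ∃ y : Fin n → M, u = ∑ l, x l • y l := by
  refine Submodule.smul_induction_on hu ?_ ?_
  · intro r hr c _
    obtain ⟨a, rfl⟩ := Ideal.mem_span_range_iff_exists_fun.1 hr
    refine ⟨fun l => a l • c, ?_⟩
    rw [Finset.sum_smul]
    exact Finset.sum_congr rfl fun l _ => by rw [smul_smul, mul_comm]
  · rintro _ _ ⟨y, rfl⟩ ⟨y', rfl⟩
    exact ⟨y + y', by simp [Finset.sum_add_distrib]⟩

lemma mul_mem_smul_top (m : Ideal R) (a : Kos R n) {z : Kos R n}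
    (hz : z ∈ m • (⊤ : Submodule R (Kos R n))) : a * z ∈ m • (⊤ : Submodule R (Kos R n)) := by
  have := Submodule.mem_map_of_mem (f := LinearMap.mulLeft R a) hz
  rw [Submodule.map_smul''] at this
  exact Submodule.smul_mono le_rfl le_top this

lemma kosD_mem_smul (x : Fin n → R) (a : Kos R n) :
    kosD x a ∈ Ideal.span (Set.range x) • (⊤ : Submodule R (Kos R n)) := by
  induction a using CliffordAlgebra.left_induction with
  | algebraMap r => rw [kosD_algebraMap]; exact zero_mem _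
  | add u v hu hv => rw [map_add]; exact add_mem hu hv
  | ι_mul b m hb =>
    change kosD x (ι R m * b) ∈ _
    rw [kosD_ι_mul]
    refine sub_mem (Submodule.smul_mem_smul ?_ trivial) (mul_mem_smul_top _ _ hb)
    rw [Fintype.linearCombination_apply]
    exact Ideal.mem_span_range_iff_exists_fun.2 ⟨m, rfl⟩

lemma exists_of_mem_zero {u : Kos R n} (hu : u ∈ KD R n 0) : ∃ r : R, u = algebraMap R _ r := by
  simp only [KD, ExteriorAlgebra.exteriorPower, pow_zero, Submodule.mem_one] at hu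
  obtain ⟨r, hr⟩ := hu
  exact ⟨r, hr.symm⟩

lemma algebraMap_mem_zero (r : R) : algebraMap R (Kos R n) r ∈ KD R n 0 :=
  SetLike.algebraMap_mem_graded (fun i => KD R n i) r

lemma exists_kosD_eq (x : Fin n → R) {r : R} (hr : r ∈ Ideal.span (Set.range x)) :
    ∃ y ∈ KD R n 1, kosD x y = algebraMap R _ r := by
  obtain ⟨a, rfl⟩ := Ideal.mem_span_range_iff_exists_fun.1 hr
  refine ⟨ι R a, ?_, ?_⟩
  · simp only [KD, ExteriorAlgebra.exteriorPower, pow_one]
    exact LinearMap.mem_range_self _ _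
  · have := kosD_ι_mul x a 1
    rw [mul_one, kosD_one, mul_zero, sub_zero] at this
    rw [this, Fintype.linearCombination_apply, Algebra.algebraMap_eq_smul_one]
    rfl

/-- The integer grading. -/
noncomputable def KZ (R : Type) [CommRing R] (n : ℕ) (t : ℤ) : Submodule R (Kos R n) :=
  if 0 ≤ t then KD R n t.toNat else ⊥

lemma KZ_nat (i : ℕ) : KZ R n i = KD R n i := by simp [KZ]

lemma KZ_neg {t : ℤ} (ht : t < 0) : KZ R n t = ⊥ := by simp [KZ, ht]

lemma kosD_KZ (x : Fin n → R) {t : ℤ} {a : Kos R n} (ha : a ∈ KZ R n (t + 1)) :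
    kosD x a ∈ KZ R n t := by
  rcases lt_trichotomy t (-1) with h | h | h
  · rw [KZ_neg (by omega), Submodule.mem_bot] at ha
    rw [ha, map_zero]; exact zero_mem _
  · subst h
    have : a ∈ KD R n 0 := by rw [← KZ_nat]; exact ha
    rw [(kosD_mem_aux x this).2 rfl]; exact zero_mem _
  · obtain ⟨i, rfl⟩ := Int.eq_ofNat_of_zero_le (show 0 ≤ t by omega)
    rw [KZ_nat]
    refine kosD_mem x ?_
    rw [← KZ_nat]; exact ha

lemma KZ_mul {s t : ℤ} {i : ℕ} {a z : Kos R n} (ha : a ∈ KZ R n s) (hz : z ∈ KD R n i)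
    (h : t = s + i) : a * z ∈ KZ R n t := by
  subst h
  rcases lt_or_ge s 0 with h | h
  · rw [KZ_neg h, Submodule.mem_bot] at ha
    rw [ha, zero_mul]; exact zero_mem _
  · obtain ⟨j, rfl⟩ := Int.eq_ofNat_of_zero_le h
    rw [KZ_nat] at ha
    rw [← Nat.cast_add, KZ_nat]
    exact KD_mul ha hz

lemma sg_KZ {t : ℤ} {a : Kos R n} (ha : a ∈ KZ R n t) : sg R n a ∈ KZ R n t := by
  rcases lt_or_ge t 0 with h | h
  · rw [KZ_neg h, Submodule.mem_bot] at ha
    rw [ha, map_zero]; exact zero_mem _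
  · obtain ⟨j, rfl⟩ := Int.eq_ofNat_of_zero_le h
    rw [KZ_nat] at ha ⊢
    rw [sg_of_mem ha]
    exact Submodule.smul_mem _ _ ha

lemma KZ_smul_repr (x : Fin n → R) {t : ℤ} {u : Kos R n} (hu : u ∈ KZ R n t)
    (hm : u ∈ Ideal.span (Set.range x) • (⊤ : Submodule R (Kos R n))) :
    ∃ y : Fin n → Kos R n, (∀ l, y l ∈ KZ R n t) ∧ u = ∑ l, x l • y l := by
  rcases lt_or_ge t 0 with h | h
  · rw [KZ_neg h, Submodule.mem_bot] at hu
    exact ⟨0, fun _ => zero_mem _, by simp [hu]⟩
  · obtain ⟨j, rfl⟩ := Int.eq_ofNat_of_zero_le h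
    rw [KZ_nat] at hu ⊢
    obtain ⟨y, hy⟩ := mem_span_smul_top x hm
    refine ⟨fun l => prj R n j (y l), fun l => prj_mem _ _, ?_⟩
    rw [← prj_same hu, hy, map_sum]
    simp only [map_smul]

lemma KZ_free (t : ℤ) : Module.Free R (KZ R n t) ∧ Module.Finite R (KZ R n t) := by
  rcases lt_or_ge t 0 with h | h
  · rw [KZ_neg h]; exact ⟨inferInstance, inferInstance⟩
  · obtain ⟨j, rfl⟩ := Int.eq_ofNat_of_zero_le h
    rw [KZ_nat]; exact ⟨inferInstance, inferInstance⟩

lemma finrank_KD [Nontrivial R] (i : ℕ) : Module.finrank R (KD R n i) = n.choose i := by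
  rw [exteriorPower.finrank_eq]; simp

end Pool.Agent.Lib.MP_6756f0_al
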