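import Pool.Agent.Lib.MP_6756f0_al.PSyz

/-! A nonzero product `H₂ · H₂` in the Koszul homology breaks Serre's equality. -/

namespace Pool.Agent.Lib.MP_6756f0_al

open ExteriorAlgebra TensorProduct

variable {R : Type} [CommRing R] {n : ℕ}
variable {M A B C : Type} [AddCommGroup M] [Module R M] [AddCommGroup A] [Module R A]
  [AddCommGroup B] [Module R B] [AddCommGroup C] [Module R C]
variable (k : Type) [Field k] [Algebra k R]

lemma finrank_eq_of_iff {V : Type} [AddCommGroup V] [Module R V] [Module k V] [IsScalarTower k R V]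
    (S : Submodule k V) (T : Submodule R V) (h : ∀ y, y ∈ S ↔ y ∈ T) :
    Module.finrank k S = Module.finrank k T := by
  let e : S ≃ₗ[k] T :=
    { toFun := fun y => ⟨y.1, (h _).1 y.2⟩
      invFun := fun y => ⟨y.1, (h _).2 y.2⟩
      map_add' := fun _ _ => rfl
      map_smul' := fun _ _ => rfl
      left_inv := fun _ => rfl
      right_inv := fun _ => rfl }
  exact e.finrank_eq

lemma km_finite [Module.Finite k R] [Module.Finite R M] : Module.Finite k (Kos R n ⊗[R] M) := by
  have := kos_finite (R := R) (n := n)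
  exact Module.Finite.trans R _

/-- The dimension of the Koszul homology of a module. -/
noncomputable def hM (x : Fin n → R) (M : Type) [AddCommGroup M] [Module R M] (i : ℕ) : ℤ :=
  (Module.finrank k (ZM x M i) : ℤ) - Module.finrank k (BM x M i)

lemma les_gen [Module.Finite k R] [Module.Finite R A] [Module.Finite R B] [Module.Finite R C]
    (x : Fin n → R) {f : A →ₗ[R] B} {g : B →ₗ[R] C} (hf : Function.Injective f)
    (hfg : Function.Exact f g) (hg : Function.Surjective g) (i : ℕ)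
    (T : Submodule R (Kos R n ⊗[R] B)) (hT1 : BM x B i ≤ T)
    (hT2 : ∀ y ∈ ZM x A i, f.lTensor (Kos R n) y ∈ T) :
    ∃ ρ : ℕ, hM k x A i + ρ + Module.finrank k (BM x B i) ≤
      hM k x C (i + 1) + Module.finrank k T ∧ (ρ = 0 → Van x g (i + 1)) := by
  have := km_finite (R := R) (n := n) (M := A) k
  have := km_finite (R := R) (n := n) (M := B) k
  have := km_finite (R := R) (n := n) (M := C) k
  have key := dim_les ((f.lTensor (Kos R n)).restrictScalars k)
    ((g.lTensor (Kos R n)).restrictScalars k) (((kosD x).rTensor A).restrictScalars k)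
    (((kosD x).rTensor B).restrictScalars k) (((kosD x).rTensor C).restrictScalars k)
    (lT_inj hf) (lTensor_exact (Kos R n) hfg hg) (lr_comm _ f) (lr_comm _ g) (DM_DM x)
    ((PM R n A i).restrictScalars k) ((PM R n A (i + 1)).restrictScalars k)
    ((PM R n B i).restrictScalars k) ((PM R n B (i + 1)).restrictScalars k) (T.restrictScalars k)
    ((PM R n C (i + 1)).restrictScalars k) (fun _ h => mem_of_lT_mem hf h)
    (fun _ => ⟨fun h => mem_of_lT_mem hf h, fun h => lT_mem f h⟩)
    (le_antisymm (by rintro _ ⟨y, hy, rfl⟩; exact lT_mem g hy) fun _ hy => exists_lift hg hy)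
    (by rintro _ ⟨y, hy, rfl⟩; exact DM_mem x hy) hT1 (by rintro _ ⟨y, hy, rfl⟩; exact hT2 y hy)
  rw [finrank_eq_of_iff k _ (ZM x A i) fun _ => Iff.rfl,
    finrank_eq_of_iff k _ (BM x B i) fun _ => Iff.rfl,
    finrank_eq_of_iff k _ ((ZM x B (i + 1)).map (g.lTensor (Kos R n))) fun _ => Iff.rfl,
    finrank_eq_of_iff k _ (BM x A i) fun _ => Iff.rfl,
    finrank_eq_of_iff k _ T fun _ => Iff.rfl,
    finrank_eq_of_iff k _ (ZM x C (i + 1)) fun _ => Iff.rfl] at key
  have hle : (BM x C (i + 1)).restrictScalars k ≤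
      ((ZM x B (i + 1)).map (g.lTensor (Kos R n))).restrictScalars k := by
    rintro _ ⟨y, hy, rfl⟩
    obtain ⟨w, hw, rfl⟩ := exists_lift hg hy
    exact ⟨_, BM_le_ZM x _ ⟨w, hw, rfl⟩, (lr_comm _ g w).symm⟩
  have h1 := Submodule.finrank_mono hle
  have e1 := finrank_eq_of_iff k ((BM x C (i + 1)).restrictScalars k) (BM x C (i + 1))
    fun _ => Iff.rfl
  have e2 := finrank_eq_of_iff k (((ZM x B (i + 1)).map (g.lTensor (Kos R n))).restrictScalars k)
    ((ZM x B (i + 1)).map (g.lTensor (Kos R n))) fun _ => Iff.rfl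
  refine ⟨Module.finrank k ((ZM x B (i + 1)).map (g.lTensor (Kos R n))) -
    Module.finrank k (BM x C (i + 1)), by simp only [hM]; omega, fun h0 y hy => ?_⟩
  have h2 := Submodule.eq_of_le_of_finrank_le hle (by omega)
  have h3 : g.lTensor (Kos R n) y ∈
    ((ZM x B (i + 1)).map (g.lTensor (Kos R n))).restrictScalars k := ⟨y, hy, rfl⟩
  rw [← h2] at h3
  exact h3

lemma les_mod [Module.Finite k R] [Module.Finite R A] [Module.Finite R B] [Module.Finite R C]
    (x : Fin n → R) {f : A →ₗ[R] B} {g : B →ₗ[R] C} (hf : Function.Injective f)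
    (hfg : Function.Exact f g) (hg : Function.Surjective g) (i : ℕ) :
    ∃ ρ : ℕ, hM k x A i + ρ ≤ hM k x C (i + 1) + hM k x B i ∧ (ρ = 0 → Van x g (i + 1)) := by
  obtain ⟨ρ, h1, h2⟩ := les_gen k x hf hfg hg i (ZM x B i) (BM_le_ZM x i) fun y hy =>
    ⟨lT_mem f hy.1, by
      change (kosD x).rTensor B _ = 0
      rw [lr_comm, show (kosD x).rTensor A y = 0 from hy.2, map_zero]⟩
  exact ⟨ρ, by simp only [hM] at h1 ⊢; omega, h2⟩

lemma les_zero [Module.Finite k R] [Module.Finite R A] [Module.Finite R B] [Module.Finite R C]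
    (x : Fin n → R) {f : A →ₗ[R] B} {g : B →ₗ[R] C} (hf : Function.Injective f)
    (hfg : Function.Exact f g) (hg : Function.Surjective g)
    (h : LinearMap.range f ≤ Ideal.span (Set.range x) • ⊤) : hM k x A 0 ≤ hM k x C 1 := by
  obtain ⟨ρ, h1, -⟩ := les_gen k x hf hfg hg 0 (BM x B 0) le_rfl fun y hy => lT_mem_BM x f h hy.1
  simp only [zero_add] at h1
  omega

lemma hM_zero_eq [Module.Finite k R] [Module.Finite R B]
    (x : Fin n → R) {f : A →ₗ[R] B} {g : B →ₗ[R] C} (hf : Function.Injective f)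
    (hfg : Function.Exact f g) (hg : Function.Surjective g)
    (h : LinearMap.range f ≤ Ideal.span (Set.range x) • ⊤) : hM k x B 0 = hM k x C 0 := by
  have := km_finite (R := R) (n := n) (M := B) k
  have key := dim_iso ((g.lTensor (Kos R n)).restrictScalars k)
    (P := (ZM x B 0).restrictScalars k) (Q := (BM x B 0).restrictScalars k) (BM_le_ZM x 0) (by
      rintro y ⟨hy1, hy2⟩
      obtain ⟨a, rfl⟩ := (lTensor_exact (Kos R n) hfg hg y).1 hy2
      exact lT_mem_BM x f h (mem_of_lT_mem hf hy1.1))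
  rw [finrank_eq_of_iff k _ (ZM x B 0) fun _ => Iff.rfl,
    finrank_eq_of_iff k _ (BM x C 0) fun y => ⟨by
      rintro ⟨_, ⟨w, hw, rfl⟩, rfl⟩
      exact ⟨_, lT_mem g hw, lr_comm _ g w⟩, by
      rintro ⟨y, hy, rfl⟩
      obtain ⟨w, hw, rfl⟩ := exists_lift hg hy
      exact ⟨_, ⟨w, hw, rfl⟩, (lr_comm _ g w).symm⟩⟩,
    finrank_eq_of_iff k _ (BM x B 0) fun _ => Iff.rfl,
    finrank_eq_of_iff k _ (ZM x C 0) fun y => ⟨by
      rintro ⟨w, hw, rfl⟩
      exact ⟨lT_mem g hw.1, DM_zero x (lT_mem g hw.1)⟩, by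
      intro hy
      obtain ⟨w, hw, rfl⟩ := exists_lift hg hy.1
      exact ⟨w, ⟨hw, DM_zero x hw⟩, rfl⟩⟩] at key
  simp only [hM]
  omega

lemma hM_free [Module.Finite k R] (x : Fin n → R) (b i : ℕ) :
    hM k x (Fin b → R) i = b * Module.finrank k (KosH x i) := by
  rw [hM, finrank_pi_sub k _ _ fun _ => mem_ZM_pi x, finrank_pi_sub k _ _ fun _ => mem_BM_pi x,
    ← finrank_kosH_add k x i]
  push_cast
  ring

lemma hM_eq_zero (x : Fin n → R) {i : ℕ} (hi : n < i) : hM k x M i ≤ 0 := by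
  have : ZM x M i = ⊥ := (Submodule.eq_bot_iff _).2 fun y hy => PM_eq_zero hi hy.1
  have h : Subsingleton (ZM x M i) := by rw [this]; infer_instance
  rw [hM, Module.finrank_zero_of_subsingleton]
  omega

lemma finrank_kosH_zero_pos [Module.Finite k R] (x : Fin n → R)
    (hm : Ideal.span (Set.range x) ≠ ⊤) : 0 < Module.finrank k (KosH x 0) := by
  have := kosH_finite k x 0
  rw [Module.finrank_pos_iff_exists_ne_zero]
  refine ⟨Submodule.Quotient.mk ⟨1, SetLike.one_mem_graded (fun i => KD R n i), kosD_one x⟩, fun h => hm ?_⟩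
  obtain ⟨y, -, hy⟩ := (Submodule.Quotient.mk_eq_zero _).1 h
  have h1 := Submodule.mem_map_of_mem (f := (algebraMapInv (R := R) (M := Fin n → R)).toLinearMap)
    (kosD_mem_smul x y)
  rw [Submodule.map_smul''] at h1
  have h2 := Submodule.smul_mono le_rfl le_top h1
  rw [smul_eq_mul, Ideal.mul_top, hy] at h2
  rw [Ideal.eq_top_iff_one]
  simpa using h2

lemma exists_cover [Module.Finite k R] (m : Ideal R) (hJ : m ≤ Ideal.jacobson ⊥)
    (hk : ∀ r : R, ∃ c : k, r - algebraMap k R c ∈ m) (M : Type) [AddCommGroup M] [Module R M]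
    [Module.Finite R M] : ∃ (b : ℕ) (φ : (Fin b → R) →ₗ[R] M), Function.Surjective φ ∧
      LinearMap.ker φ ≤ m • ⊤ := by
  let _ : Module k M := Module.compHom M (algebraMap k R)
  have : IsScalarTower k R M := ⟨fun c r v => by
    change (c • r) • v = algebraMap k R c • r • v
    rw [Algebra.smul_def, mul_smul]⟩
  have : Module.Finite k M := Module.Finite.trans R _
  let q : M →ₗ[k] M ⧸ (m • ⊤ : Submodule R M) := (Submodule.mkQ _).restrictScalars k
  have hq : Function.Surjective q := fun y => by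
    obtain ⟨u, rfl⟩ := Submodule.Quotient.mk_surjective _ y
    exact ⟨u, rfl⟩
  have : Module.Finite k (M ⧸ (m • ⊤ : Submodule R M)) := Module.Finite.of_surjective q hq
  let β := Module.finBasis k (M ⧸ (m • ⊤ : Submodule R M))
  choose v hv using fun j => hq (β j)
  have hsum : ∀ c : Fin _ → k, q (∑ j, algebraMap k R (c j) • v j) = ∑ j, c j • β j := by
    intro c
    simp only [map_sum, algebraMap_smul, map_smul, hv]
  refine ⟨_, Fintype.linearCombination R v, ?_, ?_⟩
  · rw [← LinearMap.range_eq_top, eq_top_iff]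
    refine Submodule.le_of_le_smul_of_le_jacobson_bot Module.Finite.fg_top hJ fun y _ => ?_
    have h1 : q y = q (∑ j, algebraMap k R (β.repr (q y) j) • v j) := by
      rw [hsum, Module.Basis.sum_repr]
    have h2 := (Submodule.Quotient.eq _).1 h1
    rw [← sub_add_cancel y (∑ j, algebraMap k R (β.repr (q y) j) • v j), add_comm]
    exact Submodule.add_mem_sup ⟨fun j => algebraMap k R (β.repr (q y) j), rfl⟩ h2
  · intro r hr
    choose c hc using fun j => hk (r j)
    have h0 : ∑ j, r j • v j = 0 := hr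
    have h1 : ∑ j, algebraMap k R (c j) • v j = -∑ j, (r j - algebraMap k R (c j)) • v j := by
      simp only [sub_smul, Finset.sum_sub_distrib, h0]
      simp
    have h2 : q (∑ j, algebraMap k R (c j) • v j) = 0 := by
      refine (Submodule.Quotient.mk_eq_zero _).2 ?_
      rw [h1]
      exact neg_mem (Submodule.sum_mem _ fun j _ => Submodule.smul_mem_smul (hc j) trivial)
    rw [hsum] at h2
    have h3 := Fintype.linearIndependent_iff.1 β.linearIndependent _ h2
    rw [pi_eq_sum_univ' r]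
    refine Submodule.sum_mem _ fun j _ => Submodule.smul_mem_smul ?_ trivial
    simpa [h3 j] using hc j

lemma exists_minimal [Module.Finite k R] (m : Ideal R) (hJ : m ≤ Ideal.jacobson ⊥)
    (hk : ∀ r : R, ∃ c : k, r - algebraMap k R c ∈ m) :
    ∃ (b : ℕ → ℕ) (N : ∀ j, Submodule R (Fin (b j) → R)) (ε : (Fin (b 0) → R) →ₗ[R] R ⧸ m)
      (π : ∀ j, (Fin (b (j + 1)) → R) →ₗ[R] N j), Function.Surjective ε ∧ LinearMap.ker ε = N 0 ∧
      (∀ j, Function.Surjective (π j)) ∧ (∀ j, LinearMap.ker (π j) = N (j + 1)) ∧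
      ∀ j, N j ≤ m • ⊤ := by
  have : IsNoetherianRing R := isNoetherian_of_tower k inferInstance
  choose nb φ h1 h2 using fun s : Σ b : ℕ, Submodule R (Fin b → R) => exists_cover k m hJ hk s.2
  obtain ⟨b0, ε, e1, e2⟩ := exists_cover k m hJ hk (R ⧸ m)
  let s : ℕ → Σ b : ℕ, Submodule R (Fin b → R) := fun j =>
    Nat.rec ⟨b0, LinearMap.ker ε⟩ (fun _ t => ⟨nb t, LinearMap.ker (φ t)⟩) j
  refine ⟨fun j => (s j).1, fun j => (s j).2, ε, fun j => φ (s j), e1, rfl, fun j => h1 _,
    fun j => rfl, fun j => ?_⟩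
  cases j with
  | zero => exact e2
  | succ j => exact h2 _

theorem not_serre_of_product [Module.Finite k R] (x : Fin 4 → R)
    (hm : Ideal.span (Set.range x) ≠ ⊤) (hJ : Ideal.span (Set.range x) ≤ Ideal.jacobson ⊥)
    (hk : ∀ r : R, ∃ c : k, r - algebraMap k R c ∈ Ideal.span (Set.range x))
    {u v : Kos R 4} (hu : u ∈ cycles x 2) (hv : v ∈ cycles x 2)
    (hvm : v ∈ Ideal.span (Set.range x) • (⊤ : Submodule R (Kos R 4))) (huv : u * v ≠ 0) :
    ¬ PDefs.SerreEquality k x := by
  intro hS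
  have : IsNoetherianRing R := isNoetherian_of_tower k inferInstance
  obtain ⟨b, N, ε, π, hε, hε0, hπ, hπ0, hN⟩ := exists_minimal k _ hJ hk
  have x0 : Function.Exact (N 0).subtype ε := by
    rw [LinearMap.exact_iff, hε0, Submodule.range_subtype]
  have xs : ∀ j, Function.Exact (N (j + 1)).subtype (π j) := fun j => by
    rw [LinearMap.exact_iff, hπ0, Submodule.range_subtype]
  have hr : ∀ j, LinearMap.range ((N j).subtype ∘ₗ π j) = N j := fun j => by
    rw [LinearMap.range_comp, LinearMap.range_eq_top.2 (hπ j), Submodule.map_top,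
      Submodule.range_subtype]
  have hN' : ∀ j, LinearMap.range (N j).subtype ≤ Ideal.span (Set.range x) • ⊤ := fun j => by
    rw [Submodule.range_subtype]; exact hN j
  let F : Res R (R ⧸ Ideal.span (Set.range x)) :=
    { X := fun j => ModuleCat.of R (Fin (b j) → R)
      d := fun j => (N j).subtype ∘ₗ π j
      ε := ε
      proj := fun j => inferInstanceAs (Module.Projective R (Fin (b j) → R))
      surj := hε
      exact0 := LinearMap.exact_iff.2 (hε0.trans (hr 0).symm)
      exact := fun j => LinearMap.exact_iff.2 (by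
        change LinearMap.ker ((N j).subtype ∘ₗ π j) =
          LinearMap.range ((N (j + 1)).subtype ∘ₗ π (j + 1))
        rw [hr, LinearMap.ker_comp_of_ker_eq_bot _ (Submodule.ker_subtype _), hπ0]) }
  have hb : ∀ j, PDefs.torDim k (Ideal.span (Set.range x)) j = b j := fun j =>
    torDim_eq k _ hm hk F (fun j => (hr j).le.trans (hN j)) j _ (LinearEquiv.refl R _)
  have h5 := five_of_serre _ (fun i => Module.finrank k (KosH x (i + 1))) 4 hS
  simp only [hb] at h5
  have inj : ∀ j, Function.Injective (N j).subtype := fun j => Subtype.val_injective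
  have a5 := hM_zero_eq k x (inj 5) (xs 4) (hπ 4) (hN' 5)
  have a4 := les_zero k x (inj 4) (xs 3) (hπ 3) (hN' 4)
  obtain ⟨r3, a3, v3⟩ := les_mod k x (inj 3) (xs 2) (hπ 2) 1
  obtain ⟨r2, a2, v2⟩ := les_mod k x (inj 2) (xs 1) (hπ 1) 2
  obtain ⟨r1, a1, v1⟩ := les_mod k x (inj 1) (xs 0) (hπ 0) 3
  obtain ⟨r0, a0, -⟩ := les_mod k x (inj 0) x0 hε 4
  have a6 := hM_eq_zero k (M := R ⧸ Ideal.span (Set.range x)) x (show 4 < 4 + 1 by omega)
  rw [hM_free] at a5 a3 a2 a1 a0
  have c0 := finrank_kosH_zero_pos k x hm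
  have c1 : (b 5 : ℤ) ≤ b 5 * Module.finrank k (KosH x 0) :=
    le_mul_of_one_le_right (by omega) (by omega)
  have h5' : (b 5 : ℤ) = b 3 * Module.finrank k (KosH x 1) + b 2 * Module.finrank k (KosH x 2) +
      b 1 * Module.finrank k (KosH x 3) + b 0 * Module.finrank k (KosH x 4) := by
    rw [h5]; push_cast; simp [Nat.choose]; ring
  have hr0 : r3 = 0 ∧ r2 = 0 ∧ r1 = 0 := by
    simp only [Nat.reduceAdd] at a5 a4 a3 a2 a1 a0 a6
    omega
  have k3 := kill_zero x hu (hπ 2) (v3 hr0.1)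
  have k2 := kill_succ x hu (inj 2) (xs 1) (hπ 1) (v2 hr0.2.1) k3
  have k1 := kill_succ x hu (inj 1) (xs 0) (hπ 0) (v1 hr0.2.2) k2
  have : Nontrivial (R ⧸ Ideal.span (Set.range x)) := Ideal.Quotient.nontrivial_iff.2 hm
  have hne : Nonempty (Fin (b 0)) := by
    by_contra h
    rw [not_nonempty_iff] at h
    exact not_subsingleton _ hε.subsingleton
  obtain ⟨j⟩ := hne
  have z0 : ε.lTensor (Kos R 4) (v ⊗ₜ[R] (Pi.single j 1 : Fin (b 0) → R)) = 0 := by
    obtain ⟨y, hy⟩ := mem_span_smul_top x hvm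
    rw [LinearMap.lTensor_tmul, hy, TensorProduct.sum_tmul]
    refine Finset.sum_eq_zero fun l _ => ?_
    obtain ⟨s, hs⟩ := Ideal.Quotient.mk_surjective (ε (Pi.single j 1))
    have : x l • ε (Pi.single j 1) = 0 := by
      rw [← hs, Algebra.smul_def, Ideal.Quotient.algebraMap_eq, ← map_mul,
        Ideal.Quotient.eq_zero_iff_mem]
      exact Ideal.mul_mem_right _ _ (Ideal.subset_span ⟨l, rfl⟩)
    rw [TensorProduct.smul_tmul, this, TensorProduct.tmul_zero]
  obtain ⟨y, hy⟩ := (lTensor_exact (Kos R 4) x0 hε _).1 z0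
  have hyZ : y ∈ ZM x (N 0) 2 := by
    refine ⟨mem_of_lT_mem (inj 0) (by rw [hy]; exact tmul_mem_PM hv.1 _), ?_⟩
    apply lT_inj (inj 0)
    rw [← lr_comm, hy, LinearMap.rTensor_tmul, show kosD x v = 0 from hv.2, map_zero,
      TensorProduct.zero_tmul]
  obtain ⟨t, ht, e⟩ := k1 y hyZ
  rw [PM_eq_zero (by omega) ht, map_zero] at e
  have e2 := congrArg (fun w => piScalarRight R R (Kos R 4) (Fin (b 0))
    ((N 0).subtype.lTensor (Kos R 4) w) j) e
  simp only [map_zero, Pi.zero_apply] at e2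
  rw [← lr_comm, hy] at e2
  simp at e2
  exact huv e2.symm

end Pool.Agent.Lib.MP_6756f0_al
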