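import Pool.Agent.Lib.MP_6756f0_al.PGolod

/-! Serre's equality when the homology has representatives in a square-zero ideal. -/

namespace Pool.Agent.Lib.MP_6756f0_al

open ExteriorAlgebra

variable {R : Type} [CommRing R] {n : ℕ}

lemma kos_finite : Module.Finite R (Kos R n) := Module.Finite.of_basis (eBasis R n)

lemma exists_rep (x : Fin n → R) (a : Ideal R)
    (h : ∀ z : Kos R n, kosD x z = 0 → ∃ (y w : Kos R n) (r : R),
      w ∈ a • (⊤ : Submodule R (Kos R n)) ∧ z = kosD x y + w + algebraMap R _ r)
    (i : ℕ) (c : KosH x (i + 1)) : ∃ w, w ∈ a • (⊤ : Submodule R (Kos R n)) ∧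
      ∃ hw : w ∈ cycles x (i + 1), Submodule.Quotient.mk ⟨w, hw⟩ = c := by
  obtain ⟨⟨z, hz1, hz2⟩, rfl⟩ := Submodule.Quotient.mk_surjective _ c
  obtain ⟨y, w, r, hw, e⟩ := h z hz2
  have e2 : z = kosD x (prj R n (i + 2) y) + prj R n (i + 1) w := by
    rw [← prj_same hz1, e, map_add, map_add, prj_kosD, prj_ne (algebraMap_mem_zero r) (by omega),
      add_zero]
  refine ⟨prj R n (i + 1) w, ?_, ⟨prj_mem _ _, ?_⟩, ?_⟩
  · have := Submodule.mem_map_of_mem (f := prj R n (i + 1)) hw
    rw [Submodule.map_smul''] at this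
    exact Submodule.smul_mono le_rfl le_top this
  · have h3 : kosD x z = 0 := hz2
    rw [e2, map_add, kosD_kosD, zero_add] at h3
    exact h3
  · rw [eq_comm, Submodule.Quotient.eq]
    refine ⟨prj R n (i + 2) y, prj_mem _ _, ?_⟩
    simp only [Submodule.subtype_apply, AddSubgroupClass.coe_sub]
    rw [eq_sub_iff_add_eq, ← e2]

lemma mul_eq_zero_of_sq (a : Ideal R) (ha : a * a = ⊥) :
    ∀ u ∈ a • (⊤ : Submodule R (Kos R n)), ∀ v ∈ a • (⊤ : Submodule R (Kos R n)),
      u * v = 0 := by
  intro u hu v hv
  induction hu using Submodule.smul_induction_on' with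
  | add _ _ _ _ h1 h2 => rw [add_mul, h1, h2, add_zero]
  | smul r hr u _ =>
    induction hv using Submodule.smul_induction_on' with
    | add _ _ _ _ h1 h2 => rw [mul_add, h1, h2, add_zero]
    | smul s hs v _ =>
      have : r * s = 0 := by
        have := Ideal.mul_mem_mul hr hs
        rwa [ha, Ideal.mem_bot] at this
      rw [smul_mul_smul_comm, this, zero_smul]

variable (k : Type) [Field k] [Algebra k R]

lemma kosH_finite [Module.Finite k R] (x : Fin n → R) (i : ℕ) : Module.Finite k (KosH x i) := by
  have := kos_finite (R := R) (n := n)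
  have : Module.Finite k (Kos R n) := Module.Finite.trans R _
  have : Module.Finite k (cycles x i) :=
    Module.Finite.of_injective ((cycles x i).subtype.restrictScalars k) Subtype.val_injective
  let q : cycles x i →ₗ[k] KosH x i := (Submodule.mkQ _).restrictScalars k
  refine Module.Finite.of_surjective q fun y => ?_
  obtain ⟨u, rfl⟩ := Submodule.Quotient.mk_surjective _ y
  exact ⟨u, rfl⟩

lemma finrank_kosH_eq_zero (x : Fin n → R) {i : ℕ} (hi : n < i) :
    Module.finrank k (KosH x i) = 0 := by
  have : Subsingleton (KosH x i) := ⟨fun a b => by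
    obtain ⟨a, rfl⟩ := Submodule.Quotient.mk_surjective _ a
    obtain ⟨b, rfl⟩ := Submodule.Quotient.mk_surjective _ b
    rw [show a = b from Subtype.ext ((KD_eq_zero hi a.2.1).trans (KD_eq_zero hi b.2.1).symm)]⟩
  exact Module.finrank_zero_of_subsingleton

theorem serre_of_square_zero [Module.Finite k R] (x : Fin n → R)
    (hm : Ideal.span (Set.range x) ≠ ⊤)
    (hk : ∀ r : R, ∃ c : k, r - algebraMap k R c ∈ Ideal.span (Set.range x))
    (a : Ideal R) (ha : a * a = ⊥) (ham : a ≤ Ideal.span (Set.range x))
    (h : ∀ z : Kos R n, kosD x z = 0 → ∃ (y w : Kos R n) (r : R),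
      w ∈ a • (⊤ : Submodule R (Kos R n)) ∧ z = kosD x y + w + algebraMap R _ r) :
    PDefs.SerreEquality k x := by
  classical
  choose w hw1 hw2 hw3 using exists_rep x a h
  have := kosH_finite k x
  have : Nontrivial R := by
    by_contra h
    rw [not_nontrivial_iff_subsingleton] at h
    exact hm (Subsingleton.elim _ _)
  let c : ℕ → ℕ := fun i => Module.finrank k (KosH x (i + 1))
  let b : ∀ i, Module.Basis (Fin (c i)) k (KosH x (i + 1)) := fun i => Module.finBasis k _
  let B : Type := Σ i : Fin n, Fin (c i)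
  let dg : B → ℕ := fun g => g.1
  let z : B → Kos R n := fun g => w g.1 (b g.1 g.2)
  let q : ∀ i, cycles x (i + 1) →ₗ[k] KosH x (i + 1) := fun i => (Submodule.mkQ _).restrictScalars k
  have hsum : ∀ (i : Fin n) (e : B → k), (∀ g, dg g ≠ i → e g = 0) →
      ∑ g, algebraMap k R (e g) • z g =
        (∑ p, e ⟨i, p⟩ • (⟨w i (b i p), hw2 _ _⟩ : cycles x (i + 1)) : cycles x (i + 1)) := by
    intro i e he
    rw [Fintype.sum_sigma, Finset.sum_eq_single i]
    · simp only [algebraMap_smul, AddSubmonoidClass.coe_finsetSum]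
      rfl
    · intro j _ hj
      refine Finset.sum_eq_zero fun p _ => ?_
      rw [he ⟨j, p⟩ fun h => hj (Fin.ext h), map_zero, zero_smul]
    · simp
  have hq : ∀ (i : ℕ) (e : Fin (c i) → k),
      q i (∑ p, e p • (⟨w i (b i p), hw2 _ _⟩ : cycles x (i + 1))) = ∑ p, e p • b i p := by
    intro i e
    rw [map_sum]
    refine Finset.sum_congr rfl fun p _ => ?_
    rw [map_smul]
    exact congrArg _ (hw3 i (b i p))
  have D : GolodData k x dg z :=
    { deg := fun g => (hw2 _ _).1
      cyc := fun g => (hw2 _ _).2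
      sq := fun g g' => by
        rw [sg_of_mem (hw2 _ _).1, smul_mul_assoc, mul_eq_zero_of_sq a ha _ (hw1 _ _) _ (hw1 _ _),
          smul_zero]
      mem := fun g => Submodule.smul_mono ham le_rfl (hw1 _ _)
      ind := fun i e he hb => by
        by_cases hi : i < n
        · rw [hsum ⟨i, hi⟩ e he] at hb
          have h1 : q i (∑ p, e ⟨⟨i, hi⟩, p⟩ • (⟨w i (b i p), hw2 _ _⟩ : cycles x (i + 1))) = 0 :=
            (Submodule.Quotient.mk_eq_zero _).2 hb
          rw [hq] at h1
          have h2 := Fintype.linearIndependent_iff.1 (b i).linearIndependent _ h1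
          funext g
          by_cases hg : dg g = i
          · obtain ⟨⟨j, hj⟩, p⟩ := g
            obtain rfl : j = i := hg
            exact h2 p
          · exact he g hg
        · funext g
          exact he g fun hg => hi (hg ▸ g.1.2)
      spn := fun i u hu => by
        by_cases hi : i < n
        · let e : B → k := fun g => if hg : g.1 = ⟨i, hi⟩ then
            (b i).repr (q i ⟨u, hu⟩) (Fin.cast (by rw [hg]) g.2) else 0
          have he : ∀ g, dg g ≠ i → e g = 0 := fun g hg =>
            dif_neg fun h => hg (congrArg Fin.val h)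
          refine ⟨e, he, ?_⟩
          rw [hsum ⟨i, hi⟩ e he]
          have h1 : q i ⟨u, hu⟩ =
              q i (∑ p, e ⟨⟨i, hi⟩, p⟩ • (⟨w i (b i p), hw2 _ _⟩ : cycles x (i + 1))) := by
            rw [hq]
            simp only [e, dif_pos, Fin.cast_eq_self, Module.Basis.sum_repr]
          exact (Submodule.Quotient.eq ((boundaries x (i + 1)).submoduleOf (cycles x (i + 1)))).1 h1
        · refine ⟨0, fun _ _ => rfl, ?_⟩
          rw [KD_eq_zero (by omega) hu.1]
          simp
      res := hk }
  refine serre_of_rec dg _ c n (fun i => ?_) fun m => ?_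
  · rw [Finset.card_filter, Fintype.sum_sigma]
    by_cases hi : i < n
    · rw [Finset.sum_eq_single ⟨i, hi⟩]
      · simp [dg]
      · intro j _ hj
        exact Finset.sum_eq_zero fun p _ => if_neg fun h => hj (Fin.ext h)
      · simp
    · rw [Finset.sum_eq_zero]
      · exact finrank_kosH_eq_zero k x (by omega)
      · intro j _
        exact Finset.sum_eq_zero fun p _ => if_neg fun h : (j : ℕ) = i => hi (h ▸ j.2)
  · simp only [D.torDim hm]
    exact finrank_FF dg m

end Pool.Agent.Lib.MP_6756f0_al
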