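import Pool.Agent.Lib.MP_6756f0_al.PSquare
import Pool.Agent.Lib.MP_6756f0_al.PDim

/-! Koszul complexes of modules and short exact sequences. -/

namespace Pool.Agent.Lib.MP_6756f0_al

open ExteriorAlgebra TensorProduct

variable {R : Type} [CommRing R] {n : ℕ}
variable {M A B C : Type} [AddCommGroup M] [Module R M] [AddCommGroup A] [Module R A]
  [AddCommGroup B] [Module R B] [AddCommGroup C] [Module R C]

/-- The degree `i` part of the Koszul complex of a module. -/
noncomputable def PM (R : Type) [CommRing R] (n : ℕ) (M : Type) [AddCommGroup M] [Module R M]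
    (i : ℕ) : Submodule R (Kos R n ⊗[R] M) := LinearMap.range ((prj R n i).rTensor M)

/-- Cycles of the Koszul complex of a module. -/
noncomputable def ZM (x : Fin n → R) (M : Type) [AddCommGroup M] [Module R M] (i : ℕ) :
    Submodule R (Kos R n ⊗[R] M) := PM R n M i ⊓ LinearMap.ker ((kosD x).rTensor M)

/-- Boundaries of the Koszul complex of a module. -/
noncomputable def BM (x : Fin n → R) (M : Type) [AddCommGroup M] [Module R M] (i : ℕ) :
    Submodule R (Kos R n ⊗[R] M) := (PM R n M (i + 1)).map ((kosD x).rTensor M)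

lemma lr_comm (φ : Kos R n →ₗ[R] Kos R n) (f : A →ₗ[R] B) (y : Kos R n ⊗[R] A) :
    φ.rTensor B (f.lTensor (Kos R n) y) = f.lTensor (Kos R n) (φ.rTensor A y) := by
  induction y using TensorProduct.induction_on with
  | zero => simp
  | add u v hu hv => simp only [map_add, hu, hv]
  | tmul a b => simp

lemma rT_congr {φ ψ φ' ψ' : Kos R n →ₗ[R] Kos R n} (h : ∀ a, φ (ψ a) = φ' (ψ' a))
    (y : Kos R n ⊗[R] M) : φ.rTensor M (ψ.rTensor M y) = φ'.rTensor M (ψ'.rTensor M y) := by
  induction y using TensorProduct.induction_on with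
  | zero => simp
  | add u v hu hv => simp only [map_add, hu, hv]
  | tmul a b => simp [h]

lemma mem_PM {i : ℕ} {y : Kos R n ⊗[R] M} : y ∈ PM R n M i ↔ (prj R n i).rTensor M y = y := by
  constructor
  · rintro ⟨y, rfl⟩
    induction y using TensorProduct.induction_on with
    | zero => simp
    | add u v hu hv => simp only [map_add, hu, hv]
    | tmul a b => simp [prj_same (prj_mem i a)]
  · intro h
    exact ⟨y, h⟩

lemma tmul_mem_PM {i : ℕ} {a : Kos R n} (ha : a ∈ KD R n i) (v : M) : a ⊗ₜ[R] v ∈ PM R n M i :=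
  mem_PM.2 (by simp [prj_same ha])

lemma PM_map {i j : ℕ} (φ : Kos R n →ₗ[R] Kos R n) (h : ∀ a ∈ KD R n i, φ a ∈ KD R n j)
    {y : Kos R n ⊗[R] M} (hy : y ∈ PM R n M i) : φ.rTensor M y ∈ PM R n M j := by
  obtain ⟨y, rfl⟩ := hy
  induction y using TensorProduct.induction_on with
  | zero => simp
  | add u v hu hv => simp only [map_add]; exact add_mem hu hv
  | tmul a b => exact tmul_mem_PM (h _ (prj_mem i a)) b

lemma PM_eq_zero {i : ℕ} (hi : n < i) {y : Kos R n ⊗[R] M} (hy : y ∈ PM R n M i) : y = 0 := by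
  obtain ⟨y, rfl⟩ := hy
  have : prj R n i = 0 := LinearMap.ext fun a => KD_eq_zero hi (prj_mem i a)
  rw [this]; simp

lemma DM_zero (x : Fin n → R) {y : Kos R n ⊗[R] M} (hy : y ∈ PM R n M 0) :
    (kosD x).rTensor M y = 0 := by
  obtain ⟨y, rfl⟩ := hy
  induction y using TensorProduct.induction_on with
  | zero => simp
  | add u v hu hv => simp only [map_add, hu, hv, add_zero]
  | tmul a b => simp [(kosD_mem_aux x (prj_mem 0 a)).2 rfl]

lemma DM_DM (x : Fin n → R) (y : Kos R n ⊗[R] M) :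
    (kosD x).rTensor M ((kosD x).rTensor M y) = 0 := by
  induction y using TensorProduct.induction_on with
  | zero => simp
  | add u v hu hv => simp only [map_add, hu, hv, add_zero]
  | tmul a b => simp [kosD_kosD]

lemma DM_mem (x : Fin n → R) {i : ℕ} {y : Kos R n ⊗[R] M} (hy : y ∈ PM R n M (i + 1)) :
    (kosD x).rTensor M y ∈ PM R n M i := PM_map _ (fun _ ha => kosD_mem x ha) hy

lemma BM_le_ZM (x : Fin n → R) (i : ℕ) : BM x M i ≤ ZM x M i := by
  rintro _ ⟨y, hy, rfl⟩
  exact ⟨DM_mem x hy, DM_DM x y⟩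

lemma lT_mem (f : A →ₗ[R] B) {i : ℕ} {y : Kos R n ⊗[R] A} (hy : y ∈ PM R n A i) :
    f.lTensor (Kos R n) y ∈ PM R n B i := by
  rw [mem_PM] at hy ⊢
  rw [lr_comm, hy]

lemma lT_inj {f : A →ₗ[R] B} (hf : Function.Injective f) :
    Function.Injective (f.lTensor (Kos R n)) := by
  have : Module.Free R (Kos R n) := Module.Free.of_basis (eBasis R n)
  exact Module.Flat.lTensor_preserves_injective_linearMap f hf

lemma mem_of_lT_mem {f : A →ₗ[R] B} (hf : Function.Injective f) {i : ℕ} {y : Kos R n ⊗[R] A}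
    (hy : f.lTensor (Kos R n) y ∈ PM R n B i) : y ∈ PM R n A i := by
  rw [mem_PM] at hy ⊢
  rw [lr_comm] at hy
  exact lT_inj hf hy

lemma exists_lift {g : B →ₗ[R] C} (hg : Function.Surjective g) {i : ℕ} {y : Kos R n ⊗[R] C}
    (hy : y ∈ PM R n C i) : ∃ w ∈ PM R n B i, g.lTensor (Kos R n) w = y := by
  obtain ⟨w, rfl⟩ := LinearMap.lTensor_surjective (Kos R n) hg y
  exact ⟨_, ⟨w, rfl⟩, by rw [← lr_comm, mem_PM.1 hy]⟩

/-- The map induced on Koszul homology in degree `i` is zero. -/
def Van (x : Fin n → R) (g : B →ₗ[R] C) (i : ℕ) : Prop :=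
  ∀ y ∈ ZM x B i, g.lTensor (Kos R n) y ∈ BM x C i

/-- Multiplication by `u` kills the Koszul homology in degree `i`. -/
def Kill (x : Fin n → R) (u : Kos R n) (M : Type) [AddCommGroup M] [Module R M] (i : ℕ) : Prop :=
  ∀ y ∈ ZM x M i, (LinearMap.mulLeft R u).rTensor M y ∈ BM x M (i + 2)

lemma L_mem {u : Kos R n} (hu : u ∈ KD R n 2) {i : ℕ} {y : Kos R n ⊗[R] M}
    (hy : y ∈ PM R n M i) : (LinearMap.mulLeft R u).rTensor M y ∈ PM R n M (i + 2) :=
  PM_map _ (fun a ha => by rw [add_comm]; exact KD_mul hu ha) hy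

lemma DM_L (x : Fin n → R) {u : Kos R n} (hu : u ∈ cycles x 2) (y : Kos R n ⊗[R] M) :
    (kosD x).rTensor M ((LinearMap.mulLeft R u).rTensor M y) =
      (LinearMap.mulLeft R u).rTensor M ((kosD x).rTensor M y) :=
  rT_congr (fun a => by
    have h0 : kosD x u = 0 := hu.2
    simp [kosD_mul x hu.1, h0]) y

lemma kill_zero (x : Fin n → R) {u : Kos R n} (hu : u ∈ cycles x 2) {g : B →ₗ[R] C}
    (hg : Function.Surjective g) (hv : Van x g 2) : Kill x u C 0 := by
  intro y hy
  obtain ⟨w, hw, rfl⟩ := exists_lift hg hy.1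
  rw [lr_comm]
  refine hv _ ⟨L_mem hu.1 hw, ?_⟩
  change (kosD x).rTensor B _ = 0
  rw [DM_L x hu, DM_zero x hw, map_zero]

lemma kill_succ (x : Fin n → R) {u : Kos R n} (hu : u ∈ cycles x 2) {f : A →ₗ[R] B}
    {g : B →ₗ[R] C} (hf : Function.Injective f) (hfg : Function.Exact f g)
    (hg : Function.Surjective g) {i : ℕ} (hv : Van x g (i + 3)) (hk : Kill x u A i) :
    Kill x u C (i + 1) := by
  intro y hy
  have ex := lTensor_exact (Kos R n) hfg hg
  obtain ⟨w, hw, rfl⟩ := exists_lift hg hy.1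
  have h1 : g.lTensor (Kos R n) ((kosD x).rTensor B w) = 0 := by
    rw [← lr_comm]; exact hy.2
  obtain ⟨a, ha⟩ := (ex _).1 h1
  have ha1 : a ∈ ZM x A i := by
    refine ⟨mem_of_lT_mem hf (by rw [ha]; exact DM_mem x hw), ?_⟩
    apply lT_inj hf
    rw [← lr_comm, ha, DM_DM, map_zero]
  obtain ⟨t, ht, e⟩ := hk a ha1
  have h2 := hv ((LinearMap.mulLeft R u).rTensor B w - f.lTensor (Kos R n) t)
    ⟨sub_mem (L_mem hu.1 hw) (lT_mem f ht), by
      change (kosD x).rTensor B _ = 0
      rw [map_sub, DM_L x hu, lr_comm, e, ← ha, lr_comm, sub_self]⟩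
  rw [map_sub, ex.apply_apply_eq_zero, sub_zero, ← lr_comm] at h2
  exact h2

lemma lT_mem_BM (x : Fin n → R) (f : A →ₗ[R] B)
    (h : LinearMap.range f ≤ Ideal.span (Set.range x) • ⊤) {y : Kos R n ⊗[R] A}
    (hy : y ∈ PM R n A 0) : f.lTensor (Kos R n) y ∈ BM x B 0 := by
  obtain ⟨y, rfl⟩ := hy
  induction y using TensorProduct.induction_on with
  | zero => simp
  | add u v hu hv => simp only [map_add]; exact add_mem hu hv
  | tmul a b =>
    obtain ⟨r, hr⟩ := exists_of_mem_zero (prj_mem (R := R) (n := n) 0 a)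
    obtain ⟨v, hv⟩ := mem_span_smul_top x (h (LinearMap.mem_range_self f b))
    simp only [LinearMap.rTensor_tmul, LinearMap.lTensor_tmul, hr, hv, TensorProduct.tmul_sum]
    refine Submodule.sum_mem _ fun l _ => ⟨(r • ee R l) ⊗ₜ v l,
      tmul_mem_PM (Submodule.smul_mem _ _ (ee_mem l)) _, ?_⟩
    have := kosD_ee_mul x l 1
    rw [mul_one, kosD_one, mul_zero, sub_zero] at this
    rw [LinearMap.rTensor_tmul, map_smul, this, ← TensorProduct.smul_tmul,
      Algebra.algebraMap_eq_smul_one, smul_comm]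

lemma pi_rT {b : ℕ} (φ : Kos R n →ₗ[R] Kos R n) (y : Kos R n ⊗[R] (Fin b → R)) (j : Fin b) :
    piScalarRight R R (Kos R n) (Fin b) (φ.rTensor _ y) j =
      φ (piScalarRight R R (Kos R n) (Fin b) y j) := by
  induction y using TensorProduct.induction_on with
  | zero => simp
  | add u v hu hv => simp only [map_add, Pi.add_apply, hu, hv]
  | tmul a b => simp

lemma mem_PM_pi {b i : ℕ} {y : Kos R n ⊗[R] (Fin b → R)} :
    y ∈ PM R n (Fin b → R) i ↔ ∀ j, piScalarRight R R (Kos R n) (Fin b) y j ∈ KD R n i := by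
  rw [mem_PM]
  constructor
  · intro h j
    rw [← h, pi_rT]; exact prj_mem _ _
  · intro h
    apply (piScalarRight R R (Kos R n) (Fin b)).injective
    funext j
    rw [pi_rT, prj_same (h j)]

lemma mem_ZM_pi (x : Fin n → R) {b i : ℕ} {y : Kos R n ⊗[R] (Fin b → R)} :
    y ∈ ZM x (Fin b → R) i ↔ ∀ j, piScalarRight R R (Kos R n) (Fin b) y j ∈ cycles x i := by
  constructor
  · rintro ⟨h1, h2⟩ j
    refine ⟨mem_PM_pi.1 h1 j, ?_⟩
    change kosD x _ = 0
    rw [← pi_rT, show (kosD x).rTensor _ y = 0 from h2, map_zero, Pi.zero_apply]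
  · intro h
    refine ⟨mem_PM_pi.2 fun j => (h j).1, ?_⟩
    apply (piScalarRight R R (Kos R n) (Fin b)).injective
    funext j
    rw [pi_rT, map_zero]
    exact (h j).2

lemma mem_BM_pi (x : Fin n → R) {b i : ℕ} {y : Kos R n ⊗[R] (Fin b → R)} :
    y ∈ BM x (Fin b → R) i ↔ ∀ j, piScalarRight R R (Kos R n) (Fin b) y j ∈ boundaries x i := by
  constructor
  · rintro ⟨w, hw, rfl⟩ j
    exact ⟨_, mem_PM_pi.1 hw j, (pi_rT _ _ _).symm⟩
  · intro h
    choose w hw1 hw2 using h
    refine ⟨(piScalarRight R R (Kos R n) (Fin b)).symm w, mem_PM_pi.2 fun j => ?_, ?_⟩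
    · rw [LinearEquiv.apply_symm_apply]; exact hw1 j
    · apply (piScalarRight R R (Kos R n) (Fin b)).injective
      funext j
      rw [pi_rT, LinearEquiv.apply_symm_apply, hw2]

variable (k : Type) [Field k] [Algebra k R]

lemma finrank_pi_sub [Module.Finite k R] {b : ℕ} (S : Submodule R (Kos R n ⊗[R] (Fin b → R)))
    (T : Submodule R (Kos R n))
    (h : ∀ y, y ∈ S ↔ ∀ j, piScalarRight R R (Kos R n) (Fin b) y j ∈ T) :
    Module.finrank k S = b * Module.finrank k T := by
  let e : S ≃ₗ[R] (Fin b → T) :=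
    { toFun := fun y j => ⟨piScalarRight R R (Kos R n) (Fin b) y.1 j, (h _).1 y.2 j⟩
      invFun := fun w => ⟨(piScalarRight R R (Kos R n) (Fin b)).symm fun j => (w j).1,
        (h _).2 fun j => by rw [LinearEquiv.apply_symm_apply]; exact (w j).2⟩
      map_add' := fun y y' => by funext j; apply Subtype.ext; simp
      map_smul' := fun r y => by funext j; apply Subtype.ext; simp
      left_inv := fun y => Subtype.ext (LinearEquiv.symm_apply_apply _ _)
      right_inv := fun w => by
        funext j; apply Subtype.ext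
        simp only [LinearEquiv.apply_symm_apply] }
  have := kos_finite (R := R) (n := n)
  have : Module.Finite k (Kos R n) := Module.Finite.trans R _
  have : Module.Finite k T :=
    Module.Finite.of_injective (T.subtype.restrictScalars k) Subtype.val_injective
  rw [(e.restrictScalars k).finrank_eq, Module.finrank_pi_fintype]
  simp

lemma finrank_kosH_add [Module.Finite k R] (x : Fin n → R) (i : ℕ) :
    Module.finrank k (KosH x i) + Module.finrank k (boundaries x i) =
      Module.finrank k (cycles x i) := by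
  have := kos_finite (R := R) (n := n)
  have : Module.Finite k (Kos R n) := Module.Finite.trans R _
  have : Module.Finite k (cycles x i) :=
    Module.Finite.of_injective ((cycles x i).subtype.restrictScalars k) Subtype.val_injective
  let q : cycles x i →ₗ[k] KosH x i := (Submodule.mkQ _).restrictScalars k
  have h1 := LinearMap.finrank_range_add_finrank_ker q
  have h2 : LinearMap.range q = ⊤ := LinearMap.range_eq_top.2 fun y => by
    obtain ⟨u, rfl⟩ := Submodule.Quotient.mk_surjective _ y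
    exact ⟨u, rfl⟩
  have hle : boundaries x i ≤ cycles x i := by
    rintro _ ⟨y, hy, rfl⟩
    exact ⟨kosD_mem x hy, kosD_kosD x y⟩
  let e : LinearMap.ker q ≃ₗ[k] boundaries x i :=
    { toFun := fun y => ⟨y.1.1, (Submodule.Quotient.mk_eq_zero
        ((boundaries x i).submoduleOf (cycles x i))).1 y.2⟩
      invFun := fun w => ⟨⟨w.1, hle w.2⟩, (Submodule.Quotient.mk_eq_zero
        ((boundaries x i).submoduleOf (cycles x i))).2 w.2⟩
      map_add' := fun _ _ => rfl
      map_smul' := fun _ _ => rfl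
      left_inv := fun _ => rfl
      right_inv := fun _ => rfl }
  rw [h2, finrank_top, e.finrank_eq] at h1
  exact h1

end Pool.Agent.Lib.MP_6756f0_al
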