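import Mathlib

namespace Pool.Agent.Lib.MP_6756f0_al.PDefs

/-- The ideal generated by the `a`-th powers of the variables. -/
noncomputable def powers (k : Type) [Field k] (n a : ℕ) : Ideal (MvPolynomial (Fin n) k) :=
  Ideal.span (Set.range fun i => MvPolynomial.X i ^ a)

end Pool.Agent.Lib.MP_6756f0_al.PDefs
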