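import Pool.Agent.Lib.MP_6756f0_al.UProd
import Pool.Agent.Lib.MP_6756f0_al.UDefs

/-! The family of Golod ideals `m (xᵢ^(s+2)) + m^(4s+4)` in any number of variables. -/

namespace Pool.Agent.Lib.MP_6756f0_al

open ExteriorAlgebra MvPolynomial PDefs

variable {k : Type} [Field k] {n : ℕ}

lemma mem_powers (a : ℕ) (f : SS k n) : f ∈ powers k n a ↔ ∀ γ ∈ f.support, ∃ i, a ≤ γ i := by
  have : (fun i : Fin n => (X i ^ a : SS k n)) =
      (fun s => monomial s (1 : k)) ∘ fun i : Fin n => Finsupp.single i a := by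
    funext i
    simp [X_pow_eq_monomial]
  rw [powers, this, Set.range_comp, mem_ideal_span_monomial_image]
  simp [Finsupp.single_le_iff]

lemma mem_irr_pow (d : ℕ) (f : SS k n) :
    f ∈ irr k n ^ d ↔ ∀ γ ∈ f.support, d ≤ Finsupp.degree γ := mem_pow_idealOfVars_iff d f

lemma X_mem_irr (i : Fin n) : (X i : SS k n) ∈ irr k n := Ideal.subset_span ⟨i, rfl⟩

lemma powers_le (a : ℕ) : powers k n a ≤ irr k n ^ a := by
  rw [powers, Ideal.span_le]
  rintro _ ⟨i, rfl⟩
  exact Ideal.pow_mem_pow (X_mem_irr i) a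

lemma powers_le' {a : ℕ} (ha : a ≠ 0) : powers k n a ≤ irr k n :=
  (powers_le a).trans (Ideal.pow_le_self ha)

lemma irr_pow_ne_top {d : ℕ} (hd : d ≠ 0) : irr k n ^ d ≠ ⊤ := by
  rw [Ideal.ne_top_iff_one, ← C_1, irr, C_mem_pow_idealOfVars_iff]
  simp [hd]

/-- The Golod ideal of the family. -/
noncomputable abbrev JJ (k : Type) [Field k] (n s : ℕ) : Ideal (SS k n) :=
  irr k n * powers k n (s + 2) ⊔ irr k n ^ (4 * s + 4)

lemma JJ_le (s : ℕ) : JJ k n s ≤ irr k n ^ (s + 3) :=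
  sup_le (by rw [pow_succ']; exact Ideal.mul_mono_right (powers_le _))
    (Ideal.pow_le_pow_right (by omega))

lemma supp_JJ (s : ℕ) : ∀ f ∈ JJ k n s, ∀ γ ∈ f.support,
    ((∃ i, s + 2 ≤ γ i) ∧ s + 3 ≤ Finsupp.degree γ) ∨ 4 * s + 4 ≤ Finsupp.degree γ := by
  classical
  intro f hf γ hγ
  obtain ⟨u, hu, v, hv, rfl⟩ := Submodule.mem_sup.1 hf
  rcases Finset.mem_union.1 (support_add hγ) with h' | h'
  · exact Or.inl ⟨(mem_powers _ u).1 (Ideal.mul_le_right hu) γ h',
      (mem_irr_pow _ u).1 (JJ_le s (Ideal.mem_sup_left hu)) γ h'⟩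
  · exact Or.inr ((mem_irr_pow _ v).1 hv γ h')

open Classical in
/-- The choice of a variable in each multidegree. -/
noncomputable def jn (i₀ : Fin n) (a : ℕ) (α : Fin n →₀ ℕ) : Fin n :=
  if h : ∃ i, 0 < α i ∧ α i ≠ a then h.choose else if h' : ∃ i, 0 < α i then h'.choose else i₀

lemma jn_pos (i₀ : Fin n) (a : ℕ) (α : Fin n →₀ ℕ) (h0 : α ≠ 0) : 0 < α (jn i₀ a α) := by
  unfold jn
  split_ifs with h h'
  · exact h.choose_spec.1
  · exact h'.choose_spec
  · exfalso
    apply h0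
    ext i
    by_contra hc
    exact h' ⟨i, Nat.pos_of_ne_zero hc⟩

lemma jn_eq (i₀ : Fin n) (a : ℕ) (α : Fin n →₀ ℕ) (h4 : α (jn i₀ a α) = a) (i : Fin n) :
    α i = 0 ∨ α i = a := by
  by_cases h : ∃ i, 0 < α i ∧ α i ≠ a
  · exfalso
    have := h.choose_spec.2
    rw [jn, dif_pos h] at h4
    exact this h4
  · by_contra hc
    exact h ⟨i, by omega, by omega⟩

lemma degree_sub (γ : Fin n →₀ ℕ) (j : Fin n) :
    Finsupp.degree γ ≤ Finsupp.degree (γ - Finsupp.single j 1) + 1 := by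
  have h : γ ≤ γ - Finsupp.single j 1 + Finsupp.single j 1 := le_tsub_add
  have := Finsupp.degree_mono h
  rwa [map_add, Finsupp.degree_single] at this

lemma two_le_degree (δ : Fin n →₀ ℕ) {j l : Fin n} (h : j ≠ l) :
    δ j + δ l ≤ Finsupp.degree δ := by
  rw [Finsupp.degree_eq_sum, ← Finset.sum_pair h]
  exact Finset.sum_le_sum_of_subset (Finset.subset_univ _)

lemma exists_other (γ : Fin n →₀ ℕ) (j : Fin n) (h : γ j < Finsupp.degree γ) :
    ∃ l, j ≠ l ∧ 0 < γ l := by
  by_contra hc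
  push Not at hc
  rw [Finsupp.degree_eq_sum, Finset.sum_eq_single j (fun l _ hl => by
    have := hc l hl.symm; omega) (by simp)] at h
  omega

lemma supp_monomial' {v γ : Fin n →₀ ℕ} (h : γ ∈ (monomial v (1 : k) : SS k n).support) : γ = v :=
  Finset.mem_singleton.1 (support_monomial_subset h)

theorem golod_JJ (i₀ : Fin n) (s : ℕ) : IsGolod (JJ k n s) := by
  have hC : powers k n (s + 2) ≤ irr k n := powers_le' (by omega)
  have hP : irr k n ^ (2 * s + 2) ≤ irr k n := Ideal.pow_le_self (by omega)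
  refine serre_of_choice (jn i₀ (s + 2)) (jn_pos i₀ _) _
    (powers k n (s + 2) ⊔ irr k n ^ (2 * s + 2)) (4 * s + 4)
    (ne_top_of_le_ne_top (irr_pow_ne_top (by omega)) (JJ_le s))
    (fun i => Ideal.mem_sup_right (Ideal.pow_mem_pow (X_mem_irr i) _)) (sup_le hC hP) ?_ ?_
  · rw [Ideal.mul_sup, Ideal.sup_mul, Ideal.sup_mul, ← pow_add]
    refine sup_le (sup_le ?_ ?_) (sup_le ?_ (le_sup_of_le_right (Ideal.pow_le_pow_right (by omega))))
    · exact le_sup_of_le_left (Ideal.mul_mono_left hC)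
    · exact le_sup_of_le_left (Ideal.mul_mono_left hP)
    · rw [mul_comm]
      exact le_sup_of_le_left (Ideal.mul_mono_left hP)
  · intro f hf γ hγ F hF
    have key : (∃ i, s + 2 ≤ (γ - Finsupp.single (jn i₀ (s + 2) (mdeg (γ, F))) 1 : Fin n →₀ ℕ) i) ∨
        2 * s + 2 ≤ Finsupp.degree
          (γ - Finsupp.single (jn i₀ (s + 2) (mdeg (γ, F))) 1 : Fin n →₀ ℕ) := by
      have h4 := jn_eq i₀ (s + 2) (mdeg (γ, F))
      have hj := mdeg_apply (γ, F) (jn i₀ (s + 2) (mdeg (γ, F)))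
      rw [if_neg hF] at hj
      have hm : ∀ i, γ i ≤ mdeg (γ, F) i ∧ mdeg (γ, F) i ≤ γ i + 1 := by
        intro i; rw [mdeg_apply]; split_ifs <;> simp
      have hs := supp_JJ s f hf γ hγ
      generalize jn i₀ (s + 2) (mdeg (γ, F)) = j at h4 hj
      generalize mdeg (γ, F) = α at h4 hj hm
      have hd := degree_sub γ j
      have ej : (γ - Finsupp.single j 1 : Fin n →₀ ℕ) j = γ j - 1 := by simp
      have el : ∀ l, j ≠ l → (γ - Finsupp.single j 1 : Fin n →₀ ℕ) l = γ l := by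
        intro l hl; simp [hl]
      simp only [add_zero] at hj
      rcases hs with ⟨⟨i, hi⟩, hs⟩ | hs
      · by_cases hij : j = i
        · subst hij
          by_cases h : γ j = s + 2
          · obtain ⟨l, hl, hl0⟩ := exists_other γ j (by omega)
            have h1 := two_le_degree (γ - Finsupp.single j 1) hl
            have h2 := h4 (by omega) l
            have h3 := hm l
            rw [ej, el l hl] at h1
            right; omega
          · exact Or.inl ⟨j, by omega⟩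
        · exact Or.inl ⟨i, by rw [el i hij]; exact hi⟩
      · right; omega
    rcases key with ⟨i, hi⟩ | h
    · refine Ideal.mem_sup_left ((mem_powers _ _).2 fun δ hδ => ?_)
      rw [supp_monomial' hδ]; exact ⟨i, hi⟩
    · exact Ideal.mem_sup_right ((monomial_mem_pow_idealOfVars_iff _ _ one_ne_zero).2 h)

theorem golod_pow (i₀ : Fin n) {s : ℕ} (hs : 2 ≤ s) : IsGolod (irr k n ^ s) := by
  refine serre_of_choice (jn i₀ 0) (jn_pos i₀ _) _ (irr k n ^ (s - 1)) s
    (irr_pow_ne_top (by omega)) (fun i => Ideal.pow_mem_pow (X_mem_irr i) s)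
    (Ideal.pow_le_self (by omega))
    (by rw [← pow_add]; exact Ideal.pow_le_pow_right (by omega)) ?_
  intro f hf γ hγ F _
  have h := (mem_irr_pow s f).1 hf γ hγ
  have hd := degree_sub γ (jn i₀ 0 (mdeg (γ, F)))
  exact (monomial_mem_pow_idealOfVars_iff _ _ one_ne_zero).2 (by omega)

theorem not_golod_mul {a b c d : Fin n} (hab : a < b) (hbc : b < c) (hcd : c < d) (s : ℕ)
    (I : Ideal (SS k n)) (h1 : irr k n ^ s ≤ I) (h2 : I ≤ irr k n) : ¬ IsGolod (JJ k n s * I) := by
  classical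
  have mem : ∀ i j : Fin n, (X i ^ (s + 1) * X j ^ (s + 1) * X i : SS k n) ∈ JJ k n s * I := by
    intro i j
    rw [show (X i ^ (s + 1) * X j ^ (s + 1) * X i : SS k n) = (X j * X i ^ (s + 2)) * X j ^ s by
      ring]
    exact Ideal.mul_mem_mul
      (Ideal.mem_sup_left (Ideal.mul_mem_mul (X_mem_irr j) (Ideal.subset_span ⟨i, rfl⟩)))
      (h1 (Ideal.pow_mem_pow (X_mem_irr j) s))
  have kill : ∀ i j : Fin n, Ideal.Quotient.mk (JJ k n s * I) (X i ^ (s + 1) * X j ^ (s + 1)) *
      Ideal.Quotient.mk (JJ k n s * I) (X i) = 0 := fun i j => by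
    rw [← map_mul]
    exact Ideal.Quotient.eq_zero_iff_mem.2 (mem i j)
  have hN : ∀ i, (X i : SS k n) ^ (s + 1 + (s + 1) + 1) ∈ JJ k n s * I := fun i => by
    have := mem i i
    rwa [← pow_add, ← pow_succ] at this
  have hle : JJ k n s * I ≤ powers k n (s + 2) ⊔ irr k n ^ (4 * s + 4 + 1) := by
    refine (Ideal.mul_mono_right h2).trans ?_
    rw [Ideal.sup_mul, ← pow_succ]
    exact sup_le_sup_right (Ideal.mul_le_left.trans Ideal.mul_le_right) _
  have hne : JJ k n s * I ≠ ⊤ := ne_top_of_le_ne_top (irr_pow_ne_top (by omega))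
    (Ideal.mul_le_left.trans (JJ_le s))
  have := quot_finite _ _ hN
  refine not_serre_of_colon' k _ (quot_ne_top _ hne _ hN) (quot_jac _ _ hN) (quot_res _)
    hab hbc hcd (f := Ideal.Quotient.mk _ (X a ^ (s + 1) * X b ^ (s + 1)))
    (g := Ideal.Quotient.mk _ (X c ^ (s + 1) * X d ^ (s + 1))) (by
      rw [map_mul, map_pow]
      refine Ideal.mul_mem_right _ _ (Ideal.pow_mem_of_mem _ ?_ _ (by omega))
      exact Ideal.subset_span ⟨c, rfl⟩) (kill a b) (by rw [mul_comm (X a ^ _)]; exact kill b a)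
    (kill c d) (by rw [mul_comm (X c ^ _)]; exact kill d c) ?_
  intro h
  rw [← map_mul, ← Function.comp_def, Set.image_comp, ← Ideal.map_span,
    Ideal.mem_map_iff_of_surjective _ Ideal.Quotient.mk_surjective] at h
  obtain ⟨p, hp, e⟩ := h
  obtain ⟨u, hu, v, hv, e2⟩ := Submodule.mem_sup.1 (hle (Ideal.Quotient.eq.1 e))
  obtain ⟨γ, hγ⟩ : ∃ γ : Fin n →₀ ℕ, γ = Finsupp.single a (s + 1) + Finsupp.single b (s + 1) +
    (Finsupp.single c (s + 1) + Finsupp.single d (s + 1)) := ⟨_, rfl⟩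
  have hac := hab.trans hbc
  have hbd := hbc.trans hcd
  have had := hac.trans hcd
  have c1 : coeff γ p = 0 := by
    by_contra hc
    obtain ⟨i, hi, hi0⟩ := mem_ideal_span_X_image.1 hp γ (mem_support_iff.2 hc)
    simp only [List.toFinset_cons, List.toFinset_nil, Finset.mem_insert, Set.mem_ofPred_eq,
      not_or, insert_empty_eq, Finset.mem_singleton] at hi
    simp [hγ, Ne.symm hi.1, Ne.symm hi.2.1, Ne.symm hi.2.2.1,
      Ne.symm hi.2.2.2] at hi0
  have c2 : coeff γ u = 0 := by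
    by_contra hc
    obtain ⟨i, hi⟩ := (mem_powers _ u).1 hu γ (mem_support_iff.2 hc)
    simp only [hγ, Finsupp.add_apply, Finsupp.single_apply] at hi
    split_ifs at hi <;> omega
  have c3 : coeff γ v = 0 := by
    by_contra hc
    have hi := (mem_irr_pow _ v).1 hv γ (mem_support_iff.2 hc)
    simp only [hγ, map_add, Finsupp.degree_single] at hi
    omega
  have c4 := congrArg (coeff γ) e2
  simp only [X_pow_eq_monomial, monomial_mul, mul_one, ← hγ, coeff_add, coeff_sub, c1, c2, c3,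
    coeff_monomial, if_true] at c4
  simp at c4

attribute [local instance] MvPolynomial.gradedAlgebra in
lemma homog_irr_pow (d : ℕ) : (irr k n ^ d).IsHomogeneous (homogeneousSubmodule (Fin n) k) := by
  induction d with
  | zero => rw [pow_zero, Ideal.one_eq_top]; exact Ideal.IsHomogeneous.top _
  | succ d ih =>
    rw [pow_succ]
    exact ih.mul (Ideal.homogeneous_span _ _ (by
      rintro _ ⟨i, rfl⟩
      exact ⟨1, isHomogeneous_X k i⟩))

attribute [local instance] MvPolynomial.gradedAlgebra in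
lemma homog_JJ (s : ℕ) : (JJ k n s).IsHomogeneous (homogeneousSubmodule (Fin n) k) :=
  ((pow_one (irr k n) ▸ homog_irr_pow 1).mul (Ideal.homogeneous_span _ _ (by
    rintro _ ⟨i, rfl⟩
    exact ⟨s + 2, isHomogeneous_X_pow i _⟩))).sup (homog_irr_pow _)

attribute [local instance] MvPolynomial.gradedAlgebra in
lemma comp_mem' {I : Ideal (SS k n)} (h : I.IsHomogeneous (homogeneousSubmodule (Fin n) k)) :
    ∀ f ∈ I, ∀ d, homogeneousComponent d f ∈ I := by
  intro f hf d
  rw [← MvPolynomial.decomposition.decompose'_apply]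
  exact h d hf

lemma adm_JJ (s : ℕ) : IsAdmissible (JJ k n s) :=
  ⟨ne_top_of_le_ne_top (irr_pow_ne_top (by omega)) (JJ_le s), comp_mem' (homog_JJ s),
    (JJ_le s).trans (Ideal.pow_le_pow_right (by omega))⟩

lemma adm_pow {s : ℕ} (hs : 2 ≤ s) : IsAdmissible (irr k n ^ s) :=
  ⟨irr_pow_ne_top (by omega), comp_mem' (homog_irr_pow s), Ideal.pow_le_pow_right hs⟩

end Pool.Agent.Lib.MP_6756f0_al
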