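import Pool.Agent.Lib.MP_6756f0_al.PExample

/-! A nonzero product `H₂ · H₂` in the Koszul homology breaks Serre's equality, in any number of
variables. -/

namespace Pool.Agent.Lib.MP_6756f0_al

open ExteriorAlgebra TensorProduct

variable {R : Type} [CommRing R] {n : ℕ}
variable (k : Type) [Field k] [Algebra k R]

lemma hM_res_le (x : Fin n → R) (m : Ideal R) (hm : m ≠ ⊤)
    (hk : ∀ r : R, ∃ c : k, r - algebraMap k R c ∈ m) (i : ℕ) :
    hM k x (R ⧸ m) i ≤ n.choose i := by
  have : Nontrivial R := by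
    by_contra h
    rw [not_nontrivial_iff_subsingleton] at h
    exact hm (Subsingleton.elim _ _)
  let β := Module.finBasisOfFinrankEq R (KD R n i) (finrank_KD i)
  let φ : (Fin (n.choose i) → k) →ₗ[k] Kos R n ⊗[R] (R ⧸ m) :=
    Fintype.linearCombination k fun j => (β j : Kos R n) ⊗ₜ[R] (1 : R ⧸ m)
  have hle : (ZM x (R ⧸ m) i).restrictScalars k ≤ LinearMap.range φ := by
    rintro _ ⟨⟨y, rfl⟩, -⟩
    induction y using TensorProduct.induction_on with
    | zero => simp
    | add u v hu hv => simp only [map_add]; exact add_mem hu hv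
    | tmul a b =>
      obtain ⟨b, rfl⟩ := Ideal.Quotient.mk_surjective b
      let a' : KD R n i := ⟨prj R n i a, prj_mem i a⟩
      choose c hc using fun j => hk (β.repr a' j * b)
      refine ⟨c, ?_⟩
      have e : prj R n i a = ∑ j, β.repr a' j • (β j : Kos R n) := by
        have := congrArg (KD R n i).subtype (β.sum_repr a')
        rw [map_sum] at this
        exact this.symm
      rw [LinearMap.rTensor_tmul, e, TensorProduct.sum_tmul, Fintype.linearCombination_apply]
      refine Finset.sum_congr rfl fun j _ => ?_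
      rw [TensorProduct.smul_tmul', ← algebraMap_smul R (c j), TensorProduct.smul_tmul,
        TensorProduct.smul_tmul]
      congr 1
      rw [Algebra.smul_def, Algebra.smul_def, mul_one, Ideal.Quotient.algebraMap_eq, ← map_mul]
      exact (Ideal.Quotient.eq.2 (hc j)).symm
  have h1 := Submodule.finrank_mono hle
  have h2 := LinearMap.finrank_range_le φ
  rw [finrank_eq_of_iff k _ (ZM x (R ⧸ m) i) fun _ => Iff.rfl] at h1
  rw [Module.finrank_fin_fun] at h2
  rw [hM]
  omega

theorem not_serre_of_product' [Module.Finite k R] (x : Fin n → R)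
    (hm : Ideal.span (Set.range x) ≠ ⊤) (hJ : Ideal.span (Set.range x) ≤ Ideal.jacobson ⊥)
    (hk : ∀ r : R, ∃ c : k, r - algebraMap k R c ∈ Ideal.span (Set.range x))
    {u v : Kos R n} (hu : u ∈ cycles x 2) (hv : v ∈ cycles x 2)
    (hvm : v ∈ Ideal.span (Set.range x) • (⊤ : Submodule R (Kos R n)))
    (huv : u * v ∉ boundaries x 4) : ¬ PDefs.SerreEquality k x := by
  intro hS
  have : IsNoetherianRing R := isNoetherian_of_tower k inferInstance
  obtain ⟨b, N, ε, π, hε, hε0, hπ, hπ0, hN⟩ := exists_minimal k _ hJ hk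
  have x0 : Function.Exact (N 0).subtype ε := by
    rw [LinearMap.exact_iff, hε0, Submodule.range_subtype]
  have xs : ∀ j, Function.Exact (N (j + 1)).subtype (π j) := fun j => by
    rw [LinearMap.exact_iff, hπ0, Submodule.range_subtype]
  have hr : ∀ j, LinearMap.range ((N j).subtype ∘ₗ π j) = N j := fun j => by
    rw [LinearMap.range_comp, LinearMap.range_eq_top.2 (hπ j), Submodule.map_top,
      Submodule.range_subtype]
  have hN' : ∀ j, LinearMap.range (N j).subtype ≤ Ideal.span (Set.range x) • ⊤ := fun j => by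
    rw [Submodule.range_subtype]; exact hN j
  let F : Res R (R ⧸ Ideal.span (Set.range x)) :=
    { X := fun j => ModuleCat.of R (Fin (b j) → R)
      d := fun j => (N j).subtype ∘ₗ π j
      ε := ε
      proj := fun j => inferInstanceAs (Module.Projective R (Fin (b j) → R))
      surj := hε
      exact0 := LinearMap.exact_iff.2 (hε0.trans (hr 0).symm)
      exact := fun j => LinearMap.exact_iff.2 (by
        change LinearMap.ker ((N j).subtype ∘ₗ π j) =
          LinearMap.range ((N (j + 1)).subtype ∘ₗ π (j + 1))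
        rw [hr, LinearMap.ker_comp_of_ker_eq_bot _ (Submodule.ker_subtype _), hπ0]) }
  have hb : ∀ j, PDefs.torDim k (Ideal.span (Set.range x)) j = b j := fun j =>
    torDim_eq k _ hm hk F (fun j => (hr j).le.trans (hN j)) j _ (LinearEquiv.refl R _)
  have h5 := five_of_serre _ (fun i => Module.finrank k (KosH x (i + 1))) n hS
  simp only [hb] at h5
  have inj : ∀ j, Function.Injective (N j).subtype := fun j => Subtype.val_injective
  have a5 := hM_zero_eq k x (inj 5) (xs 4) (hπ 4) (hN' 5)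
  have a4 := les_zero k x (inj 4) (xs 3) (hπ 3) (hN' 4)
  obtain ⟨r3, a3, v3⟩ := les_mod k x (inj 3) (xs 2) (hπ 2) 1
  obtain ⟨r2, a2, v2⟩ := les_mod k x (inj 2) (xs 1) (hπ 1) 2
  obtain ⟨r1, a1, v1⟩ := les_mod k x (inj 1) (xs 0) (hπ 0) 3
  obtain ⟨r0, a0, -⟩ := les_mod k x (inj 0) x0 hε 4
  have a6 := hM_res_le k x _ hm hk (4 + 1)
  rw [hM_free] at a5 a3 a2 a1 a0
  have c0 := finrank_kosH_zero_pos k x hm
  have c1 : (b 5 : ℤ) ≤ b 5 * Module.finrank k (KosH x 0) :=
    le_mul_of_one_le_right (by omega) (by omega)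
  have h5' : (b 5 : ℤ) = n.choose 5 + (b 3 * Module.finrank k (KosH x 1) +
      b 2 * Module.finrank k (KosH x 2) + b 1 * Module.finrank k (KosH x 3) +
      b 0 * Module.finrank k (KosH x 4)) := by
    rw [h5]; push_cast; ring
  have hr0 : r3 = 0 ∧ r2 = 0 ∧ r1 = 0 := by
    simp only [Nat.reduceAdd] at a5 a4 a3 a2 a1 a0 a6
    omega
  have k3 := kill_zero x hu (hπ 2) (v3 hr0.1)
  have k2 := kill_succ x hu (inj 2) (xs 1) (hπ 1) (v2 hr0.2.1) k3
  have k1 := kill_succ x hu (inj 1) (xs 0) (hπ 0) (v1 hr0.2.2) k2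
  have : Nontrivial (R ⧸ Ideal.span (Set.range x)) := Ideal.Quotient.nontrivial_iff.2 hm
  have hne : Nonempty (Fin (b 0)) := by
    by_contra h
    rw [not_nonempty_iff] at h
    exact not_subsingleton _ hε.subsingleton
  obtain ⟨j⟩ := hne
  have z0 : ε.lTensor (Kos R n) (v ⊗ₜ[R] (Pi.single j 1 : Fin (b 0) → R)) = 0 := by
    obtain ⟨y, hy⟩ := mem_span_smul_top x hvm
    rw [LinearMap.lTensor_tmul, hy, TensorProduct.sum_tmul]
    refine Finset.sum_eq_zero fun l _ => ?_
    obtain ⟨s, hs⟩ := Ideal.Quotient.mk_surjective (ε (Pi.single j 1))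
    have : x l • ε (Pi.single j 1) = 0 := by
      rw [← hs, Algebra.smul_def, Ideal.Quotient.algebraMap_eq, ← map_mul,
        Ideal.Quotient.eq_zero_iff_mem]
      exact Ideal.mul_mem_right _ _ (Ideal.subset_span ⟨l, rfl⟩)
    rw [TensorProduct.smul_tmul, this, TensorProduct.tmul_zero]
  obtain ⟨y, hy⟩ := (lTensor_exact (Kos R n) x0 hε _).1 z0
  have hyZ : y ∈ ZM x (N 0) 2 := by
    refine ⟨mem_of_lT_mem (inj 0) (by rw [hy]; exact tmul_mem_PM hv.1 _), ?_⟩
    apply lT_inj (inj 0)
    rw [← lr_comm, hy, LinearMap.rTensor_tmul, show kosD x v = 0 from hv.2, map_zero,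
      TensorProduct.zero_tmul]
  obtain ⟨t, ht, e⟩ := k1 y hyZ
  have e1 : (LinearMap.mulLeft R u).rTensor _ (v ⊗ₜ[R] (Pi.single j 1 : Fin (b 0) → R)) ∈
      BM x (Fin (b 0) → R) 4 :=
    ⟨_, lT_mem (N 0).subtype ht, by rw [lr_comm, e, ← lr_comm, hy]⟩
  have e2 := (mem_BM_pi x).1 e1 j
  simp at e2
  exact huv e2

lemma repr_kosD_mem (x : Fin n → R) (F : Finset (Fin n)) (y : Kos R n) :
    (eBasis R n).repr (kosD x y) F ∈ Ideal.span (x '' {i | i ∉ F}) := by
  classical
  have key : ∀ G, (eBasis R n).repr (kosD x (eBasis R n G)) F ∈ Ideal.span (x '' {i | i ∉ F}) := by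
    intro G
    have h1 := kosD_eList x G.sort (Finset.sort_nodup _ _)
    rw [← eBasis_apply] at h1
    generalize kosD x (eBasis R n G) = w at h1
    induction h1 using AddSubgroup.closure_induction with
    | mem w hw =>
      obtain ⟨i, -, rfl⟩ := hw
      rw [← sort_erase, ← eBasis_apply, map_smul, Module.Basis.repr_self, Finsupp.smul_apply,
        Finsupp.single_apply]
      split_ifs with h
      · rw [smul_eq_mul, mul_one]
        exact Ideal.subset_span ⟨i, by rw [← h]; simp, rfl⟩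
      · rw [smul_zero]; exact zero_mem _
    | zero => rw [map_zero]; exact zero_mem _
    | add u v _ _ hu hv => rw [map_add]; exact add_mem hu hv
    | neg u _ hu => rw [map_neg]; exact neg_mem hu
  rw [← (eBasis R n).sum_repr y, map_sum, map_sum, Finsupp.finsetSum_apply]
  refine Ideal.sum_mem _ fun G _ => ?_
  rw [map_smul, map_smul, Finsupp.smul_apply, smul_eq_mul]
  exact Ideal.mul_mem_left _ _ (key G)

lemma cycle_mem' (x : Fin n → R) (i j : Fin n) {f : R} (hi : f * x i = 0)
    (hj : f * x j = 0) : f • (ee R i * ee R j) ∈ cycles x 2 := by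
  refine ⟨Submodule.smul_mem _ _ (KD_mul (ee_mem i) (ee_mem j)), ?_⟩
  rw [SetLike.mem_coe, LinearMap.mem_ker, map_smul, kosD_ee_mul, ← mul_one (ee _ j), kosD_ee_mul,
    kosD_one, mul_zero, sub_zero, mul_smul_comm, smul_sub, smul_smul, smul_smul, hi, hj,
    zero_smul, zero_smul, sub_zero]

lemma not_serre_of_colon' [Module.Finite k R] (x : Fin n → R)
    (hm : Ideal.span (Set.range x) ≠ ⊤) (hJ : Ideal.span (Set.range x) ≤ Ideal.jacobson ⊥)
    (hk : ∀ r : R, ∃ c : k, r - algebraMap k R c ∈ Ideal.span (Set.range x)) {a b c d : Fin n}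
    (hab : a < b) (hbc : b < c) (hcd : c < d) {f g : R} (hg : g ∈ Ideal.span (Set.range x))
    (h0 : f * x a = 0) (h1 : f * x b = 0) (h2 : g * x c = 0) (h3 : g * x d = 0)
    (h : f * g ∉ Ideal.span (x '' {i | i ∉ [a, b, c, d].toFinset})) :
    ¬ PDefs.SerreEquality k x := by
  refine not_serre_of_product' k _ hm hJ hk (cycle_mem' x a b h0 h1) (cycle_mem' x c d h2 h3)
    (Submodule.smul_mem_smul hg trivial) ?_
  have hp : [a, b, c, d].Pairwise (· < ·) := by
    simp [hab, hbc, hcd, hab.trans hbc, hbc.trans hcd, hab.trans (hbc.trans hcd)]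
  have e : ee R a * ee R b * (ee R c * ee R d) = eBasis R n [a, b, c, d].toFinset := by
    rw [eBasis_apply, (List.toFinset_sort (· ≤ ·) hp.nodup).2 (hp.imp le_of_lt)]
    simp [eList, mul_assoc]
  rw [smul_mul_smul_comm, e]
  rintro ⟨y, -, hy⟩
  have h4 := repr_kosD_mem x [a, b, c, d].toFinset y
  rw [hy] at h4
  simp only [map_smul, Module.Basis.repr_self, Finsupp.smul_apply, Finsupp.single_eq_same,
    smul_eq_mul, mul_one] at h4
  exact h h4

end Pool.Agent.Lib.MP_6756f0_al
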